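import Mathlib

/-!
# Nilsequences and interpolation sets

The problem file writes `ℕ = {1, 2, 3, …}`; here this is `ℕ+`.
-/

set_option autoImplicit false

namespace Pool.Agent.Lib.MP_1b26ca_an

open scoped Manifold ContDiff

/-- `ψ` is a *basic `k`-step nilsequence*: there are a (real, finite dimensional, smooth,
Hausdorff, second countable) Lie group `G`, nilpotent of step `k` (that is, the term
`γ_{k+1}(G) = (⊤ : Subgroup G).lowerCentralSeries k` of the lower central series is trivial), a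
discrete cocompact subgroup `Γ`, an element `g ∈ G`, a point `x ∈ G ⧸ Γ` and a continuous function
`F : G ⧸ Γ → ℂ` with `ψ n = F (g ^ n • x)` for all `n ≥ 1`. -/
def IsBasicNilseq (k : ℕ) (ψ : ℕ+ → ℂ) : Prop :=
  ∃ (E : Type) (_ : NormedAddCommGroup E) (_ : NormedSpace ℝ E) (_ : FiniteDimensional ℝ E)
    (G : Type) (_ : TopologicalSpace G) (_ : ChartedSpace E G) (_ : Group G)
    (_ : LieGroup 𝓘(ℝ, E) ∞ G) (_ : T2Space G) (_ : SecondCountableTopology G)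
    (_ : (⊤ : Subgroup G).lowerCentralSeries k = ⊥)
    (Γ : Subgroup G) (_ : DiscreteTopology Γ) (_ : CompactSpace (G ⧸ Γ))
    (g : G) (x : G ⧸ Γ) (F : G ⧸ Γ → ℂ),
    Continuous F ∧ ∀ n : ℕ+, ψ n = F (g ^ (n : ℕ) • x)

/-- `ψ` is a *`k`-step nilsequence*: a uniform limit on `ℕ` of basic `k`-step nilsequences. -/
def IsNilseq (k : ℕ) (ψ : ℕ+ → ℂ) : Prop :=
  ∀ ε : ℝ, 0 < ε → ∃ φ : ℕ+ → ℂ, IsBasicNilseq k φ ∧ ∀ n : ℕ+, ‖ψ n - φ n‖ ≤ ε

/-- `E ⊆ ℕ` is a *`k`-step interpolation set*: every bounded function on `E` is the restriction of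
a `k`-step nilsequence. -/
def IsInterpolationSet (k : ℕ) (E : Set ℕ+) : Prop :=
  ∀ f : E → ℂ, (∃ C : ℝ, ∀ n, ‖f n‖ ≤ C) → ∃ ψ : ℕ+ → ℂ, IsNilseq k ψ ∧ ∀ n : E, ψ n = f n

end Pool.Agent.Lib.MP_1b26ca_an
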