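import Mathlib

/-!
# Lie groups have no small subgroups
-/

set_option autoImplicit false

open Topology Filter
open scoped Manifold ContDiff

namespace Pool.Agent.Lib.MP_1b26ca_an

/-- A Lie group has no small subgroups. -/
theorem lie_nss (E : Type*) [NormedAddCommGroup E] [NormedSpace ℝ E]
    (G : Type*) [TopologicalSpace G] [ChartedSpace E G] [Group G] [LieGroup 𝓘(ℝ, E) ∞ G] :
    ∃ V ∈ 𝓝 (1 : G), ∀ H : Subgroup G, (H : Set G) ⊆ V → H = ⊥ := by
  have htop : IsTopologicalGroup G := topologicalGroup_of_lieGroup 𝓘(ℝ, E) ∞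
  have hman1 : IsManifold 𝓘(ℝ, E) ∞ G := inferInstance
  set φ := extChartAt 𝓘(ℝ, E) (1 : G) with hφ
  set c : E := φ 1 with hc
  have hc1 : φ.symm c = 1 := by rw [hc]; exact extChartAt_to_inv (I := 𝓘(ℝ, E)) (1 : G)
  have hsrc : φ.source ∈ 𝓝 (1 : G) := extChartAt_source_mem_nhds (I := 𝓘(ℝ, E)) (1 : G)
  have htgt : φ.target ∈ 𝓝 c := extChartAt_target_mem_nhds (I := 𝓘(ℝ, E)) (1 : G)
  let μ : E × E → E := fun p => φ (φ.symm p.1 * φ.symm p.2)
  have hsymm : ContMDiffAt 𝓘(ℝ, E) 𝓘(ℝ, E) ∞ φ.symm c :=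
    (contMDiffOn_extChartAt_symm (I := 𝓘(ℝ, E)) (n := ∞) (1 : G)).contMDiffAt htgt
  have hμ : ContDiffAt ℝ ∞ μ (c, c) := by
    rw [← contMDiffAt_iff_contDiffAt]
    have h1 : ContMDiffAt 𝓘(ℝ, E × E) 𝓘(ℝ, E) ∞ (fun p : E × E => φ.symm p.1) (c, c) :=
      ContMDiffAt.comp (x := ((c, c) : E × E)) (g := φ.symm) (f := fun p : E × E => p.1)
        hsymm contDiff_fst.contMDiff.contMDiffAt
    have h2 : ContMDiffAt 𝓘(ℝ, E × E) 𝓘(ℝ, E) ∞ (fun p : E × E => φ.symm p.2) (c, c) :=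
      ContMDiffAt.comp (x := ((c, c) : E × E)) (g := φ.symm) (f := fun p : E × E => p.2)
        hsymm contDiff_snd.contMDiff.contMDiffAt
    have h3 := h1.mul h2
    have h4 : ContMDiffAt 𝓘(ℝ, E) 𝓘(ℝ, E) ∞ φ
        ((fun p : E × E => φ.symm p.1 * φ.symm p.2) (c, c)) := by
      have : (fun p : E × E => φ.symm p.1 * φ.symm p.2) (c, c) = 1 := by
        simp only [hc1, mul_one]
      rw [this]
      exact contMDiffAt_extChartAt
    exact ContMDiffAt.comp (x := ((c, c) : E × E)) (g := φ)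
      (f := fun p : E × E => φ.symm p.1 * φ.symm p.2) h4 h3
  have hd : HasFDerivAt μ (fderiv ℝ μ (c, c)) (c, c) :=
    (hμ.differentiableAt (by simp)).hasFDerivAt
  set L := fderiv ℝ μ (c, c) with hL
  -- derivatives along the two factors
  have hl : ∀ u, L (u, 0) = u := by
    have h1 : HasFDerivAt (fun v : E => μ (v, c))
        (L.comp ((ContinuousLinearMap.id ℝ E).prod (0 : E →L[ℝ] E))) c := by
      have h2 : HasFDerivAt (fun v : E => ((v, c) : E × E))
          ((ContinuousLinearMap.id ℝ E).prod (0 : E →L[ℝ] E)) c :=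
        (hasFDerivAt_id c).prodMk (hasFDerivAt_const c c)
      exact HasFDerivAt.comp (g := μ) c hd h2
    have h2 : (fun v : E => μ (v, c)) =ᶠ[𝓝 c] id := by
      filter_upwards [htgt] with v hv
      change φ (φ.symm v * φ.symm c) = v
      rw [hc1, mul_one]
      exact φ.right_inv hv
    have h3 := (h2.hasFDerivAt_iff.1 h1).unique (hasFDerivAt_id c)
    intro u
    have := congrArg (fun A : E →L[ℝ] E => A u) h3
    simpa using this
  have hr : ∀ u, L (0, u) = u := by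
    have h1 : HasFDerivAt (fun v : E => μ (c, v))
        (L.comp ((0 : E →L[ℝ] E).prod (ContinuousLinearMap.id ℝ E))) c := by
      have h2 : HasFDerivAt (fun v : E => ((c, v) : E × E))
          ((0 : E →L[ℝ] E).prod (ContinuousLinearMap.id ℝ E)) c :=
        (hasFDerivAt_const c c).prodMk (hasFDerivAt_id c)
      exact HasFDerivAt.comp (g := μ) c hd h2
    have h2 : (fun v : E => μ (c, v)) =ᶠ[𝓝 c] id := by
      filter_upwards [htgt] with v hv
      change φ (φ.symm c * φ.symm v) = v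
      rw [hc1, one_mul]
      exact φ.right_inv hv
    have h3 := (h2.hasFDerivAt_iff.1 h1).unique (hasFDerivAt_id c)
    intro u
    have := congrArg (fun A : E →L[ℝ] E => A u) h3
    simpa using this
  -- the squaring map
  have hs : HasFDerivAt (fun v : E => μ (v, v))
      (L.comp ((ContinuousLinearMap.id ℝ E).prod (ContinuousLinearMap.id ℝ E))) c := by
    have h2 : HasFDerivAt (fun v : E => ((v, v) : E × E))
        ((ContinuousLinearMap.id ℝ E).prod (ContinuousLinearMap.id ℝ E)) c :=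
      (hasFDerivAt_id c).prodMk (hasFDerivAt_id c)
    exact HasFDerivAt.comp (g := μ) c hd h2
  have hcc : μ (c, c) = c := by
    change φ (φ.symm c * φ.symm c) = c
    rw [hc1, mul_one]
  have hexp : ∀ᶠ v in 𝓝 c, (3 / 2 : ℝ) * ‖v - c‖ ≤ ‖μ (v, v) - c‖ := by
    have h1 := hs.isLittleO
    have h2 := (Asymptotics.isLittleO_iff.1 h1) (c := 1 / 2) (by norm_num)
    filter_upwards [h2] with v hv
    have h3 : (L.comp ((ContinuousLinearMap.id ℝ E).prod (ContinuousLinearMap.id ℝ E))) (v - c)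
        = (2 : ℝ) • (v - c) := by
      have : ((v - c, v - c) : E × E) = (v - c, 0) + (0, v - c) := by simp
      simp only [ContinuousLinearMap.comp_apply, ContinuousLinearMap.prod_apply,
        ContinuousLinearMap.id_apply]
      rw [this, map_add, hl, hr, two_smul]
    rw [h3, hcc] at hv
    have h4 : ‖(2 : ℝ) • (v - c)‖ = 2 * ‖v - c‖ := by rw [norm_smul]; norm_num
    have h5 : ‖(2 : ℝ) • (v - c)‖ ≤ ‖μ (v, v) - c‖ + ‖μ (v, v) - c - (2 : ℝ) • (v - c)‖ := by
      have : (2 : ℝ) • (v - c) = (μ (v, v) - c) - (μ (v, v) - c - (2 : ℝ) • (v - c)) := by abel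
      calc ‖(2 : ℝ) • (v - c)‖ = ‖(μ (v, v) - c) - (μ (v, v) - c - (2 : ℝ) • (v - c))‖ := by
            rw [← this]
        _ ≤ _ := norm_sub_le _ _
    rw [h4] at h5
    linarith
  obtain ⟨r, hr0, hball⟩ := Metric.eventually_nhds_iff.1 hexp
  -- the neighbourhood
  have hcont : ContinuousAt φ (1 : G) := continuousAt_extChartAt (I := 𝓘(ℝ, E)) (1 : G)
  have hV : φ ⁻¹' (Metric.ball c r) ∈ 𝓝 (1 : G) :=
    hcont.preimage_mem_nhds (Metric.ball_mem_nhds c hr0)
  refine ⟨φ.source ∩ φ ⁻¹' (Metric.ball c r), Filter.inter_mem hsrc hV, fun H hH => ?_⟩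
  rw [eq_bot_iff]
  intro h hh
  have key : ∀ x ∈ H, (3 / 2 : ℝ) * ‖φ x - c‖ ≤ ‖φ (x * x) - c‖ := by
    intro x hx
    have h1 := hH hx
    have h2 := hball (y := φ x) h1.2
    have h3 : φ.symm (φ x) = x := φ.left_inv h1.1
    change (3 / 2 : ℝ) * ‖φ x - c‖ ≤ ‖φ (φ.symm (φ x) * φ.symm (φ x)) - c‖ at h2
    rwa [h3] at h2
  have hit : ∀ n : ℕ, ∃ x ∈ H, (3 / 2 : ℝ) ^ n * ‖φ h - c‖ ≤ ‖φ x - c‖ := by
    intro n
    induction n with
    | zero => exact ⟨h, hh, by simp⟩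
    | succ n ih =>
      obtain ⟨x, hx, h1⟩ := ih
      refine ⟨x * x, H.mul_mem hx hx, ?_⟩
      have := key x hx
      calc (3 / 2 : ℝ) ^ (n + 1) * ‖φ h - c‖ = (3 / 2) * ((3 / 2 : ℝ) ^ n * ‖φ h - c‖) := by ring
        _ ≤ (3 / 2) * ‖φ x - c‖ := by gcongr
        _ ≤ _ := this
  have h0 : ‖φ h - c‖ = 0 := by
    by_contra hne
    have hpos : 0 < ‖φ h - c‖ := lt_of_le_of_ne (norm_nonneg _) (Ne.symm hne)
    obtain ⟨n, hn⟩ := pow_unbounded_of_one_lt (r / ‖φ h - c‖) (by norm_num : (1 : ℝ) < 3 / 2)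
    obtain ⟨x, hx, h1⟩ := hit n
    have h2 : ‖φ x - c‖ < r := by
      have := (hH hx).2
      rwa [Set.mem_preimage, Metric.mem_ball, dist_eq_norm] at this
    rw [div_lt_iff₀ hpos] at hn
    linarith
  have h1 : φ h = c := by rwa [norm_eq_zero, sub_eq_zero] at h0
  have h2 : φ.symm (φ h) = h := φ.left_inv (hH hh).1
  rw [h1, hc1] at h2
  exact h2.symm

end Pool.Agent.Lib.MP_1b26ca_an
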