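import Mathlib

/-!
# Cube groups of a filtration

An abstract version of the Host-Kra cube groups, with the unique completion property
stated relative to a pair of subgroups `O` (small elements) and `Γ` (lattice).
-/

set_option autoImplicit false
set_option linter.unusedSectionVars false

namespace Pool.Agent.Lib.MP_1b26ca_an

open scoped commutatorElement

/-- Nested cubes: `2^n` entries. -/
def Cube (α : Type*) : ℕ → Type _
  | 0 => α
  | n + 1 => Cube α n × Cube α n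

instance instGroupCube {α : Type*} [Group α] : (n : ℕ) → Group (Cube α n)
  | 0 => inferInstanceAs (Group α)
  | n + 1 => by
    letI := instGroupCube (α := α) n
    exact inferInstanceAs (Group (Cube α n × Cube α n))

section cube

variable {α : Type*} [Group α]

lemma cube_mul_fst {n : ℕ} (x y : Cube α (n + 1)) : (x * y).1 = x.1 * y.1 := rfl
lemma cube_mul_snd {n : ℕ} (x y : Cube α (n + 1)) : (x * y).2 = x.2 * y.2 := rfl
lemma cube_inv_fst {n : ℕ} (x : Cube α (n + 1)) : (x⁻¹).1 = (x.1)⁻¹ := rfl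
lemma cube_inv_snd {n : ℕ} (x : Cube α (n + 1)) : (x⁻¹).2 = (x.2)⁻¹ := rfl
lemma cube_one_fst {n : ℕ} : (1 : Cube α (n + 1)).1 = 1 := rfl
lemma cube_one_snd {n : ℕ} : (1 : Cube α (n + 1)).2 = 1 := rfl
lemma cube_comm_fst {n : ℕ} (x y : Cube α (n + 1)) : (⁅x, y⁆).1 = ⁅x.1, y.1⁆ := rfl
lemma cube_comm_snd {n : ℕ} (x y : Cube α (n + 1)) : (⁅x, y⁆).2 = ⁅x.2, y.2⁆ := rfl

/-- The top vertex. -/
def top : (n : ℕ) → Cube α n → α
  | 0, x => x
  | n + 1, x => top n x.2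

lemma top_mul (n : ℕ) (x y : Cube α n) : top n (x * y) = top n x * top n y := by
  induction n with
  | zero => rfl
  | succ n ih => exact ih x.2 y.2

lemma top_inv (n : ℕ) (x : Cube α n) : top n x⁻¹ = (top n x)⁻¹ := by
  induction n with
  | zero => rfl
  | succ n ih => exact ih x.2

/-- The constant cube. -/
def cst : (n : ℕ) → α → Cube α n
  | 0, a => a
  | n + 1, a => (cst n a, cst n a)

lemma top_cst (n : ℕ) (a : α) : top n (cst n a) = a := by
  induction n with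
  | zero => rfl
  | succ n ih => exact ih

/-- All entries satisfy `P`. -/
def All (P : α → Prop) : (n : ℕ) → Cube α n → Prop
  | 0, x => P x
  | n + 1, x => All P n x.1 ∧ All P n x.2

/-- All entries except possibly the top one satisfy `P`. -/
def Off (P : α → Prop) : (n : ℕ) → Cube α n → Prop
  | 0, _ => True
  | n + 1, x => All P n x.1 ∧ Off P n x.2

/-- Equality except possibly at the top vertex. -/
def OffEq : (n : ℕ) → Cube α n → Cube α n → Prop
  | 0, _, _ => True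
  | n + 1, x, y => x.1 = y.1 ∧ OffEq n x.2 y.2

lemma All.off {P : α → Prop} {n : ℕ} {x : Cube α n} (h : All P n x) : Off P n x := by
  induction n with
  | zero => trivial
  | succ n ih => exact ⟨h.1, ih h.2⟩

lemma All.top {P : α → Prop} {n : ℕ} {x : Cube α n} (h : All P n x) : P (top n x) := by
  induction n with
  | zero => exact h
  | succ n ih => exact ih h.2

section sub
variable (H : Subgroup α)

lemma All.mul {n : ℕ} {x y : Cube α n} (hx : All (· ∈ H) n x) (hy : All (· ∈ H) n y) :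
    All (· ∈ H) n (x * y) := by
  induction n with
  | zero => exact H.mul_mem hx hy
  | succ n ih => exact ⟨ih hx.1 hy.1, ih hx.2 hy.2⟩

lemma All.inv {n : ℕ} {x : Cube α n} (hx : All (· ∈ H) n x) : All (· ∈ H) n x⁻¹ := by
  induction n with
  | zero => exact H.inv_mem hx
  | succ n ih => exact ⟨ih hx.1, ih hx.2⟩

lemma Off.mul {n : ℕ} {x y : Cube α n} (hx : Off (· ∈ H) n x) (hy : Off (· ∈ H) n y) :
    Off (· ∈ H) n (x * y) := by
  induction n with
  | zero => trivial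
  | succ n ih => exact ⟨All.mul H hx.1 hy.1, ih hx.2 hy.2⟩

lemma Off.inv {n : ℕ} {x : Cube α n} (hx : Off (· ∈ H) n x) : Off (· ∈ H) n x⁻¹ := by
  induction n with
  | zero => trivial
  | succ n ih => exact ⟨All.inv H hx.1, ih hx.2⟩

end sub

lemma OffEq.refl {n : ℕ} (x : Cube α n) : OffEq n x x := by
  induction n with
  | zero => trivial
  | succ n ih => exact ⟨rfl, ih _⟩

lemma OffEq.symm {n : ℕ} {x y : Cube α n} (h : OffEq n x y) : OffEq n y x := by
  induction n with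
  | zero => trivial
  | succ n ih => exact ⟨h.1.symm, ih h.2⟩

lemma OffEq.trans {n : ℕ} {x y z : Cube α n} (h : OffEq n x y) (h' : OffEq n y z) :
    OffEq n x z := by
  induction n with
  | zero => trivial
  | succ n ih => exact ⟨h.1.trans h'.1, ih h.2 h'.2⟩

lemma OffEq.mul {n : ℕ} {x y x' y' : Cube α n} (h : OffEq n x y) (h' : OffEq n x' y') :
    OffEq n (x * x') (y * y') := by
  induction n with
  | zero => trivial
  | succ n ih =>
    refine ⟨?_, ih h.2 h'.2⟩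
    rw [cube_mul_fst, cube_mul_fst, h.1, h'.1]

lemma OffEq.inv {n : ℕ} {x y : Cube α n} (h : OffEq n x y) : OffEq n x⁻¹ y⁻¹ := by
  induction n with
  | zero => trivial
  | succ n ih =>
    refine ⟨?_, ih h.2⟩
    rw [cube_inv_fst, cube_inv_fst, h.1]

lemma OffEq.comm {n : ℕ} {x y x' y' : Cube α n} (h : OffEq n x y) (h' : OffEq n x' y') :
    OffEq n ⁅x, x'⁆ ⁅y, y'⁆ := by
  rw [commutatorElement_def, commutatorElement_def]
  exact ((h.mul h').mul h.inv).mul h'.inv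

lemma OffEq.off {P : α → Prop} {n : ℕ} {x y : Cube α n} (h : OffEq n x y) (hx : Off P n x) :
    Off P n y := by
  induction n with
  | zero => trivial
  | succ n ih => exact ⟨h.1 ▸ hx.1, ih h.2 hx.2⟩

/-- A filtration of a group, starting with the whole group. -/
structure Filt (M : ℕ → Subgroup α) : Prop where
  zero : M 0 = ⊤
  succ_le : ∀ p, M (p + 1) ≤ M p
  comm : ∀ p q x y, x ∈ M p → y ∈ M q → ⁅x, y⁆ ∈ M (p + q)

/-- Membership in the cube group of the shifted filtration. -/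
def HK (M : ℕ → Subgroup α) : (n p : ℕ) → Cube α n → Prop
  | 0, p, x => x ∈ M p
  | n + 1, p, x => HK M n p x.1 ∧ HK M n (p + 1) ((x.1)⁻¹ * x.2)

variable {M : ℕ → Subgroup α}

/-- The closure properties of cube groups. -/
structure HKClosed (M : ℕ → Subgroup α) (n : ℕ) : Prop where
  one : ∀ p, HK M n p 1
  mul : ∀ p x y, HK M n p x → HK M n p y → HK M n p (x * y)
  inv : ∀ p x, HK M n p x → HK M n p x⁻¹
  anti : ∀ p x, HK M n (p + 1) x → HK M n p x
  comm : ∀ p q x y, HK M n p x → HK M n q y → HK M n (p + q) ⁅x, y⁆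

lemma HKClosed.anti_le {n : ℕ} (h : HKClosed M n) {p q : ℕ} (hpq : p ≤ q) {x : Cube α n}
    (hx : HK M n q x) : HK M n p x := by
  obtain ⟨d, rfl⟩ := Nat.exists_eq_add_of_le hpq
  induction d with
  | zero => exact hx
  | succ d ih => exact ih (by omega) (h.anti _ _ hx)

lemma HKClosed.zero_of {n : ℕ} (h : HKClosed M n) {p : ℕ} {x : Cube α n}
    (hx : HK M n p x) : HK M n 0 x := h.anti_le (Nat.zero_le p) hx

/-- Conjugation by elements of the full cube group. -/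
lemma HKClosed.conj {n : ℕ} (h : HKClosed M n) {p : ℕ} {g x : Cube α n}
    (hg : HK M n 0 g) (hx : HK M n p x) : HK M n p (g * x * g⁻¹) := by
  have e : g * x * g⁻¹ = ⁅g, x⁆ * x := by rw [commutatorElement_def]; group
  rw [e]
  have := h.comm 0 p g x hg hx
  rw [Nat.zero_add] at this
  exact h.mul _ _ _ this hx

lemma HKClosed.conj' {n : ℕ} (h : HKClosed M n) {p : ℕ} {g x : Cube α n}
    (hg : HK M n 0 g) (hx : HK M n p x) : HK M n p (g⁻¹ * x * g) := by
  have := h.conj (h.inv _ _ hg) hx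
  simpa using this

lemma hk_closed (hM : Filt M) (n : ℕ) : HKClosed M n := by
  induction n with
  | zero =>
    refine ⟨fun p => (M p).one_mem, fun p x y hx hy => (M p).mul_mem hx hy,
      fun p x hx => (M p).inv_mem hx, fun p x hx => hM.succ_le p hx,
      fun p q x y hx hy => hM.comm p q x y hx hy⟩
  | succ n ih =>
    refine ⟨?_, ?_, ?_, ?_, ?_⟩
    · intro p
      refine ⟨ih.one p, ?_⟩
      rw [cube_one_fst, cube_one_snd]
      simpa using ih.one (p + 1)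
    · intro p x y hx hy
      refine ⟨ih.mul _ _ _ hx.1 hy.1, ?_⟩
      rw [cube_mul_fst, cube_mul_snd]
      have e : (x.1 * y.1)⁻¹ * (x.2 * y.2)
          = ((y.1)⁻¹ * ((x.1)⁻¹ * x.2) * y.1) * ((y.1)⁻¹ * y.2) := by group
      rw [e]
      exact ih.mul _ _ _ (ih.conj' (ih.zero_of hy.1) hx.2) hy.2
    · intro p x hx
      refine ⟨ih.inv _ _ hx.1, ?_⟩
      rw [cube_inv_fst, cube_inv_snd]
      have e : ((x.1)⁻¹)⁻¹ * (x.2)⁻¹ = x.1 * ((x.1)⁻¹ * x.2)⁻¹ * (x.1)⁻¹ := by group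
      rw [e]
      exact ih.conj (ih.zero_of hx.1) (ih.inv _ _ hx.2)
    · intro p x hx
      exact ⟨ih.anti _ _ hx.1, ih.anti _ _ hx.2⟩
    · intro p q x y hx hy
      refine ⟨ih.comm _ _ _ _ hx.1 hy.1, ?_⟩
      rw [cube_comm_fst, cube_comm_snd]
      obtain ⟨x0, x1⟩ := x
      obtain ⟨y0, y1⟩ := y
      obtain ⟨hx0, hx1⟩ := hx
      obtain ⟨hy0, hy1⟩ := hy
      dsimp only at *
      set x' := x0⁻¹ * x1 with hx'
      set y' := y0⁻¹ * y1 with hy'
      have ex : x1 = x0 * x' := by rw [hx']; group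
      have ey : y1 = y0 * y' := by rw [hy']; group
      rw [ex, ey]
      have e : (⁅x0, y0⁆)⁻¹ * ⁅x0 * x', y0 * y'⁆
          = ((⁅x0, y0⁆)⁻¹ * (x0 * ⁅x', y0 * y'⁆ * x0⁻¹) * ⁅x0, y0⁆) * (y0 * ⁅x0, y'⁆ * y0⁻¹) := by
        simp only [commutatorElement_def]; group
      rw [e]
      have h1 : HK M n (p + q + 1) ⁅x', y0 * y'⁆ := by
        have := ih.comm (p + 1) q x' (y0 * y') hx1 (ih.mul _ _ _ hy0 (ih.anti _ _ hy1))
        convert this using 1
        ring
      have h2 : HK M n (p + q + 1) ⁅x0, y'⁆ := ih.comm p (q + 1) x0 y' hx0 hy1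
      refine ih.mul _ _ _ (ih.conj' ?_ (ih.conj (ih.zero_of hx0) h1)) (ih.conj (ih.zero_of hy0) h2)
      exact ih.zero_of (ih.comm _ _ _ _ hx0 hy0)

lemma hk_cst (hM : Filt M) (n : ℕ) {p : ℕ} {a : α} (ha : a ∈ M p) : HK M n p (cst n a) := by
  induction n with
  | zero => exact ha
  | succ n ih =>
    refine ⟨ih, ?_⟩
    have : ((cst (n + 1) a).1)⁻¹ * (cst (n + 1) a).2 = 1 := by
      change (cst n a)⁻¹ * cst n a = 1
      group
    rw [this]
    exact (hk_closed hM n).one _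

/-- The top vertex of a cube is determined modulo `M (p + n)` by the others. -/
lemma top_of_off (n : ℕ) {p : ℕ} (H : Subgroup α) {z : Cube α n} (hz : HK M n p z)
    (hoff : Off (· ∈ H) n z) : ∃ h ∈ H, ∃ m ∈ M (p + n), top n z = h * m := by
  induction n generalizing p with
  | zero => exact ⟨1, H.one_mem, z, hz, (one_mul z).symm⟩
  | succ n ih =>
    obtain ⟨x, y⟩ := z
    obtain ⟨h1, h2⟩ := hz
    obtain ⟨o1, o2⟩ := hoff
    dsimp only at *
    obtain ⟨h, hh, m, hm, e⟩ := ih h2 (Off.mul H (All.inv H o1).off o2)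
    refine ⟨top n x * h, H.mul_mem o1.top hh, m, ?_, ?_⟩
    · convert hm using 2; ring
    · change top n y = _
      rw [top_mul, top_inv] at e
      have : top n y = top n x * ((top n x)⁻¹ * top n y) := by group
      rw [this, e]
      group

/-- The key property linking small elements `O` and the lattice `Γ` with the filtration. -/
def Key (M : ℕ → Subgroup α) (O Γ : Subgroup α) : Prop :=
  ∀ (p : ℕ) (x e d : α), e ∈ O → d ∈ Γ → x⁻¹ * e * x * d ∈ M p → e ∈ M p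

lemma mem_right_of_left {n : ℕ} (hc : HKClosed M n) {p : ℕ} {x e d : Cube α n}
    (hx : HK M n 0 x) (h : HK M n p (x⁻¹ * e * x * d)) (he : HK M n p e) : HK M n p d := by
  have e1 : d = (x⁻¹ * e * x)⁻¹ * (x⁻¹ * e * x * d) := by group
  rw [e1]
  exact hc.mul _ _ _ (hc.inv _ _ (hc.conj' hx he)) h

/-- Full cubes. -/
lemma full_cube (hM : Filt M) {O Γ : Subgroup α} (hK : Key M O Γ) (n : ℕ) {p : ℕ}
    {x e d : Cube α n} (hx : HK M n 0 x) (he : All (· ∈ O) n e) (hd : All (· ∈ Γ) n d)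
    (h : HK M n p (x⁻¹ * e * x * d)) : HK M n p e := by
  induction n generalizing p with
  | zero => exact hK p x e d he hd h
  | succ n ih =>
    have hc := hk_closed hM n
    obtain ⟨x0, x1⟩ := x
    obtain ⟨e0, e1⟩ := e
    obtain ⟨d0, d1⟩ := d
    obtain ⟨hx0, hx'⟩ := hx
    obtain ⟨he0, he1⟩ := he
    obtain ⟨hd0, hd1⟩ := hd
    obtain ⟨hz0, hz'⟩ := h
    simp only [Nat.zero_add] at *
    have E0 : HK M n p e0 := ih hx0 he0 hd0 hz0
    have D0 : HK M n p d0 := mem_right_of_left hc hx0 hz0 E0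
    have hx1 : HK M n 0 x1 := by
      have : x1 = x0 * (x0⁻¹ * x1) := by group
      rw [this]; exact hc.mul _ _ _ hx0 (hc.anti _ _ hx')
    have hz1 : HK M n p (x1⁻¹ * e1 * x1 * d1) := by
      have : x1⁻¹ * e1 * x1 * d1 = (x0⁻¹ * e0 * x0 * d0) *
          ((x0⁻¹ * e0 * x0 * d0)⁻¹ * (x1⁻¹ * e1 * x1 * d1)) := by group
      rw [this]; exact hc.mul _ _ _ hz0 (hc.anti _ _ hz')
    have E1 : HK M n p e1 := ih hx1 he1 hd1 hz1
    have D1 : HK M n p d1 := mem_right_of_left hc hx1 hz1 E1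
    refine ⟨E0, ?_⟩
    -- the twisted difference
    have key : HK M n (p + 1) (x0⁻¹ * (e0⁻¹ * e1) * x0 * (d1 * d0⁻¹)) := by
      have e2 : x0⁻¹ * (e0⁻¹ * e1) * x0 * (d1 * d0⁻¹)
          = (d0 * ((x0⁻¹ * e0 * x0 * d0)⁻¹ * (x1⁻¹ * e1 * x1 * d1)) * d0⁻¹) *
            ((d1 * d0⁻¹)⁻¹ * (⁅(x0⁻¹ * e1 * x0)⁻¹, (x0⁻¹ * x1)⁻¹⁆)⁻¹ * (d1 * d0⁻¹)) := by
        simp only [commutatorElement_def]; group
      rw [e2]
      refine hc.mul _ _ _ (hc.conj (hc.zero_of D0) hz') (hc.conj' ?_ (hc.inv _ _ ?_))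
      · exact hc.mul _ _ _ (hc.zero_of D1) (hc.inv _ _ (hc.zero_of D0))
      · exact hc.comm p 1 _ _ (hc.inv _ _ (hc.conj' hx0 E1)) (hc.inv _ _ hx')
    exact ih hx0 (All.mul O (All.inv O he0) he1) (All.mul Γ hd1 (All.inv Γ hd0)) key

/-- Membership in the cube group after changing the top vertex. -/
def HKoff (M : ℕ → Subgroup α) (n p : ℕ) (x : Cube α n) : Prop :=
  ∃ t, HK M n p t ∧ OffEq n x t

lemma HKoff.of {n p : ℕ} {x : Cube α n} (h : HK M n p x) : HKoff M n p x := ⟨x, h, OffEq.refl x⟩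

lemma HKoff.mul {n p : ℕ} (hc : HKClosed M n) {x y : Cube α n} (hx : HKoff M n p x)
    (hy : HKoff M n p y) : HKoff M n p (x * y) := by
  obtain ⟨s, hs, es⟩ := hx
  obtain ⟨t, ht, et⟩ := hy
  exact ⟨s * t, hc.mul _ _ _ hs ht, es.mul et⟩

lemma HKoff.inv {n p : ℕ} (hc : HKClosed M n) {x : Cube α n} (hx : HKoff M n p x) :
    HKoff M n p x⁻¹ := by
  obtain ⟨s, hs, es⟩ := hx
  exact ⟨s⁻¹, hc.inv _ _ hs, es.inv⟩

lemma HKoff.anti {n p : ℕ} (hc : HKClosed M n) {x : Cube α n} (hx : HKoff M n (p + 1) x) :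
    HKoff M n p x := by
  obtain ⟨s, hs, es⟩ := hx
  exact ⟨s, hc.anti _ _ hs, es⟩

lemma HKoff.zero_of {n p : ℕ} (hc : HKClosed M n) {x : Cube α n} (hx : HKoff M n p x) :
    HKoff M n 0 x := by
  obtain ⟨s, hs, es⟩ := hx
  exact ⟨s, hc.zero_of hs, es⟩

lemma HKoff.comm {n p q : ℕ} (hc : HKClosed M n) {x y : Cube α n} (hx : HKoff M n p x)
    (hy : HKoff M n q y) : HKoff M n (p + q) ⁅x, y⁆ := by
  obtain ⟨s, hs, es⟩ := hx
  obtain ⟨t, ht, et⟩ := hy
  exact ⟨⁅s, t⁆, hc.comm _ _ _ _ hs ht, es.comm et⟩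

lemma HKoff.conj {n p : ℕ} (hc : HKClosed M n) {g x : Cube α n} (hg : HKoff M n 0 g)
    (hx : HKoff M n p x) : HKoff M n p (g * x * g⁻¹) := by
  obtain ⟨s, hs, es⟩ := hg
  obtain ⟨t, ht, et⟩ := hx
  exact ⟨s * t * s⁻¹, hc.conj hs ht, (es.mul et).mul es.inv⟩

lemma HKoff.conj' {n p : ℕ} (hc : HKClosed M n) {g x : Cube α n} (hg : HKoff M n 0 g)
    (hx : HKoff M n p x) : HKoff M n p (g⁻¹ * x * g) := by
  obtain ⟨s, hs, es⟩ := hg
  obtain ⟨t, ht, et⟩ := hx
  exact ⟨s⁻¹ * t * s, hc.conj' hs ht, (es.inv.mul et).mul es⟩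

lemma hkoff_succ {n p : ℕ} {x : Cube α (n + 1)} :
    HKoff M (n + 1) p x ↔ HK M n p x.1 ∧ HKoff M n (p + 1) ((x.1)⁻¹ * x.2) := by
  constructor
  · rintro ⟨t, ⟨ht1, ht2⟩, e1, e2⟩
    refine ⟨e1 ▸ ht1, (t.1)⁻¹ * t.2, ht2, ?_⟩
    rw [e1]
    exact (OffEq.refl _).mul e2
  · rintro ⟨h1, t, ht, e⟩
    refine ⟨(x.1, x.1 * t), ⟨h1, ?_⟩, rfl, ?_⟩
    · change HK M n (p + 1) ((x.1)⁻¹ * (x.1 * t))
      rw [inv_mul_cancel_left]; exact ht
    · have := (OffEq.refl x.1).mul e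
      rw [mul_inv_cancel_left] at this
      exact this

lemma off_right_of_left {n : ℕ} (hc : HKClosed M n) {p : ℕ} {x e d : Cube α n}
    (hx : HK M n 0 x) (h : HKoff M n p (x⁻¹ * e * x * d)) (he : HKoff M n p e) :
    HKoff M n p d := by
  have e1 : d = (x⁻¹ * e * x)⁻¹ * (x⁻¹ * e * x * d) := by group
  rw [e1]
  exact HKoff.mul hc (HKoff.inv hc (HKoff.conj' hc (HKoff.of hx) he)) h

/-- Cubes without the top vertex. -/
lemma off_cube (hM : Filt M) {O Γ : Subgroup α} (hK : Key M O Γ) (n : ℕ) {p : ℕ}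
    {x e d : Cube α n} (hx : HK M n 0 x) (he : Off (· ∈ O) n e) (hd : Off (· ∈ Γ) n d)
    (h : HKoff M n p (x⁻¹ * e * x * d)) : HKoff M n p e := by
  induction n generalizing p with
  | zero => exact ⟨1, (M p).one_mem, trivial⟩
  | succ n ih =>
    have hc := hk_closed hM n
    rw [hkoff_succ] at h ⊢
    obtain ⟨x0, x1⟩ := x
    obtain ⟨e0, e1⟩ := e
    obtain ⟨d0, d1⟩ := d
    obtain ⟨hx0, hx'⟩ := hx
    obtain ⟨he0, he1⟩ := he
    obtain ⟨hd0, hd1⟩ := hd
    obtain ⟨hz0, hz'⟩ := h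
    simp only [Nat.zero_add] at *
    have E0 : HK M n p e0 := full_cube hM hK n hx0 he0 hd0 hz0
    have D0 : HK M n p d0 := mem_right_of_left hc hx0 hz0 E0
    have hx1 : HK M n 0 x1 := by
      have : x1 = x0 * (x0⁻¹ * x1) := by group
      rw [this]; exact hc.mul _ _ _ hx0 (hc.anti _ _ hx')
    have hz1 : HKoff M n p (x1⁻¹ * e1 * x1 * d1) := by
      have : x1⁻¹ * e1 * x1 * d1 = (x0⁻¹ * e0 * x0 * d0) *
          ((x0⁻¹ * e0 * x0 * d0)⁻¹ * (x1⁻¹ * e1 * x1 * d1)) := by group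
      rw [this]; exact HKoff.mul hc (HKoff.of hz0) (HKoff.anti hc hz')
    have E1 : HKoff M n p e1 := ih hx1 he1 hd1 hz1
    have D1 : HKoff M n p d1 := off_right_of_left hc hx1 hz1 E1
    refine ⟨E0, ?_⟩
    have key : HKoff M n (p + 1) (x0⁻¹ * (e0⁻¹ * e1) * x0 * (d1 * d0⁻¹)) := by
      have e2 : x0⁻¹ * (e0⁻¹ * e1) * x0 * (d1 * d0⁻¹)
          = (d0 * ((x0⁻¹ * e0 * x0 * d0)⁻¹ * (x1⁻¹ * e1 * x1 * d1)) * d0⁻¹) *
            ((d1 * d0⁻¹)⁻¹ * (⁅(x0⁻¹ * e1 * x0)⁻¹, (x0⁻¹ * x1)⁻¹⁆)⁻¹ * (d1 * d0⁻¹)) := by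
        simp only [commutatorElement_def]; group
      rw [e2]
      refine HKoff.mul hc (HKoff.conj hc (HKoff.of (hc.zero_of D0)) hz')
        (HKoff.conj' hc ?_ (HKoff.inv hc ?_))
      · exact HKoff.mul hc (HKoff.zero_of hc D1) (HKoff.inv hc (HKoff.of (hc.zero_of D0)))
      · exact HKoff.comm (p := p) (q := 1) hc
          (HKoff.inv hc (HKoff.conj' hc (HKoff.of hx0) E1)) (HKoff.inv hc (HKoff.of hx'))
    exact ih hx0 (Off.mul O (All.inv O he0).off he1) (Off.mul Γ hd1 (All.inv Γ hd0).off) key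

/-- **Unique completion.** If `x, y` are cubes with `x⁻¹ y` in the first shifted cube group and
`y` agrees with `e x d` off the top vertex, with `e` in `O` and `d` in `Γ`, then the top vertex of
`y` is of the form `h (top x) h' m` with `h ∈ O`, `h' ∈ Γ`, `m ∈ M (n+1)`. -/
theorem completion (hM : Filt M) {O Γ : Subgroup α} (hK : Key M O Γ) (n : ℕ)
    {x y e d : Cube α n} (hx : HK M n 0 x) (hxy : HK M n 1 (x⁻¹ * y))
    (he : Off (· ∈ O) n e) (hd : Off (· ∈ Γ) n d) (h : OffEq n y (e * x * d)) :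
    ∃ a ∈ O, ∃ b ∈ Γ, ∃ m ∈ M (1 + n), top n y = a * top n x * b * m := by
  have hc := hk_closed hM n
  have h1 : OffEq n (x⁻¹ * e * x * d) (x⁻¹ * y) := by
    have := ((OffEq.refl x⁻¹).mul h.symm)
    have e1 : x⁻¹ * (e * x * d) = x⁻¹ * e * x * d := by group
    rwa [e1] at this
  have h2 : HKoff M n 1 (x⁻¹ * e * x * d) := ⟨_, hxy, h1⟩
  obtain ⟨e', He', oe⟩ := off_cube hM hK n hx he hd h2
  obtain ⟨d', Hd', od⟩ := off_right_of_left hc hx h2 (off_cube hM hK n hx he hd h2)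
  obtain ⟨a, ha, m1, hm1, ea⟩ := top_of_off n O He' (oe.off he)
  obtain ⟨b, hb, m2, hm2, eb⟩ := top_of_off n Γ Hd' (od.off hd)
  have h3 : HK M n 1 ((x⁻¹ * e' * x * d')⁻¹ * (x⁻¹ * y)) := by
    refine hc.mul _ _ _ (hc.inv _ _ (hc.mul _ _ _ (hc.conj' hx He') Hd')) hxy
  have h4 : Off (· ∈ (⊥ : Subgroup α)) n ((x⁻¹ * e' * x * d')⁻¹ * (x⁻¹ * y)) := by
    have h5 : OffEq n (x⁻¹ * e' * x * d') (x⁻¹ * y) :=
      (((((OffEq.refl x⁻¹).mul oe).mul (OffEq.refl x)).mul od).symm).trans h1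
    have h6 : OffEq n ((x⁻¹ * y)⁻¹ * (x⁻¹ * y)) ((x⁻¹ * e' * x * d')⁻¹ * (x⁻¹ * y)) :=
      h5.symm.inv.mul (OffEq.refl _)
    rw [inv_mul_cancel] at h6
    refine h6.off ?_
    have : ∀ n, All (· ∈ (⊥ : Subgroup α)) n (1 : Cube α n) := by
      intro n
      induction n with
      | zero => exact Subgroup.one_mem _
      | succ n ih => exact ⟨ih, ih⟩
    exact (this n).off
  obtain ⟨t, ht, m3, hm3, e3⟩ := top_of_off n ⊥ h3 h4
  rw [Subgroup.mem_bot] at ht
  subst ht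
  rw [one_mul] at e3
  simp only [top_mul, top_inv, ea, eb] at e3
  -- normality of `M (1 + n)`
  have hN : ∀ g m, m ∈ M (1 + n) → g * m * g⁻¹ ∈ M (1 + n) := by
    intro g m hm
    have e4 : g * m * g⁻¹ = ⁅g, m⁆ * m := by rw [commutatorElement_def]; group
    rw [e4]
    have := hM.comm 0 (1 + n) g m (by rw [hM.zero]; trivial) hm
    rw [Nat.zero_add] at this
    exact mul_mem this hm
  have e5 : top n y = a * top n x * b *
      (((top n x * b)⁻¹ * m1 * ((top n x * b)⁻¹)⁻¹) * m2 * m3) := by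
    have e6 : top n y = top n x * ((top n x)⁻¹ * (a * m1) * top n x * (b * m2)) *
      (((top n x)⁻¹ * (a * m1) * top n x * (b * m2))⁻¹ * ((top n x)⁻¹ * top n y)) := by group
    rw [e3] at e6
    rw [e6]
    group
  exact ⟨a, ha, b, hb, _, mul_mem (mul_mem (hN _ _ hm1) hm2) hm3, e5⟩

end cube

end Pool.Agent.Lib.MP_1b26ca_an
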