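import Mathlib

/-!
# Commutator calculus along the upper central series
-/

set_option autoImplicit false

namespace Pool.Agent.Lib.MP_1b26ca_an

open Subgroup
open scoped commutatorElement

section comm

variable {G : Type*} [Group G]

/-- The upper central series. -/
abbrev Z (G : Type*) [Group G] (i : ℕ) : Subgroup G := Subgroup.upperCentralSeries G i

lemma Z_mono {i j : ℕ} (h : i ≤ j) : Z G i ≤ Z G j := Subgroup.upperCentralSeries_mono G h

lemma Z_zero : Z G 0 = ⊥ := rfl

lemma comm_mem_Z' {i : ℕ} {x : G} (hx : x ∈ Z G (i + 1)) (a : G) : ⁅x, a⁆ ∈ Z G i := by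
  exact (Subgroup.mem_upperCentralSeries_succ_iff).1 hx a

lemma comm_mem_Z {i : ℕ} {x : G} (hx : x ∈ Z G (i + 1)) (a : G) : ⁅a, x⁆ ∈ Z G i := by
  rw [← commutatorElement_inv]
  exact inv_mem (comm_mem_Z' hx a)

lemma mem_Z_succ_of_comm {i : ℕ} {x : G} (h : ∀ a : G, ⁅a, x⁆ ∈ Z G i) : x ∈ Z G (i + 1) := by
  rw [Subgroup.mem_upperCentralSeries_succ_iff]
  intro a
  rw [← commutatorElement_inv]
  exact inv_mem (h a)

lemma comm_mem_Z_pred {i : ℕ} {x : G} (hx : x ∈ Z G i) (a : G) : ⁅a, x⁆ ∈ Z G (i - 1) := by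
  cases i with
  | zero =>
    have : x = 1 := by simpa [Z_zero] using hx
    subst this
    simp
  | succ i => exact comm_mem_Z hx a

lemma comm_mem_Z_pred' {i : ℕ} {x : G} (hx : x ∈ Z G i) (a : G) : ⁅x, a⁆ ∈ Z G (i - 1) := by
  rw [← commutatorElement_inv]
  exact inv_mem (comm_mem_Z_pred hx a)

/-- Congruence modulo `Z i`. -/
def Cong (i : ℕ) (x y : G) : Prop := x⁻¹ * y ∈ Z G i

lemma Cong.refl (i : ℕ) (x : G) : Cong i x x := by
  unfold Cong; simp

lemma Cong.symm {i : ℕ} {x y : G} (h : Cong i x y) : Cong i y x := by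
  unfold Cong at *
  have := inv_mem h
  simpa using this

lemma Cong.trans {i : ℕ} {x y z : G} (h : Cong i x y) (h' : Cong i y z) : Cong i x z := by
  unfold Cong at *
  have := mul_mem h h'
  simpa [mul_assoc] using this

lemma Cong.mono {i j : ℕ} (hij : i ≤ j) {x y : G} (h : Cong i x y) : Cong j x y :=
  Z_mono hij h

lemma cong_iff {i : ℕ} {x y : G} : Cong i x y ↔ (x : G ⧸ Z G i) = y := by
  rw [QuotientGroup.eq]; rfl

lemma Cong.mul {i : ℕ} {x y x' y' : G} (h : Cong i x y) (h' : Cong i x' y') :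
    Cong i (x * x') (y * y') := by
  rw [cong_iff] at *
  rw [QuotientGroup.mk_mul, QuotientGroup.mk_mul, h, h']

lemma Cong.inv {i : ℕ} {x y : G} (h : Cong i x y) : Cong i x⁻¹ y⁻¹ := by
  rw [cong_iff] at *
  rw [QuotientGroup.mk_inv, QuotientGroup.mk_inv, h]

lemma Cong.mem {i : ℕ} {x y : G} (h : Cong i x y) (hx : x ∈ Z G i) : y ∈ Z G i := by
  unfold Cong at h
  have := mul_mem hx h
  simpa using this

lemma cong_one {i : ℕ} {x : G} (hx : x ∈ Z G i) : Cong i 1 x := by
  unfold Cong; simpa using hx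

lemma cong_comm {i : ℕ} {x : G} (hx : x ∈ Z G (i + 1)) (a : G) : Cong i (a * x) (x * a) := by
  have h := comm_mem_Z' (inv_mem hx) a⁻¹
  unfold Cong
  have e : (a * x)⁻¹ * (x * a) = ⁅x⁻¹, a⁻¹⁆ := by
    rw [commutatorElement_def]; group
  rw [e]; exact h

lemma cong_conj {i : ℕ} {x : G} (hx : x ∈ Z G (i + 1)) (a : G) : Cong i (a * x * a⁻¹) x := by
  have h := (cong_comm hx a).mul (Cong.refl i a⁻¹)
  simpa using h

lemma cong_comm_right (a : G) {i : ℕ} {x y : G} (h : Cong i x y) : Cong (i - 1) ⁅a, x⁆ ⁅a, y⁆ := by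
  unfold Cong at *
  have e : (⁅a, x⁆)⁻¹ * ⁅a, y⁆ = x * ⁅a, x⁻¹ * y⁆ * x⁻¹ := by
    rw [commutatorElement_def, commutatorElement_def, commutatorElement_def]; group
  rw [e]
  exact (inferInstance : (Z G (i - 1)).Normal).conj_mem _ (comm_mem_Z_pred h a) x

/-- Iterated commutators `[a₁, [a₂, …, [a_m, x]]]`. -/
def itc : List G → G → G
  | [], x => x
  | a :: l, x => ⁅a, itc l x⁆

lemma itc_mem (l : List G) {j : ℕ} {x : G} (hx : x ∈ Z G j) : itc l x ∈ Z G (j - l.length) := by
  induction l with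
  | nil => simpa [itc] using hx
  | cons a l ih =>
    have := comm_mem_Z_pred ih a
    rw [Nat.sub_sub] at this
    exact this

lemma itc_cong (l : List G) {i : ℕ} {x y : G} (h : Cong i x y) :
    Cong (i - l.length) (itc l x) (itc l y) := by
  induction l with
  | nil => simpa [itc] using h
  | cons a l ih =>
    have := cong_comm_right a ih
    rw [Nat.sub_sub] at this
    exact this

lemma itc_mul (l : List G) {j : ℕ} {x y : G} (hx : x ∈ Z G (j + 1 + l.length))
    (hy : y ∈ Z G (j + 1 + l.length)) : Cong j (itc l x * itc l y) (itc l (x * y)) := by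
  induction l generalizing j with
  | nil => exact Cong.refl _ _
  | cons a l ih =>
    simp only [List.length_cons] at hx hy
    have hx' : x ∈ Z G ((j + 1) + 1 + l.length) := by
      convert hx using 2; ring
    have hy' : y ∈ Z G ((j + 1) + 1 + l.length) := by
      convert hy using 2; ring
    have h := cong_comm_right a (ih hx' hy')
    simp only [Nat.add_sub_cancel] at h
    refine Cong.trans ?_ h
    have hy2 : itc l y ∈ Z G (j + 1 + 1) := by
      have := itc_mem l hy'
      simpa using this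
    have e : ⁅a, itc l x * itc l y⁆ = ⁅a, itc l x⁆ * (itc l x * ⁅a, itc l y⁆ * (itc l x)⁻¹) := by
      simp only [commutatorElement_def]; group
    rw [e]
    change Cong j (⁅a, itc l x⁆ * ⁅a, itc l y⁆) _
    exact (Cong.refl j _).mul (cong_conj (comm_mem_Z hy2 a) _).symm

lemma mem_Z_succ_of_closure {D : Set G} (hD : Subgroup.closure D = ⊤) {i : ℕ} {y : G}
    (h : ∀ a ∈ D, ⁅a, y⁆ ∈ Z G i) : y ∈ Z G (i + 1) := by
  apply mem_Z_succ_of_comm
  intro a
  have ha : a ∈ Subgroup.closure D := by rw [hD]; trivial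
  induction ha using Subgroup.closure_induction with
  | mem x hx => exact h x hx
  | one => simp
  | mul x z _ _ hx hz =>
    have e : ⁅x * z, y⁆ = (x * ⁅z, y⁆ * x⁻¹) * ⁅x, y⁆ := by
      simp only [commutatorElement_def]; group
    rw [e]
    exact mul_mem ((inferInstance : (Z G i).Normal).conj_mem _ hz x) hx
  | inv x _ hx =>
    have e : ⁅x⁻¹, y⁆ = x⁻¹ * (⁅x, y⁆)⁻¹ * x⁻¹⁻¹ := by
      simp only [commutatorElement_def]; group
    rw [e]
    exact (inferInstance : (Z G i).Normal).conj_mem _ (inv_mem hx) x⁻¹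

/-- If all iterated commutators with entries in a generating set are in `Z i`, then the element
is in `Z (i + m)`. -/
lemma mem_Z_of_itc {D : Set G} (hD : Subgroup.closure D = ⊤) (m : ℕ) {i : ℕ} {h : G}
    (H : ∀ l : List G, l.length = m → (∀ a ∈ l, a ∈ D) → itc l h ∈ Z G i) : h ∈ Z G (i + m) := by
  induction m generalizing i with
  | zero => simpa [itc] using H [] rfl (by simp)
  | succ m ih =>
    have := ih (i := i + 1) (fun l hl hlD => mem_Z_succ_of_closure hD fun a ha =>
      H (a :: l) (by simp [hl]) (by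
        intro b hb
        rcases List.mem_cons.1 hb with rfl | hb
        · exact ha
        · exact hlD b hb))
    convert this using 2
    ring

end comm

end Pool.Agent.Lib.MP_1b26ca_an
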