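import Mathlib

/-!
# Subgroups of finitely generated nilpotent groups are finitely generated
-/

set_option autoImplicit false

namespace Pool.Agent.Lib.MP_1b26ca_an

open Subgroup
open scoped commutatorElement

universe u

lemma fg_of_comm {A : Type u} [CommGroup A] [Group.FG A] (H : Subgroup A) : H.FG := by
  rw [Subgroup.fg_iff_add_fg]
  have h : IsNoetherian ℤ (Additive A) := by infer_instance
  have := (isNoetherian_def.1 h) (AddSubgroup.toIntSubmodule (Subgroup.toAddSubgroup H))
  rw [Submodule.fg_iff_addSubgroup_fg] at this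
  simpa using this

lemma fg_of_ext {G : Type u} [Group G] (N : Subgroup G) [N.Normal]
    (h1 : ∀ H : Subgroup G, H ≤ N → H.FG) (h2 : ∀ H : Subgroup (G ⧸ N), H.FG)
    (H : Subgroup G) : H.FG := by
  classical
  obtain ⟨S, hS, hSfin⟩ := (Subgroup.fg_iff _).1 (h2 (H.map (QuotientGroup.mk' N)))
  have hlift : ∀ s : G ⧸ N, ∃ g : G, s ∈ S → g ∈ H ∧ QuotientGroup.mk' N g = s := by
    intro s
    by_cases hs : s ∈ S
    · have : s ∈ H.map (QuotientGroup.mk' N) := by rw [← hS]; exact Subgroup.subset_closure hs
      obtain ⟨g, hg, rfl⟩ := this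
      exact ⟨g, fun _ => ⟨hg, rfl⟩⟩
    · exact ⟨1, fun h => absurd h hs⟩
  choose f hf using hlift
  have hT : (Subgroup.closure (f '' S)).FG :=
    (Subgroup.fg_iff _).2 ⟨f '' S, rfl, hSfin.image f⟩
  have hHN : (H ⊓ N).FG := h1 _ inf_le_right
  have e : H = Subgroup.closure (f '' S) ⊔ (H ⊓ N) := by
    apply le_antisymm
    · intro h hh
      have h3 : QuotientGroup.mk' N h ∈ (Subgroup.closure (f '' S)).map (QuotientGroup.mk' N) := by
        rw [MonoidHom.map_closure]
        have h4 : (QuotientGroup.mk' N) '' (f '' S) = S := by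
          rw [Set.image_image]
          ext s
          constructor
          · rintro ⟨t, ht, rfl⟩
            change (QuotientGroup.mk' N) (f t) ∈ S
            rwa [(hf t ht).2]
          · intro hs
            exact ⟨s, hs, (hf s hs).2⟩
        rw [h4, hS]
        exact Subgroup.mem_map_of_mem _ hh
      obtain ⟨g, hg, hgh⟩ := h3
      have hgH : g ∈ H := by
        have : Subgroup.closure (f '' S) ≤ H := by
          rw [Subgroup.closure_le]
          rintro _ ⟨s, hs, rfl⟩
          exact (hf s hs).1
        exact this hg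
      have h5 : g⁻¹ * h ∈ N := by
        rw [← QuotientGroup.eq]
        exact hgh
      have h6 : h = g * (g⁻¹ * h) := by group
      rw [h6]
      exact mul_mem (Subgroup.mem_sup_left hg)
        (Subgroup.mem_sup_right ⟨H.mul_mem (H.inv_mem hgH) hh, h5⟩)
    · apply sup_le
      · rw [Subgroup.closure_le]
        rintro _ ⟨s, hs, rfl⟩
        exact (hf s hs).1
      · exact inf_le_left
  rw [e]
  exact hT.sup hHN

/-- If `A = ⁅B, ⊤⁆` is central, `B` is finitely generated modulo `A` and `G` is finitely
generated then `A` is finitely generated. -/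
lemma fg_of_central {G : Type u} [Group G] (B A : Subgroup G) (hA : A = ⁅B, (⊤ : Subgroup G)⁆)
    (hAc : ∀ a ∈ A, ∀ g : G, g * a = a * g) (hAB : A ≤ B) {X S : Set G} (hX : X.Finite)
    (hXB : X ⊆ B) (hS : S.Finite)
    (hBX : B ≤ Subgroup.closure X ⊔ A) (hSt : Subgroup.closure S = ⊤) : A.FG := by
  set K : Subgroup G := Subgroup.closure ((fun p : G × G => ⁅p.1, p.2⁆) '' (X ×ˢ S)) with hK
  have hmem : ∀ b ∈ B, ∀ g : G, ⁅b, g⁆ ∈ A := by
    intro b hb g
    rw [hA]
    exact Subgroup.commutator_mem_commutator hb (Subgroup.mem_top g)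
  have step1 : ∀ x ∈ X, ∀ g : G, ⁅x, g⁆ ∈ K := by
    intro x hx g
    have hg : g ∈ Subgroup.closure S := by rw [hSt]; trivial
    induction hg using Subgroup.closure_induction with
    | mem s hs => exact Subgroup.subset_closure ⟨(x, s), ⟨hx, hs⟩, rfl⟩
    | one => simp
    | mul a b _ _ ha hb =>
      have e : ⁅x, a * b⁆ = ⁅x, a⁆ * (a * ⁅x, b⁆ * a⁻¹) := by
        simp only [commutatorElement_def]; group
      rw [e, hAc _ (hmem x (hXB hx) b) a]
      simpa using mul_mem ha hb
    | inv a _ ha =>
      have e : ⁅x, a⁻¹⁆ = a⁻¹ * (⁅x, a⁆)⁻¹ * a⁻¹⁻¹ := by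
        simp only [commutatorElement_def]; group
      rw [e, hAc _ (A.inv_mem (hmem x (hXB hx) a)) a⁻¹, mul_inv_cancel_right]
      exact K.inv_mem ha
  have step2 : ∀ b ∈ B, ∀ g : G, ⁅b, g⁆ ∈ K := by
    intro b hb g
    -- the subgroup of all `b ∈ B` with `⁅b, g⁆ ∈ K`
    let T : Subgroup G :=
      { carrier := {b | b ∈ B ∧ ⁅b, g⁆ ∈ K}
        one_mem' := ⟨B.one_mem, by simp⟩
        mul_mem' := by
          rintro x y ⟨hx, hxK⟩ ⟨hy, hyK⟩
          refine ⟨B.mul_mem hx hy, ?_⟩
          have e : ⁅x * y, g⁆ = (x * ⁅y, g⁆ * x⁻¹) * ⁅x, g⁆ := by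
            simp only [commutatorElement_def]; group
          rw [e, hAc _ (hmem y hy g) x]
          simpa using mul_mem hyK hxK
        inv_mem' := by
          rintro x ⟨hx, hxK⟩
          refine ⟨B.inv_mem hx, ?_⟩
          have e : ⁅x⁻¹, g⁆ = x⁻¹ * (⁅x, g⁆)⁻¹ * x⁻¹⁻¹ := by
            simp only [commutatorElement_def]; group
          rw [e, hAc _ (A.inv_mem (hmem x hx g)) x⁻¹, mul_inv_cancel_right]
          exact K.inv_mem hxK }
    have h1 : Subgroup.closure X ⊔ A ≤ T := by
      apply sup_le
      · rw [Subgroup.closure_le]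
        intro x hx
        exact ⟨hXB hx, step1 x hx g⟩
      · intro a ha
        refine ⟨hAB ha, ?_⟩
        have : ⁅a, g⁆ = 1 := by
          rw [commutatorElement_def, ← hAc a ha g]; group
        rw [this]; exact K.one_mem
    exact (h1 (hBX hb)).2
  have e : A = K := by
    apply le_antisymm
    · rw [hA, Subgroup.commutator_le]
      intro b hb g _
      exact step2 b hb g
    · rw [hK, Subgroup.closure_le]
      rintro _ ⟨⟨x, s⟩, ⟨hx, _⟩, rfl⟩
      exact hmem x (hXB hx) s
  rw [e]
  exact (Subgroup.fg_iff _).2 ⟨_, rfl, (hX.prod hS).image _⟩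

lemma fg_of_lcs (c : ℕ) : ∀ (G : Type u) [Group G] [Group.FG G],
    (⊤ : Subgroup G).lowerCentralSeries c = ⊥ → ∀ H : Subgroup G, H.FG := by
  induction c with
  | zero =>
    intro G _ _ h H
    have : H = ⊥ := by
      rw [eq_bot_iff, ← h]
      exact le_top
    rw [this]; exact Subgroup.FG.bot
  | succ c ih =>
    intro G _ hG h
    set A : Subgroup G := (⊤ : Subgroup G).lowerCentralSeries c with hAdef
    have hcomm : ⁅A, (⊤ : Subgroup G)⁆ = ⊥ := by rw [← h]; rfl
    have hAc : ∀ a ∈ A, ∀ g : G, g * a = a * g := by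
      intro a ha g
      have h1 : ⁅a, g⁆ ∈ ⁅A, (⊤ : Subgroup G)⁆ :=
        Subgroup.commutator_mem_commutator ha (Subgroup.mem_top g)
      rw [hcomm, Subgroup.mem_bot, commutatorElement_eq_one_iff_mul_comm] at h1
      exact h1.symm
    have : A.Normal := by rw [hAdef]; infer_instance
    have hQ : ∀ H : Subgroup (G ⧸ A), H.FG := by
      apply ih
      have h1 := Subgroup.map_lowerCentralSeries (⊤ : Subgroup G) (QuotientGroup.mk' A) c
      rw [Subgroup.map_top_of_surjective _ (QuotientGroup.mk'_surjective A)] at h1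
      rw [← h1, ← hAdef]
      exact QuotientGroup.map_mk'_self A
    have hAfg : A.FG := by
      obtain ⟨S, hS, hSfin⟩ := (Group.fg_iff).1 hG
      cases c with
      | zero =>
        have : A = ⊤ := rfl
        rw [this]
        exact (Subgroup.fg_iff _).2 ⟨S, hS, hSfin⟩
      | succ c =>
        set B : Subgroup G := (⊤ : Subgroup G).lowerCentralSeries c with hB
        have hAB' : A = ⁅B, (⊤ : Subgroup G)⁆ := rfl
        have hAB : A ≤ B := Subgroup.lowerCentralSeries_antitone (⊤ : Subgroup G) (Nat.le_succ c)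
        obtain ⟨Y, hY, hYfin⟩ := (Subgroup.fg_iff _).1 (hQ (B.map (QuotientGroup.mk' A)))
        have hlift : ∀ s : G ⧸ A, ∃ g : G, s ∈ Y → g ∈ B ∧ QuotientGroup.mk' A g = s := by
          intro s
          by_cases hs : s ∈ Y
          · have : s ∈ B.map (QuotientGroup.mk' A) := by
              rw [← hY]; exact Subgroup.subset_closure hs
            obtain ⟨g, hg, rfl⟩ := this
            exact ⟨g, fun _ => ⟨hg, rfl⟩⟩
          · exact ⟨1, fun h => absurd h hs⟩
        choose f hf using hlift
        refine fg_of_central B A hAB' hAc hAB (X := f '' Y) (S := S) (hYfin.image f) ?_ hSfin ?_ hS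
        · rintro _ ⟨s, hs, rfl⟩
          exact (hf s hs).1
        · intro b hb
          have h3 : QuotientGroup.mk' A b ∈ (Subgroup.closure (f '' Y)).map (QuotientGroup.mk' A) := by
            rw [MonoidHom.map_closure]
            have h4 : (QuotientGroup.mk' A) '' (f '' Y) = Y := by
              rw [Set.image_image]
              ext s
              constructor
              · rintro ⟨t, ht, rfl⟩
                change (QuotientGroup.mk' A) (f t) ∈ Y
                rwa [(hf t ht).2]
              · intro hs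
                exact ⟨s, hs, (hf s hs).2⟩
            rw [h4, hY]
            exact Subgroup.mem_map_of_mem _ hb
          obtain ⟨g, hg, hgh⟩ := h3
          have h5 : g⁻¹ * b ∈ A := by
            rw [← QuotientGroup.eq]
            exact hgh
          have h6 : b = g * (g⁻¹ * b) := by group
          rw [h6]
          exact mul_mem (Subgroup.mem_sup_left hg) (Subgroup.mem_sup_right h5)
    apply fg_of_ext A _ hQ
    intro H hH
    -- `A` is commutative
    let : CommGroup A :=
      { (inferInstance : Group A) with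
        mul_comm := fun a b => Subtype.ext (hAc b b.2 a) }
    have : Group.FG A := (Group.fg_iff_subgroup_fg A).2 hAfg
    have h1 : (H.subgroupOf A).FG := fg_of_comm (H.subgroupOf A)
    have h2 : H = (H.subgroupOf A).map A.subtype := by
      rw [Subgroup.subgroupOf_map_subtype, inf_eq_left.2 hH]
    obtain ⟨T, hT, hTfin⟩ := (Subgroup.fg_iff _).1 h1
    rw [h2, ← hT, MonoidHom.map_closure]
    exact (Subgroup.fg_iff _).2 ⟨_, rfl, hTfin.image _⟩

end Pool.Agent.Lib.MP_1b26ca_an
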