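import Mathlib
import Pool.Agent.Lib.MP_1b26ca_an.Comm
import Pool.Agent.Lib.MP_1b26ca_an.Noeth

/-!
# Rigidity in nilpotent groups with a cocompact discrete subgroup

Standing assumptions: `G` is a nilpotent topological group without small subgroups, `Γ` is a
finitely generated discrete subgroup and `G = C Γ` with `C` compact.
-/

set_option autoImplicit false
set_option linter.unusedSectionVars false

namespace Pool.Agent.Lib.MP_1b26ca_an

open Subgroup Topology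
open scoped commutatorElement

/-- Standing assumptions. -/
structure Setup (G : Type*) [Group G] [TopologicalSpace G] (Γ : Subgroup G) (C S : Set G)
    (k : ℕ) : Prop where
  compact : IsCompact C
  fin : S.Finite
  gen : Subgroup.closure S = Γ
  cover : ∀ g : G, ∃ c ∈ C, ∃ γ ∈ Γ, g = c * γ
  nss : ∃ V ∈ 𝓝 (1 : G), ∀ H : Subgroup G, (H : Set G) ⊆ V → H = ⊥
  disc : ∃ V ∈ 𝓝 (1 : G), ∀ γ ∈ Γ, γ ∈ V → γ = 1
  nil : Z G k = ⊤

section tube

variable {G : Type*} [Group G] [TopologicalSpace G] [IsTopologicalGroup G]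

lemma continuous_comm : Continuous (fun p : G × G => ⁅p.1, p.2⁆) := by
  simp only [commutatorElement_def]; fun_prop

lemma tube {K : Set G} (hK : IsCompact K) {f : G × G → G} (hf : Continuous f)
    (h1 : ∀ a, f (a, 1) = 1) {V : Set G} (hV : V ∈ 𝓝 (1 : G)) :
    ∃ U ∈ 𝓝 (1 : G), ∀ a ∈ K, ∀ w ∈ U, f (a, w) ∈ V := by
  have hopen : IsOpen (f ⁻¹' (interior V)) := isOpen_interior.preimage hf
  have hsub : K ×ˢ ({1} : Set G) ⊆ f ⁻¹' (interior V) := by
    rintro ⟨a, w⟩ ⟨_, hw⟩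
    rw [Set.mem_singleton_iff] at hw
    dsimp only at hw
    subst hw
    rw [Set.mem_preimage, h1]
    exact mem_interior_iff_mem_nhds.2 hV
  obtain ⟨u, v, _, hv, hu', hv', huv⟩ := generalized_tube_lemma hK isCompact_singleton hopen hsub
  refine ⟨v, hv.mem_nhds (hv' rfl), fun a ha w hw => ?_⟩
  exact interior_subset (huv (Set.mk_mem_prod (hu' ha) hw))

lemma tube_comm {K : Set G} (hK : IsCompact K) {V : Set G} (hV : V ∈ 𝓝 (1 : G)) :
    ∃ U ∈ 𝓝 (1 : G), ∀ a ∈ K, ∀ w ∈ U, ⁅a, w⁆ ∈ V :=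
  tube hK continuous_comm (by simp) hV

lemma tube_itc {K : Set G} (hK : IsCompact K) (m : ℕ) {V : Set G} (hV : V ∈ 𝓝 (1 : G)) :
    ∃ U ∈ 𝓝 (1 : G), ∀ w ∈ U, ∀ l : List G, l.length ≤ m → (∀ a ∈ l, a ∈ K) → itc l w ∈ V := by
  induction m generalizing V with
  | zero =>
    refine ⟨V, hV, fun w hw l hl _ => ?_⟩
    have : l = [] := List.length_eq_zero_iff.1 (Nat.le_zero.1 hl)
    subst this
    exact hw
  | succ m ih =>
    obtain ⟨W, hW, h1⟩ := tube_comm hK hV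
    obtain ⟨U, hU, h2⟩ := ih hW
    refine ⟨U ∩ V, Filter.inter_mem hU hV, fun w hw l hl hlK => ?_⟩
    cases l with
    | nil => exact hw.2
    | cons a l =>
      exact h1 a (hlK a (by simp)) _ (h2 w hw.1 l (by simpa using hl)
        (fun b hb => hlK b (by simp [hb])))

end tube

section setup

variable {G : Type*} [Group G] [TopologicalSpace G] [IsTopologicalGroup G]
  {Γ : Subgroup G} {C S : Set G} {k : ℕ}

lemma Setup.Z_top (h : Setup G Γ C S k) {i : ℕ} (hi : k ≤ i) : Z G i = ⊤ := by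
  rw [eq_top_iff, ← h.nil]
  exact Z_mono hi

lemma Setup.closure_D (h : Setup G Γ C S k) : Subgroup.closure (C ∪ S) = ⊤ := by
  rw [eq_top_iff]
  intro g _
  obtain ⟨c, hc, γ, hγ, rfl⟩ := h.cover g
  refine mul_mem (Subgroup.subset_closure (Or.inl hc)) ?_
  rw [← h.gen] at hγ
  exact Subgroup.closure_mono Set.subset_union_right hγ

lemma Setup.compact_D (h : Setup G Γ C S k) : IsCompact (C ∪ S) :=
  h.compact.union h.fin.isCompact

/-- no small subgroups modulo `Z i` -/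
def NSSmod (G : Type*) [Group G] [TopologicalSpace G] (i : ℕ) : Prop :=
  ∃ V ∈ 𝓝 (1 : G), ∀ H : Subgroup G, (∀ h ∈ H, ∃ v ∈ V, ∃ z ∈ Z G i, h = v * z) → H ≤ Z G i

lemma Setup.nss_mod (h : Setup G Γ C S k) (i : ℕ) : NSSmod G i := by
  induction i with
  | zero =>
    obtain ⟨V, hV, h1⟩ := h.nss
    refine ⟨V, hV, fun H hH => ?_⟩
    rw [h1 H]
    · exact bot_le
    · intro x hx
      obtain ⟨v, hv, z, hz, rfl⟩ := hH x hx
      have : z = 1 := by simpa [Z_zero] using hz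
      subst this
      simpa using hv
  | succ i ih =>
    obtain ⟨V, hV, h1⟩ := ih
    obtain ⟨U, hU, h2⟩ := tube_itc h.compact_D (k + 1) hV
    refine ⟨U, hU, fun H hH => ?_⟩
    by_contra hcon
    have hex : ∃ m, H ≤ Z G (i + 1 + m) := ⟨k, by rw [h.Z_top (by omega)]; exact le_top⟩
    classical
    obtain ⟨m, hm, hmin⟩ : ∃ m, H ≤ Z G (i + 1 + m) ∧ ∀ m' < m, ¬ H ≤ Z G (i + 1 + m') :=
      ⟨Nat.find hex, Nat.find_spec hex, fun m' hm' => Nat.find_min hex hm'⟩
    cases m with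
    | zero => exact hcon (by simpa using hm)
    | succ m =>
      have hmk : m ≤ k := by
        by_contra hmk
        push Not at hmk
        exact hmin m (by omega) (by rw [h.Z_top (by omega)]; exact le_top)
      apply hmin m (Nat.lt_succ_self m)
      intro x hx
      have key : ∀ l : List G, l.length = m + 1 → (∀ a ∈ l, a ∈ C ∪ S) → itc l x ∈ Z G i := by
        intro l hl hlD
        -- the homomorphism
        let f : H →* G ⧸ Z G i := MonoidHom.mk' (fun y => ((itc l (y : G) : G) : G ⧸ Z G i)) (by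
          intro y z
          have := itc_mul l (j := i) (x := (y : G)) (y := (z : G))
            (by rw [hl]; exact hm y.2) (by rw [hl]; exact hm z.2)
          rw [cong_iff] at this
          rw [← QuotientGroup.mk_mul]
          exact this.symm)
        let H' : Subgroup G := f.range.comap (QuotientGroup.mk' (Z G i))
        have hH' : H' ≤ Z G i := by
          apply h1
          rintro y ⟨z, hz⟩
          obtain ⟨v, hv, w, hw, hvw⟩ := hH z z.2
          have c1 : Cong (i + 1) v (z : G) := by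
            unfold Cong
            rw [hvw]
            simpa using hw
          have c2 := itc_cong l c1
          have c3 : Cong i (itc l v) (itc l (z : G)) := c2.mono (by rw [hl]; omega)
          have c4 : ((itc l v : G) : G ⧸ Z G i) = y := by
            rw [cong_iff] at c3
            rw [c3]
            exact hz
          rw [QuotientGroup.eq] at c4
          exact ⟨itc l v, h2 v hv l (by omega) hlD, _, c4, by group⟩
        have : itc l x ∈ H' := ⟨⟨x, hx⟩, rfl⟩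
        exact hH' this
      have := mem_Z_of_itc h.closure_D (m + 1) key
      convert this using 2
      ring

/-- Rigidity: an element close to `1` which commutes modulo `Z j` with a lattice of `T`, commutes
with all of `T` modulo `Z j`. -/
lemma Setup.rigid (h : Setup G Γ C S k) (T : Subgroup G) {CT : Set G} (hCT : IsCompact CT)
    (hCTT : CT ⊆ T) (P : Subgroup G) (hcov : ∀ a ∈ T, ∃ c ∈ CT, ∃ d ∈ P, a = c * d)
    (j : ℕ) :
    ∃ U ∈ 𝓝 (1 : G), ∀ p ∈ U, (∀ d ∈ P, ⁅d, p⁆ ∈ Z G j) → ∀ a ∈ T, ⁅a, p⁆ ∈ Z G j := by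
  obtain ⟨V, hV, h1⟩ := h.nss_mod j
  obtain ⟨W, hW, h2⟩ := tube_itc h.compact_D (k + 1) hV
  obtain ⟨U, hU, h3⟩ := tube_comm hCT hW
  refine ⟨U, hU, fun p hp hd => ?_⟩
  by_contra hcon
  have hex : ∃ m, ∀ a ∈ T, ⁅a, p⁆ ∈ Z G (j + m) :=
    ⟨k, fun a _ => by rw [h.Z_top (by omega)]; trivial⟩
  classical
  obtain ⟨m, hm, hmin⟩ : ∃ m, (∀ a ∈ T, ⁅a, p⁆ ∈ Z G (j + m)) ∧
      ∀ m' < m, ¬ (∀ a ∈ T, ⁅a, p⁆ ∈ Z G (j + m')) :=
    ⟨Nat.find hex, Nat.find_spec hex, fun m' hm' => Nat.find_min hex hm'⟩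
  cases m with
  | zero => exact hcon (by simpa using hm)
  | succ m =>
    have hmk : m ≤ k := by
      by_contra hmk
      push Not at hmk
      exact hmin m (by omega) (fun a _ => by rw [h.Z_top (by omega)]; trivial)
    apply hmin m (Nat.lt_succ_self m)
    intro a ha
    refine mem_Z_of_itc h.closure_D m ?_
    intro l hl hlD
    have hm' : ∀ a ∈ T, ⁅a, p⁆ ∈ Z G (j + 1 + l.length) := by
      intro a ha
      have := hm a ha
      convert this using 2
      rw [hl]; ring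
    have hm1 : ∀ a ∈ T, itc l ⁅a, p⁆ ∈ Z G (j + 1) := by
      intro a ha
      have := itc_mem l (hm' a ha)
      simpa using this
    let f : T →* G ⧸ Z G j := MonoidHom.mk' (fun y => ((itc l ⁅(y : G), p⁆ : G) : G ⧸ Z G j)) (by
      intro y z
      -- `⁅y z, p⁆ = (y ⁅z, p⁆ y⁻¹) ⁅y, p⁆ ≡ ⁅z, p⁆ ⁅y, p⁆`
      have e : ⁅(y : G) * z, p⁆ = ((y : G) * ⁅(z : G), p⁆ * (y : G)⁻¹) * ⁅(y : G), p⁆ := by
        simp only [commutatorElement_def]; group
      have c0 : Cong (j + m) ⁅(y : G) * z, p⁆ (⁅(z : G), p⁆ * ⁅(y : G), p⁆) := by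
        rw [e]
        exact (cong_conj (hm z z.2) (y : G)).mul (Cong.refl _ _)
      have c1 := itc_cong l c0
      rw [hl, Nat.add_sub_cancel] at c1
      have c2 := (itc_mul l (hm' z z.2) (hm' y y.2)).symm
      have c3 : Cong j (itc l ⁅(z : G), p⁆ * itc l ⁅(y : G), p⁆)
          (itc l ⁅(y : G), p⁆ * itc l ⁅(z : G), p⁆) :=
        (cong_comm (hm1 z z.2) (itc l ⁅(y : G), p⁆)).symm
      have c4 := (c1.trans c2).trans c3
      rw [cong_iff] at c4
      rw [← QuotientGroup.mk_mul]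
      exact c4)
    let H' : Subgroup G := f.range.comap (QuotientGroup.mk' (Z G j))
    have hH' : H' ≤ Z G j := by
      apply h1
      rintro y ⟨⟨z, hzT⟩, hz⟩
      obtain ⟨c, hc, d, hd', rfl⟩ := hcov z hzT
      have hcT : c ∈ T := hCTT hc
      -- `⁅c d, p⁆ ≡ ⁅c, p⁆`
      have e : ⁅c * d, p⁆ = (c * ⁅d, p⁆ * c⁻¹) * ⁅c, p⁆ := by
        simp only [commutatorElement_def]; group
      have c1 : Cong j ⁅c, p⁆ ⁅c * d, p⁆ := by
        rw [e]
        have := (cong_one ((inferInstance : (Z G j).Normal).conj_mem _ (hd d hd') c)).mul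
          (Cong.refl j ⁅c, p⁆)
        simpa using this
      have c2 : Cong j (itc l ⁅c, p⁆) (itc l ⁅c * d, p⁆) := (itc_cong l c1).mono (Nat.sub_le _ _)
      have c3 : ((itc l ⁅c, p⁆ : G) : G ⧸ Z G j) = y := by
        rw [cong_iff] at c2
        rw [c2]
        exact hz
      rw [QuotientGroup.eq] at c3
      exact ⟨itc l ⁅c, p⁆, h2 _ (h3 c hc p hp) l (by omega) hlD, _, c3, by group⟩
    have : itc l ⁅a, p⁆ ∈ H' := ⟨⟨a, ha⟩, rfl⟩
    exact hH' this

/-- `Γ` is discrete modulo `Z i`. -/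
def DiscMod (Γ : Subgroup G) (i : ℕ) : Prop :=
  ∃ U ∈ 𝓝 (1 : G), ∀ p ∈ U, ∀ γ ∈ Γ, ∀ z ∈ Z G i, p = γ * z → p ∈ Z G i

lemma Setup.disc_mod (h : Setup G Γ C S k) (i : ℕ) : DiscMod Γ i := by
  induction i with
  | zero =>
    obtain ⟨V, hV, h1⟩ := h.disc
    refine ⟨V, hV, fun p hp γ hγ z hz e => ?_⟩
    have : z = 1 := by simpa [Z_zero] using hz
    subst this
    rw [mul_one] at e
    subst e
    rw [h1 p hγ hp]
    exact one_mem _
  | succ i ih =>
    obtain ⟨V, hV, h1⟩ := ih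
    obtain ⟨U1, hU1, h2⟩ := h.rigid ⊤ h.compact (fun _ _ => trivial) Γ
      (fun a _ => h.cover a) i
    obtain ⟨U2, hU2, h3⟩ := tube_comm h.fin.isCompact hV
    refine ⟨U1 ∩ U2, Filter.inter_mem hU1 hU2, fun p hp γ hγ z hz e => ?_⟩
    have h4 : ∀ s ∈ S, ⁅s, p⁆ ∈ Z G i := by
      intro s hs
      have hsΓ : s ∈ Γ := by rw [← h.gen]; exact Subgroup.subset_closure hs
      have e1 : ⁅s, p⁆ = ⁅s, γ⁆ * (γ * ⁅s, z⁆ * γ⁻¹) := by
        rw [e]
        simp only [commutatorElement_def]; group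
      exact h1 _ (h3 s hs p hp.2) ⁅s, γ⁆
        (by
          rw [commutatorElement_def]
          exact mul_mem (mul_mem (mul_mem hsΓ hγ) (inv_mem hsΓ)) (inv_mem hγ))
        _ ((inferInstance : (Z G i).Normal).conj_mem _ (comm_mem_Z hz s) γ) e1
    have h5 : ∀ d ∈ Γ, ⁅d, p⁆ ∈ Z G i := by
      intro d hd
      rw [← h.gen] at hd
      induction hd using Subgroup.closure_induction with
      | mem x hx => exact h4 x hx
      | one => simp
      | mul x y _ _ hx hy =>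
        have e : ⁅x * y, p⁆ = (x * ⁅y, p⁆ * x⁻¹) * ⁅x, p⁆ := by
          simp only [commutatorElement_def]; group
        rw [e]
        exact mul_mem ((inferInstance : (Z G i).Normal).conj_mem _ hy x) hx
      | inv x _ hx =>
        have e : ⁅x⁻¹, p⁆ = x⁻¹ * (⁅x, p⁆)⁻¹ * x⁻¹⁻¹ := by
          simp only [commutatorElement_def]; group
        rw [e]
        exact (inferInstance : (Z G i).Normal).conj_mem _ (inv_mem hx) x⁻¹
    exact mem_Z_succ_of_comm fun a => h2 p hp.1 h5 a trivial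

lemma isClosed_Z [T2Space G] (i : ℕ) : IsClosed (Z G i : Set G) := by
  induction i with
  | zero =>
    rw [Z_zero]
    exact isClosed_singleton
  | succ i ih =>
    have : (Z G (i + 1) : Set G) = ⋂ a : G, (fun x => ⁅a, x⁆) ⁻¹' (Z G i : Set G) := by
      ext x
      simp only [SetLike.mem_coe, Set.mem_iInter, Set.mem_preimage]
      exact ⟨fun hx a => comm_mem_Z hx a, mem_Z_succ_of_comm⟩
    rw [this]
    refine isClosed_iInter fun a => ih.preimage ?_
    exact continuous_comm.comp (Continuous.prodMk continuous_const continuous_id)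

/-- `Γ ∩ Z i` is cocompact in `Z i`. -/
lemma Setup.cover_Z [T2Space G] (h : Setup G Γ C S k) (i : ℕ) :
    ∃ CT : Set G, IsCompact CT ∧ CT ⊆ Z G i ∧
      ∀ a ∈ Z G i, ∃ c ∈ CT, ∃ d ∈ Γ ⊓ Z G i, a = c * d := by
  obtain ⟨U, hU, h1⟩ := h.disc_mod i
  -- a neighbourhood `W` with `W⁻¹ W ⊆ U`
  obtain ⟨W, hW, hWo, hWU⟩ : ∃ W : Set G, W ∈ 𝓝 (1 : G) ∧ IsOpen W ∧
      ∀ a ∈ W, ∀ b ∈ W, a⁻¹ * b ∈ U := by
    have hc : Continuous (fun p : G × G => p.1⁻¹ * p.2) := by fun_prop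
    have h2 : (fun p : G × G => p.1⁻¹ * p.2) ⁻¹' U ∈ 𝓝 ((1 : G), (1 : G)) := by
      apply hc.continuousAt.preimage_mem_nhds
      simpa using hU
    rw [nhds_prod_eq] at h2
    obtain ⟨A, hA, B, hB, hAB⟩ := Filter.mem_prod_iff.1 h2
    refine ⟨interior (A ∩ B), ?_, isOpen_interior, ?_⟩
    · exact interior_mem_nhds.2 (Filter.inter_mem hA hB)
    · intro a ha b hb
      exact hAB (Set.mk_mem_prod (interior_subset ha).1 (interior_subset hb).2)
  obtain ⟨t, ht, hcov⟩ := h.compact.elim_nhds_subcover (fun x => (fun y => x⁻¹ * y) ⁻¹' W) (by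
    intro x _
    apply (continuous_const_mul x⁻¹).continuousAt.preimage_mem_nhds
    simpa using hW)
  classical
  -- choose representatives
  have hch : ∀ x : G, ∃ q : G × G, (∃ u ∈ C, x⁻¹ * u ∈ W ∧ ∃ γ ∈ Γ, ∃ z ∈ Z G i, z = u * γ) →
      q.1 ∈ C ∧ x⁻¹ * q.1 ∈ W ∧ q.2 ∈ Γ ∧ q.1 * q.2 ∈ Z G i := by
    intro x
    by_cases hx : ∃ u ∈ C, x⁻¹ * u ∈ W ∧ ∃ γ ∈ Γ, ∃ z ∈ Z G i, z = u * γ
    · obtain ⟨u, hu, huW, γ, hγ, z, hz, e⟩ := hx
      exact ⟨(u, γ), fun _ => ⟨hu, huW, hγ, e ▸ hz⟩⟩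
    · exact ⟨(1, 1), fun h => absurd h hx⟩
  choose q hq using hch
  -- the compact set
  have hKc : IsCompact ((fun p : G × G => p.1⁻¹ * p.2) '' (C ×ˢ C)) :=
    (h.compact.prod h.compact).image (by fun_prop)
  set K := (fun p : G × G => p.1⁻¹ * p.2) '' (C ×ˢ C) with hK
  set CT : Set G := (⋃ x ∈ t, (fun y => (q x).1 * y * (q x).2) '' K) ∩ Z G i with hCT
  refine ⟨CT, ?_, Set.inter_subset_right, ?_⟩
  · refine IsCompact.inter_right ?_ (isClosed_Z i)
    refine t.isCompact_biUnion fun x _ => hKc.image (by fun_prop)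
  · intro a ha
    obtain ⟨u, hu, γ, hγ, rfl⟩ := h.cover a
    obtain ⟨x, hx⟩ := Set.mem_iUnion.1 (hcov hu)
    obtain ⟨hxt, hxu⟩ := Set.mem_iUnion.1 hx
    have hxu' : x⁻¹ * u ∈ W := hxu
    obtain ⟨q1, q2, q3, q4⟩ := hq x ⟨u, hu, hxu', γ, hγ, _, ha, rfl⟩
    -- `q⁻¹ u ∈ U`
    have h5 : ((q x).1)⁻¹ * u ∈ U := by
      have := hWU _ q2 _ hxu'
      have e : (x⁻¹ * (q x).1)⁻¹ * (x⁻¹ * u) = ((q x).1)⁻¹ * u := by group
      rwa [e] at this
    -- it is in `Γ Z`
    have h6 : ((q x).1)⁻¹ * u ∈ Z G i := by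
      refine h1 _ h5 ((q x).2 * γ⁻¹) (mul_mem q3 (inv_mem hγ))
        (γ * (((q x).1 * (q x).2)⁻¹ * (u * γ)) * γ⁻¹) ?_ (by group)
      exact (inferInstance : (Z G i).Normal).conj_mem _ (mul_mem (inv_mem q4) ha) γ
    have h7 : (q x).1 * (((q x).1)⁻¹ * u) * (q x).2 ∈ Z G i := by
      have e : (q x).1 * (((q x).1)⁻¹ * u) * (q x).2
          = ((q x).1 * (q x).2) * (((q x).2)⁻¹ * (((q x).1)⁻¹ * u) * (((q x).2)⁻¹)⁻¹) := by group
      rw [e]
      exact mul_mem q4 ((inferInstance : (Z G i).Normal).conj_mem _ h6 _)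
    refine ⟨(q x).1 * (((q x).1)⁻¹ * u) * (q x).2, ⟨?_, h7⟩, ((q x).2)⁻¹ * γ, ⟨?_, ?_⟩, by group⟩
    · refine Set.mem_iUnion.2 ⟨x, Set.mem_iUnion.2 ⟨hxt, ?_⟩⟩
      exact ⟨((q x).1)⁻¹ * u, ⟨((q x).1, u), ⟨q1, hu⟩, rfl⟩, rfl⟩
    · exact Γ.mul_mem (Γ.inv_mem q3) hγ
    · have e : ((q x).2)⁻¹ * γ = ((q x).1 * (((q x).1)⁻¹ * u) * (q x).2)⁻¹ * (u * γ) := by group
      rw [e]
      exact (Z G i).mul_mem ((Z G i).inv_mem h7) ha

end setup

end Pool.Agent.Lib.MP_1b26ca_an
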