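import Mathlib
import Pool.Agent.Lib.MP_1b26ca_an.Comm
import Pool.Agent.Lib.MP_1b26ca_an.Noeth
import Pool.Agent.Lib.MP_1b26ca_an.Rigid
import Pool.Agent.Lib.MP_1b26ca_an.HK

/-!
# A saturated filtration
-/

set_option autoImplicit false
set_option linter.unusedSectionVars false

namespace Pool.Agent.Lib.MP_1b26ca_an

open Subgroup Topology
open scoped commutatorElement

section filt

variable (G : Type*) [Group G] (k : ℕ)

/-- The filtration `N`. -/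
def NF (n : ℕ) : Subgroup G where
  carrier := {g | g ∈ Z G (k + 1 - n) ∧ ∀ i, ∀ z ∈ Z G i, ⁅g, z⁆ ∈ Z G (i - n)}
  one_mem' := ⟨(Z G _).one_mem, fun i z _ => by simp⟩
  mul_mem' := by
    rintro a b ⟨ha, ha'⟩ ⟨hb, hb'⟩
    refine ⟨(Z G _).mul_mem ha hb, fun i z hz => ?_⟩
    have e : ⁅a * b, z⁆ = (a * ⁅b, z⁆ * a⁻¹) * ⁅a, z⁆ := by
      simp only [commutatorElement_def]; group
    rw [e]
    exact (Z G _).mul_mem ((inferInstance : (Z G (i - n)).Normal).conj_mem _ (hb' i z hz) a)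
      (ha' i z hz)
  inv_mem' := by
    rintro a ⟨ha, ha'⟩
    refine ⟨(Z G _).inv_mem ha, fun i z hz => ?_⟩
    have e : ⁅a⁻¹, z⁆ = a⁻¹ * (⁅a, z⁆)⁻¹ * a⁻¹⁻¹ := by
      simp only [commutatorElement_def]; group
    rw [e]
    exact (inferInstance : (Z G (i - n)).Normal).conj_mem _ ((Z G _).inv_mem (ha' i z hz)) a⁻¹

variable {G k}

lemma mem_NF {n : ℕ} {g : G} :
    g ∈ NF G k n ↔ g ∈ Z G (k + 1 - n) ∧ ∀ i, ∀ z ∈ Z G i, ⁅g, z⁆ ∈ Z G (i - n) := Iff.rfl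

lemma comm_mem_Z_self {i : ℕ} {z : G} (hz : z ∈ Z G i) (g : G) : ⁅g, z⁆ ∈ Z G i :=
  Z_mono (Nat.sub_le i 1) (comm_mem_Z_pred hz g)

lemma NF_one (hk : Z G k = ⊤) : NF G k 1 = ⊤ := by
  rw [eq_top_iff]
  intro g _
  refine mem_NF.2 ⟨?_, fun i z hz => comm_mem_Z_pred hz g⟩
  rw [Nat.add_sub_cancel, hk]; trivial

lemma NF_filt (hk : Z G k = ⊤) : Filt (NF G k) := by
  refine ⟨?_, ?_, ?_⟩
  · rw [eq_top_iff]
    intro g _
    refine mem_NF.2 ⟨?_, fun i z hz => ?_⟩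
    · have : Z G k ≤ Z G (k + 1 - 0) := Z_mono (by omega)
      apply this
      rw [hk]; trivial
    · exact comm_mem_Z_self hz g
  · intro p g hg
    rw [mem_NF] at hg ⊢
    exact ⟨Z_mono (by omega) hg.1, fun i z hz => Z_mono (by omega) (hg.2 i z hz)⟩
  · intro p q x y hx hy
    have hxi := (NF G k p).inv_mem hx
    have hyi := (NF G k q).inv_mem hy
    rw [mem_NF] at hx hy hxi hyi ⊢
    constructor
    · have := hx.2 _ y hy.1
      convert this using 2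
      omega
    · intro i z hz
      have e : ⁅z, ⁅x, y⁆⁆ = ((x * z) * (⁅y, ⁅z⁻¹, x⁻¹⁆⁆)⁻¹ * (x * z)⁻¹) *
          ((x * y) * (⁅x⁻¹, ⁅y⁻¹, z⁆⁆)⁻¹ * (x * y)⁻¹) := by
        simp only [commutatorElement_def]; group
      rw [← commutatorElement_inv, e]
      apply (Z G _).inv_mem
      have h1 : ⁅z⁻¹, x⁻¹⁆ ∈ Z G (i - p) := by
        rw [← commutatorElement_inv]
        exact (Z G _).inv_mem (hxi.2 i _ ((Z G _).inv_mem hz))
      have h2 : ⁅y, ⁅z⁻¹, x⁻¹⁆⁆ ∈ Z G (i - (p + q)) := by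
        have := hy.2 _ _ h1
        rwa [Nat.sub_sub] at this
      have h3 : ⁅x⁻¹, ⁅y⁻¹, z⁆⁆ ∈ Z G (i - (p + q)) := by
        have := hxi.2 _ _ (hyi.2 i z hz)
        rwa [Nat.sub_sub, Nat.add_comm q p] at this
      exact (Z G _).mul_mem
        ((inferInstance : (Z G (i - (p + q))).Normal).conj_mem _ ((Z G _).inv_mem h2) _)
        ((inferInstance : (Z G (i - (p + q))).Normal).conj_mem _ ((Z G _).inv_mem h3) _)

lemma NF_succ_eq_bot : NF G k (k + 1) = ⊥ := by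
  rw [eq_bot_iff]
  intro g hg
  have := (mem_NF.1 hg).1
  simpa [Z_zero] using this

lemma NF_normal (hk : Z G k = ⊤) (n : ℕ) : (NF G k n).Normal := by
  refine ⟨fun m hm g => ?_⟩
  have e4 : g * m * g⁻¹ = ⁅g, m⁆ * m := by rw [commutatorElement_def]; group
  rw [e4]
  have := (NF_filt hk).comm 0 n g m (by rw [(NF_filt hk).zero]; trivial) hm
  rw [Nat.zero_add] at this
  exact mul_mem this hm

end filt

section sat

variable {G : Type*} [Group G] [TopologicalSpace G] [IsTopologicalGroup G]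
  {Γ : Subgroup G} {C S : Set G} {k : ℕ}

lemma Setup.fg_inf (h : Setup G Γ C S k) (H : Subgroup G) : (Γ ⊓ H).FG := by
  have hΓ : Γ.FG := (Subgroup.fg_iff _).2 ⟨S, h.gen, h.fin⟩
  have : Group.FG Γ := (Group.fg_iff_subgroup_fg Γ).2 hΓ
  have hnil : (⊤ : Subgroup Γ).lowerCentralSeries k = ⊥ := by
    have h1 : (⊤ : Subgroup G).lowerCentralSeries k = ⊥ :=
      Subgroup.lowerCentralSeries_eq_bot_iff_upperCentralSeries_eq_top.2 h.nil
    have h2 := Subgroup.map_lowerCentralSeries (⊤ : Subgroup Γ) Γ.subtype k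
    have h3 : ((⊤ : Subgroup Γ).map Γ.subtype).lowerCentralSeries k
        ≤ (⊤ : Subgroup G).lowerCentralSeries k := Subgroup.lowerCentralSeries_mono k le_top
    rw [h1, ← h2] at h3
    rw [eq_bot_iff]
    intro x hx
    have := h3 (Subgroup.mem_map_of_mem Γ.subtype hx)
    rw [Subgroup.mem_bot] at this
    rw [Subgroup.mem_bot]
    exact Subtype.ext this
  obtain ⟨T, hT, hTfin⟩ := (Subgroup.fg_iff _).1 (fg_of_lcs k Γ hnil (H.subgroupOf Γ))
  have h2 : Γ ⊓ H = (H.subgroupOf Γ).map Γ.subtype := by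
    rw [Subgroup.subgroupOf_map_subtype, inf_comm]
  rw [h2, ← hT, MonoidHom.map_closure]
  exact (Subgroup.fg_iff _).2 ⟨_, rfl, hTfin.image _⟩

lemma Setup.sat_aux [T2Space G] (h : Setup G Γ C S k) (n i : ℕ) :
    ∃ U ∈ 𝓝 (1 : G), ∀ p ∈ U, ∀ γ ∈ Γ, ∀ ν ∈ NF G k n, p = γ * ν →
      ∀ z ∈ Z G i, ⁅p, z⁆ ∈ Z G (i - n) := by
  obtain ⟨CT, hCT, hCTT, hcov⟩ := h.cover_Z i
  obtain ⟨X, hX, hXfin⟩ := (Subgroup.fg_iff _).1 (h.fg_inf (Z G i))
  obtain ⟨V, hV, h1⟩ := h.disc_mod (i - n)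
  obtain ⟨U1, hU1, h2⟩ := h.rigid (Z G i) hCT hCTT (Γ ⊓ Z G i) hcov (i - n)
  obtain ⟨U2, hU2, h3⟩ := tube_comm hXfin.isCompact hV
  refine ⟨U1 ∩ U2, Filter.inter_mem hU1 hU2, fun p hp γ hγ ν hν e => ?_⟩
  rw [mem_NF] at hν
  have h4 : ∀ s ∈ X, ⁅s, p⁆ ∈ Z G (i - n) := by
    intro s hs
    have hsΓ : s ∈ Γ ⊓ Z G i := by rw [← hX]; exact Subgroup.subset_closure hs
    have e1 : ⁅s, p⁆ = ⁅s, γ⁆ * (γ * (⁅ν, s⁆)⁻¹ * γ⁻¹) := by
      rw [e]
      simp only [commutatorElement_def]; group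
    refine h1 _ (h3 s hs p hp.2) ⁅s, γ⁆ ?_ _
      ((inferInstance : (Z G (i - n)).Normal).conj_mem _
        ((Z G _).inv_mem (hν.2 i s hsΓ.2)) γ) e1
    rw [commutatorElement_def]
    exact Γ.mul_mem (Γ.mul_mem (Γ.mul_mem hsΓ.1 hγ) (Γ.inv_mem hsΓ.1)) (Γ.inv_mem hγ)
  have h5 : ∀ d ∈ Γ ⊓ Z G i, ⁅d, p⁆ ∈ Z G (i - n) := by
    intro d hd
    rw [← hX] at hd
    induction hd using Subgroup.closure_induction with
    | mem x hx => exact h4 x hx
    | one => simp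
    | mul x y _ _ hx hy =>
      have e : ⁅x * y, p⁆ = (x * ⁅y, p⁆ * x⁻¹) * ⁅x, p⁆ := by
        simp only [commutatorElement_def]; group
      rw [e]
      exact (Z G _).mul_mem ((inferInstance : (Z G (i - n)).Normal).conj_mem _ hy x) hx
    | inv x _ hx =>
      have e : ⁅x⁻¹, p⁆ = x⁻¹ * (⁅x, p⁆)⁻¹ * x⁻¹⁻¹ := by
        simp only [commutatorElement_def]; group
      rw [e]
      exact (inferInstance : (Z G (i - n)).Normal).conj_mem _ ((Z G _).inv_mem hx) x⁻¹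
  intro z hz
  rw [← commutatorElement_inv]
  exact (Z G _).inv_mem (h2 p hp.1 h5 z hz)

/-- **Saturation.** -/
lemma Setup.sat [T2Space G] (h : Setup G Γ C S k) (n : ℕ) :
    ∃ U ∈ 𝓝 (1 : G), ∀ p ∈ U, ∀ γ ∈ Γ, ∀ ν ∈ NF G k n, p = γ * ν → p ∈ NF G k n := by
  obtain ⟨V, hV, h1⟩ := h.disc_mod (k + 1 - n)
  choose U hU h2 using h.sat_aux n
  refine ⟨V ∩ ⋂ i ∈ Finset.range (k + 1), U i, Filter.inter_mem hV ?_, ?_⟩
  · rw [Filter.biInter_finset_mem]
    intro i _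
    exact hU i
  · intro p hp γ hγ ν hν e
    rw [mem_NF]
    refine ⟨h1 p hp.1 γ hγ ν (mem_NF.1 hν).1 e, fun i z hz => ?_⟩
    by_cases hi : i ≤ k
    · have hpU : p ∈ U i := by
        have := hp.2
        simp only [Set.mem_iInter] at this
        exact this i (Finset.mem_range.2 (by omega))
      exact h2 i p hpU γ hγ ν hν e z hz
    · have hpU : p ∈ U k := by
        have := hp.2
        simp only [Set.mem_iInter] at this
        exact this k (Finset.mem_range.2 (by omega))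
      exact Z_mono (by omega) (h2 k p hpU γ hγ ν hν e z (by rw [h.nil]; trivial))

end sat

end Pool.Agent.Lib.MP_1b26ca_an
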