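import Mathlib
import Pool.Agent.Lib.MP_1b26ca_an.HK
import Pool.Agent.Lib.MP_1b26ca_an.NFilt

/-!
# Topological completion of cubes in nilsystems
-/

set_option autoImplicit false
set_option linter.unusedSectionVars false

namespace Pool.Agent.Lib.MP_1b26ca_an

open Subgroup Topology Filter
open scoped commutatorElement

/-- `Q` holds at all the points `n + ω · hs`. -/
def AllQ (Q : ℕ → Prop) : List ℕ → ℕ → Prop
  | [], n => Q n
  | h :: hs, n => AllQ Q hs n ∧ AllQ Q hs (n + h)

/-- `Q` holds at all the points `n + ω · hs`, except possibly the top one. -/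
def OffQ (Q : ℕ → Prop) : List ℕ → ℕ → Prop
  | [], _ => True
  | h :: hs, n => AllQ Q hs n ∧ OffQ Q hs (n + h)

section lcube

variable {α : Type*} [Group α]

/-- The cube with base point `x` and directions given by the list. -/
def lcube : (l : List α) → α → Cube α l.length
  | [], x => x
  | a :: l, x => (lcube l x, lcube l (x * a))

lemma lcube_eq (l : List α) (x a : α) : lcube l (x * a) = cst l.length x * lcube l a := by
  induction l generalizing a with
  | nil => rfl
  | cons b l ih =>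
    change (lcube l (x * a), lcube l (x * a * b)) = (cst l.length x * lcube l a,
      cst l.length x * lcube l (a * b))
    rw [ih, mul_assoc, ih]

lemma top_lcube (l : List α) (x : α) : top l.length (lcube l x) = x * l.prod := by
  induction l generalizing x with
  | nil => simp [lcube, top]
  | cons b l ih =>
    change top l.length (lcube l (x * b)) = _
    rw [ih, List.prod_cons, mul_assoc]

variable {M : ℕ → Subgroup α}

lemma hk_lcube (hM : Filt M) (h1 : M 1 = ⊤) (l : List α) (x : α) :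
    HK M l.length 0 (lcube l x) ∧ ∀ t, HK M l.length 1 ((lcube l x)⁻¹ * lcube l (x * t)) := by
  induction l generalizing x with
  | nil =>
    refine ⟨by change x ∈ M 0; rw [hM.zero]; trivial, fun t => ?_⟩
    change x⁻¹ * (x * t) ∈ M 1
    rw [h1]; trivial
  | cons a l ih =>
    have hc := hk_closed hM l.length
    have hc' := hk_closed hM (l.length + 1)
    have A : HK M (a :: l).length 0 (lcube (a :: l) x) := ⟨(ih x).1, (ih x).2 a⟩
    refine ⟨A, fun t => ?_⟩
    have e0 : ∀ y : α, lcube (a :: l) y = cst (a :: l).length y * lcube (a :: l) 1 := by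
      intro y
      have := lcube_eq (a :: l) y 1
      rwa [mul_one] at this
    have e : (lcube (a :: l) x)⁻¹ * lcube (a :: l) (x * t)
        = (lcube (a :: l) 1)⁻¹ * cst (a :: l).length t * lcube (a :: l) 1 := by
      rw [e0 x, e0 (x * t)]
      have h3 : cst (a :: l).length (x * t) = cst (a :: l).length x * cst (a :: l).length t := by
        have h4 : ∀ (n : ℕ) (x t : α), cst n (x * t) = cst n x * cst n t := by
          intro n
          induction n with
          | zero => intro x t; rfl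
          | succ n ih =>
            intro x t
            change (cst n (x * t), cst n (x * t)) = (cst n x * cst n t, cst n x * cst n t)
            rw [ih]
        exact h4 _ _ _
      rw [h3]; group
    rw [e]
    refine hc'.conj' ?_ ?_
    · exact ⟨(ih 1).1, (ih 1).2 a⟩
    · exact hk_cst hM _ (by rw [h1]; trivial)

end lcube

section choose

variable {α : Type*} [Group α] (O Γ : Subgroup α)

/-- the relation `b = e a d` -/
def Rel (a b : α) : Prop := ∃ e ∈ O, ∃ d ∈ Γ, b = e * a * d

def All2 (R : α → α → Prop) : (n : ℕ) → Cube α n → Cube α n → Prop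
  | 0, x, y => R x y
  | n + 1, x, y => All2 R n x.1 y.1 ∧ All2 R n x.2 y.2

def Off2 (R : α → α → Prop) : (n : ℕ) → Cube α n → Cube α n → Prop
  | 0, _, _ => True
  | n + 1, x, y => All2 R n x.1 y.1 ∧ Off2 R n x.2 y.2

lemma All2.exists {n : ℕ} {x y : Cube α n} (h : All2 (Rel O Γ) n x y) :
    ∃ e d : Cube α n, All (· ∈ O) n e ∧ All (· ∈ Γ) n d ∧ y = e * x * d := by
  induction n with
  | zero =>
    obtain ⟨e, he, d, hd, h⟩ := h
    exact ⟨e, d, he, hd, h⟩
  | succ n ih =>
    obtain ⟨e, d, he, hd, h1⟩ := ih h.1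
    obtain ⟨e', d', he', hd', h2⟩ := ih h.2
    exact ⟨(e, e'), (d, d'), ⟨he, he'⟩, ⟨hd, hd'⟩, Prod.ext h1 h2⟩

lemma Off2.exists {n : ℕ} {x y : Cube α n} (h : Off2 (Rel O Γ) n x y) :
    ∃ e d : Cube α n, Off (· ∈ O) n e ∧ Off (· ∈ Γ) n d ∧ OffEq n y (e * x * d) := by
  induction n with
  | zero => exact ⟨1, 1, trivial, trivial, trivial⟩
  | succ n ih =>
    obtain ⟨e, d, he, hd, h1⟩ := All2.exists O Γ h.1
    obtain ⟨e', d', he', hd', h2⟩ := ih h.2
    exact ⟨(e, e'), (d, d'), ⟨he, he'⟩, ⟨hd, hd'⟩, h1, h2⟩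

end choose

lemma exists_list {ι : Type*} (k : ℕ) (h : ι → List ℕ) (hk : ∀ V, (h V).length = k) :
    ∃ H : List (ι → ℕ), H.length = k ∧ ∀ V, H.map (fun f => f V) = h V := by
  induction k generalizing h with
  | zero => exact ⟨[], rfl, fun V => by simpa using (List.length_eq_zero_iff.1 (hk V)).symm⟩
  | succ k ih =>
    obtain ⟨H, hH, hH'⟩ := ih (fun V => (h V).tail) (fun V => by simp [hk V])
    refine ⟨(fun V => (h V).headD 0) :: H, by simp [hH], fun V => ?_⟩
    rw [List.map_cons, hH' V]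
    have : h V ≠ [] := by
      intro h0
      have := hk V
      rw [h0] at this
      simp at this
    cases h1 : h V with
    | nil => exact absurd h1 this
    | cons a l => simp [h1]

section setup

variable {G : Type*} [Group G] [TopologicalSpace G] [IsTopologicalGroup G]
  {Γ : Subgroup G} {C S : Set G} {k : ℕ}

/-- families converging to `1` -/
def OO {ι : Type*} (G : Type*) [Group G] [TopologicalSpace G] [IsTopologicalGroup G]
    (l : Filter ι) : Subgroup (ι → G) where
  carrier := {e | Tendsto e l (𝓝 1)}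
  one_mem' := tendsto_const_nhds
  mul_mem' := by
    intro a b ha hb
    have := Tendsto.mul ha hb
    rw [mul_one] at this
    exact this
  inv_mem' := by
    intro a ha
    have := Tendsto.inv ha
    rw [inv_one] at this
    exact this

/-- families with values in a subgroup -/
def GG (ι : Type*) {G : Type*} [Group G] (Γ : Subgroup G) : Subgroup (ι → G) where
  carrier := {e | ∀ V, e V ∈ Γ}
  one_mem' := fun _ => Γ.one_mem
  mul_mem' := fun ha hb V => Γ.mul_mem (ha V) (hb V)
  inv_mem' := fun ha V => Γ.inv_mem (ha V)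

/-- families eventually in a subgroup -/
def MM {ι : Type*} {G : Type*} [Group G] (l : Filter ι) (N : Subgroup G) : Subgroup (ι → G) where
  carrier := {e | ∀ᶠ V in l, e V ∈ N}
  one_mem' := Eventually.of_forall fun _ => N.one_mem
  mul_mem' := by
    intro a b ha hb
    filter_upwards [ha, hb] with V h1 h2 using N.mul_mem h1 h2
  inv_mem' := by
    intro a ha
    filter_upwards [ha] with V h1 using N.inv_mem h1

lemma MM_filt {ι : Type*} {G : Type*} [Group G] (l : Filter ι) {N : ℕ → Subgroup G}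
    (hN : Filt N) : Filt (fun n => MM l (N n)) := by
  refine ⟨?_, ?_, ?_⟩
  · rw [eq_top_iff]
    intro x _
    refine Eventually.of_forall fun V => ?_
    rw [hN.zero]; trivial
  · intro p x hx
    filter_upwards [hx] with V h using hN.succ_le p h
  · intro p q x y hx hy
    filter_upwards [hx, hy] with V h1 h2 using hN.comm p q _ _ h1 h2

lemma Setup.key [T2Space G] (h : Setup G Γ C S k) {ι : Type*} (l : Filter ι) :
    Key (fun n => MM l (NF G k n)) (OO G l) (GG ι Γ) := by
  intro p x e d he hd hx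
  obtain ⟨U, hU, hsat⟩ := h.sat p
  have hconj : Continuous (fun q : G × G => q.1⁻¹ * q.2 * q.1) := by fun_prop
  obtain ⟨W, hW, h1⟩ := tube h.compact hconj (by intro a; simp) hU
  have hN := NF_normal h.nil p
  have he' : ∀ᶠ V in l, e V ∈ W := he hW
  filter_upwards [he', hx] with V h2 h3
  obtain ⟨u, hu, δ, hδ, hxV⟩ := h.cover (x V)
  have h4 : (x V)⁻¹ * e V * x V * d V ∈ NF G k p := h3
  have h5 : u⁻¹ * e V * u ∈ U := h1 u hu _ h2
  have h6 : (δ * ((x V)⁻¹ * e V * x V * d V) * δ⁻¹) ∈ NF G k p := hN.conj_mem _ h4 δ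
  set ν := δ * ((x V)⁻¹ * e V * x V * d V) * δ⁻¹ with hν
  set γ := (δ * d V * δ⁻¹)⁻¹ with hγ
  have hγΓ : γ ∈ Γ := Γ.inv_mem (Γ.mul_mem (Γ.mul_mem hδ (hd V)) (Γ.inv_mem hδ))
  have h7 : u⁻¹ * e V * u = γ * (γ⁻¹ * ν * γ) := by
    rw [hν, hγ, hxV]; group
  have h8 : γ⁻¹ * ν * γ ∈ NF G k p := by
    have := hN.conj_mem _ h6 γ⁻¹
    simpa using this
  have h9 := hsat _ h5 γ hγΓ _ h8 h7
  have h10 := hN.conj_mem _ h9 u
  have e1 : u * (u⁻¹ * e V * u) * u⁻¹ = e V := by group
  rwa [e1] at h10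

lemma all2_lcube {ι : Type*} (O Γ' : Subgroup (ι → G)) (g : ι → G) (T : ι → ℕ)
    (Q : ι → ℕ → Prop)
    (hQ : ∀ n : ι → ℕ, (∀ V, Q V (n V)) →
      Rel O Γ' (fun V => g V ^ n V) (fun V => g V ^ (n V + T V)))
    (H : List (ι → ℕ)) (n : ι → ℕ) (h : ∀ V, AllQ (Q V) (H.map (fun f => f V)) (n V)) :
    All2 (Rel O Γ') (H.map (fun (f : ι → ℕ) => (fun V => g V ^ f V : ι → G))).length
      (lcube (H.map (fun (f : ι → ℕ) => (fun V => g V ^ f V : ι → G))) (fun V => g V ^ n V))
      (lcube (H.map (fun (f : ι → ℕ) => (fun V => g V ^ f V : ι → G)))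
        (fun V => g V ^ (n V + T V))) := by
  induction H generalizing n with
  | nil => exact hQ n h
  | cons a l ih =>
    refine ⟨ih n fun V => (h V).1, ?_⟩
    have := ih (fun V => n V + a V) (fun V => (h V).2)
    have e1 : ((fun V => g V ^ n V) * (fun V => g V ^ a V) : ι → G)
        = fun V => g V ^ (n V + a V) := by
      funext V; simp [pow_add]
    have e2 : ((fun V => g V ^ (n V + T V)) * (fun V => g V ^ a V) : ι → G)
        = fun V => g V ^ (n V + a V + T V) := by
      funext V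
      simp only [Pi.mul_apply]
      rw [← pow_add]; congr 1; ring
    rw [← e1, ← e2] at this
    exact this

lemma off2_lcube {ι : Type*} (O Γ' : Subgroup (ι → G)) (g : ι → G) (T : ι → ℕ)
    (Q : ι → ℕ → Prop)
    (hQ : ∀ n : ι → ℕ, (∀ V, Q V (n V)) →
      Rel O Γ' (fun V => g V ^ n V) (fun V => g V ^ (n V + T V)))
    (H : List (ι → ℕ)) (n : ι → ℕ) (h : ∀ V, OffQ (Q V) (H.map (fun f => f V)) (n V)) :
    Off2 (Rel O Γ') (H.map (fun (f : ι → ℕ) => (fun V => g V ^ f V : ι → G))).length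
      (lcube (H.map (fun (f : ι → ℕ) => (fun V => g V ^ f V : ι → G))) (fun V => g V ^ n V))
      (lcube (H.map (fun (f : ι → ℕ) => (fun V => g V ^ f V : ι → G)))
        (fun V => g V ^ (n V + T V))) := by
  induction H generalizing n with
  | nil => trivial
  | cons a l ih =>
    refine ⟨all2_lcube O Γ' g T Q hQ l n fun V => (h V).1, ?_⟩
    have := ih (fun V => n V + a V) (fun V => (h V).2)
    have e1 : ((fun V => g V ^ n V) * (fun V => g V ^ a V) : ι → G)
        = fun V => g V ^ (n V + a V) := by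
      funext V; simp [pow_add]
    have e2 : ((fun V => g V ^ (n V + T V)) * (fun V => g V ^ a V) : ι → G)
        = fun V => g V ^ (n V + a V + T V) := by
      funext V
      simp only [Pi.mul_apply]
      rw [← pow_add]; congr 1; ring
    rw [← e1, ← e2] at this
    exact this

lemma prod_map_pow {ι : Type*} (g : ι → G) (H : List (ι → ℕ)) (V : ι) :
    (H.map (fun (f : ι → ℕ) => (fun V => g V ^ f V : ι → G))).prod V
      = g V ^ (H.map (fun f => f V)).sum := by
  induction H with
  | nil => simp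
  | cons a l ih =>
    simp only [List.map_cons, List.prod_cons, List.sum_cons, Pi.mul_apply, pow_add]
    rw [ih]

/-- **Topological completion of cubes.** -/
theorem Setup.completion [T2Space G] (h : Setup G Γ C S k) {U : Set G} (hU : U ∈ 𝓝 (1 : G)) :
    ∃ V ∈ 𝓝 (1 : G), ∀ (g : G) (hs : List ℕ) (n T : ℕ), hs.length = k →
      OffQ (fun m => ∃ v ∈ V, ∃ γ ∈ Γ, g ^ (m + T) = v * g ^ m * γ) hs n →
      ∃ u ∈ U, ∃ γ ∈ Γ, g ^ (n + hs.sum + T) = u * g ^ (n + hs.sum) * γ := by
  by_contra hcon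
  push Not at hcon
  have hcon' : ∀ V : {V : Set G // V ∈ 𝓝 (1 : G)}, ∃ (g : G) (hs : List ℕ) (n T : ℕ),
      hs.length = k ∧ OffQ (fun m => ∃ v ∈ V.1, ∃ γ ∈ Γ, g ^ (m + T) = v * g ^ m * γ) hs n ∧
      ∀ u ∈ U, ∀ γ ∈ Γ, g ^ (n + hs.sum + T) ≠ u * g ^ (n + hs.sum) * γ :=
    fun V => by
      obtain ⟨g, hs, n, T, h1, h2, h3⟩ := hcon V.1 V.2
      exact ⟨g, hs, n, T, h1, h2, h3⟩
  choose g hs n T hlen hoff hbad using hcon'
  let ι := {V : Set G // V ∈ 𝓝 (1 : G)}
  let l : Filter ι := comap (fun V : ι => (V : Set G)) (𝓝 (1 : G)).smallSets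
  have hl : l.NeBot := by
    rw [comap_neBot_iff]
    intro t ht
    obtain ⟨s, hs, hst⟩ := ((hasBasis_smallSets (𝓝 (1 : G))).mem_iff).1 ht
    exact ⟨⟨s, hs⟩, hst (Set.mem_powerset le_rfl)⟩
  have htend : ∀ e : ι → G, (∀ V : ι, e V ∈ V.1) → Tendsto e l (𝓝 1) := by
    intro e he W hW
    rw [Filter.mem_map]
    refine Filter.mem_comap.2 ⟨𝒫 W, ?_, ?_⟩
    · exact ((hasBasis_smallSets (𝓝 (1 : G))).mem_iff).2 ⟨W, hW, le_rfl⟩
    · intro V hV
      exact hV (he V)
  obtain ⟨H, hH, hH'⟩ := exists_list k hs hlen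
  have hM : Filt (fun n => MM l (NF G k n)) := MM_filt l (NF_filt h.nil)
  have hM1 : (fun n => MM l (NF G k n)) 1 = ⊤ := by
    rw [eq_top_iff]
    intro x _
    change ∀ᶠ V in l, x V ∈ NF G k 1
    refine Eventually.of_forall fun V => ?_
    rw [NF_one h.nil]; trivial
  have hrel : ∀ n : ι → ℕ, (∀ V : ι, ∃ v ∈ V.1, ∃ γ ∈ Γ, g V ^ (n V + T V) = v * g V ^ n V * γ) →
      Rel (OO G l) (GG ι Γ) (fun V => g V ^ n V) (fun V => g V ^ (n V + T V)) := by
    intro n hn
    choose v hv γ hγ e using hn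
    exact ⟨v, htend v hv, γ, hγ, funext fun V => e V⟩
  set L := H.map (fun (f : ι → ℕ) => (fun V => g V ^ f V : ι → G)) with hL
  have hLlen : L.length = k := by rw [hL, List.length_map, hH]
  have h2 := off2_lcube (OO G l) (GG ι Γ) g T _ hrel H n (fun V => by rw [hH' V]; exact hoff V)
  obtain ⟨e, d, he, hd, hed⟩ := h2.exists
  have h3 := hk_lcube hM hM1 L (fun V => g V ^ n V)
  have h4 := h3.2 (fun V => g V ^ T V)
  have e2 : ((fun V => g V ^ n V) * (fun V => g V ^ T V) : ι → G)
      = fun V => g V ^ (n V + T V) := by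
    funext V; simp [pow_add]
  rw [e2] at h4
  obtain ⟨a, ha, b, hb, m, hm, hfin⟩ :=
    Pool.Agent.Lib.MP_1b26ca_an.completion hM (h.key l) L.length h3.1 h4 he hd hed
  rw [hLlen, Nat.add_comm 1 k, NF_succ_eq_bot] at hm
  have ha' : ∀ᶠ V in l, a V ∈ U := ha hU
  obtain ⟨V, hV1, hV2⟩ := (ha'.and hm).exists
  refine hbad V (a V) hV1 (b V) (hb V) ?_
  rw [Subgroup.mem_bot] at hV2
  have h5 := congrFun hfin V
  rw [top_lcube, top_lcube] at h5
  simp only [Pi.mul_apply] at h5
  rw [hL, prod_map_pow, hH' V, hV2, mul_one, ← pow_add, ← pow_add] at h5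
  rw [← h5]
  congr 1
  ring

end setup

end Pool.Agent.Lib.MP_1b26ca_an
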