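import Mathlib
import Pool.Agent.Lib.MP_1b26ca_an.PRec
import Pool.Agent.Lib.MP_1b26ca_an.LieNSS

/-!
# Reduction of a nilsystem to a compactly generated one
-/

set_option autoImplicit false
set_option linter.unusedSectionVars false

namespace Pool.Agent.Lib.MP_1b26ca_an

open Subgroup Topology Filter
open scoped Manifold ContDiff

section lc

variable {G : Type*} [Group G] [TopologicalSpace G] [IsTopologicalGroup G] [T2Space G]

lemma finite_inter (Γ : Subgroup G) [DiscreteTopology Γ] {K : Set G} (hK : IsCompact K) :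
    ((Γ : Set G) ∩ K).Finite := by
  have hcl : IsClosed (Γ : Set G) := Subgroup.isClosed_of_discrete
  have hd : IsDiscrete (Γ : Set G) := isDiscrete_iff_discreteTopology.mpr ‹_›
  exact (hK.inter_left hcl).finite (hd.mono Set.inter_subset_left)

lemma finite_cover (Γ : Subgroup G) [CompactSpace (G ⧸ Γ)] {K : Set G} (hK : K ∈ 𝓝 (1 : G)) :
    ∃ t : Finset G, ∀ g : G, ∃ y ∈ t, ∃ κ ∈ K, ∃ γ ∈ Γ, g = κ * y * γ := by
  classical
  have hop : IsOpenMap (QuotientGroup.mk : G → G ⧸ Γ) := QuotientGroup.isOpenMap_coe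
  obtain ⟨t, _, ht⟩ := (isCompact_univ (X := G ⧸ Γ)).elim_nhds_subcover
    (fun z => QuotientGroup.mk '' ((fun a => a * z.out) '' K)) (by
      intro z _
      have h1 : (fun a => a * z.out) '' K ∈ 𝓝 (z.out) := by
        have := (isOpenMap_mul_right z.out).image_mem_nhds hK
        rwa [one_mul] at this
      have h2 := hop.image_mem_nhds h1
      rwa [QuotientGroup.out_eq'] at h2)
  refine ⟨t.image (fun z => z.out), fun g => ?_⟩
  have hg := ht (Set.mem_univ (QuotientGroup.mk g))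
  obtain ⟨z, hz⟩ := Set.mem_iUnion.1 hg
  obtain ⟨hzt, a, ⟨κ, hκ, rfl⟩, ha⟩ := Set.mem_iUnion.1 hz
  rw [QuotientGroup.eq] at ha
  exact ⟨z.out, Finset.mem_image_of_mem _ hzt, κ, hκ, _, ha, by group⟩

/-- The reduction to a compactly generated open subgroup. -/
lemma exists_setup [LocallyCompactSpace G]
    (hnss : ∃ V ∈ 𝓝 (1 : G), ∀ H : Subgroup G, (H : Set G) ⊆ V → H = ⊥)
    (Γ : Subgroup G) [DiscreteTopology Γ] [CompactSpace (G ⧸ Γ)] {k : ℕ}
    (hk : (⊤ : Subgroup G).lowerCentralSeries k = ⊥) (g : G) :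
    ∃ (G' : Subgroup G) (C S : Set G'), g ∈ G' ∧ IsOpen (G' : Set G) ∧
      Setup G' (Γ.subgroupOf G') C S k := by
  classical
  obtain ⟨K, hK, hK1⟩ := exists_compact_mem_nhds (1 : G)
  obtain ⟨t, ht⟩ := finite_cover Γ hK1
  set G' : Subgroup G := Subgroup.closure (K ∪ {g}) with hG'
  have hKG : ∀ x ∈ K, x ∈ G' := fun x hx => Subgroup.subset_closure (Or.inl hx)
  have hgG : g ∈ G' := Subgroup.subset_closure (Or.inr rfl)
  have hopen : IsOpen (G' : Set G) := G'.isOpen_of_mem_nhds (mem_of_superset hK1 hKG)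
  have hclosed : IsClosed (G' : Set G) := G'.isClosed_of_isOpen hopen
  -- representatives in `G'`
  have hy : ∀ y : G, ∃ y' : G, y' ∈ G' ∧ ((∃ γ ∈ Γ, y * γ ∈ G') → ∃ γ ∈ Γ, y' = y * γ) := by
    intro y
    by_cases h : ∃ γ ∈ Γ, y * γ ∈ G'
    · obtain ⟨γ, hγ, h1⟩ := h
      exact ⟨y * γ, h1, fun _ => ⟨γ, hγ, rfl⟩⟩
    · exact ⟨1, G'.one_mem, fun h' => absurd h' h⟩
  choose Y hYG hY using hy
  set C : Set G := ⋃ y ∈ t, (fun κ => κ * Y y) '' K with hC
  have hCc : IsCompact C := t.isCompact_biUnion fun y _ => hK.image (by fun_prop)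
  have hCG : ∀ c ∈ C, c ∈ G' := by
    intro c hc
    obtain ⟨y, hc⟩ := Set.mem_iUnion.1 hc
    obtain ⟨_, κ, hκ, rfl⟩ := Set.mem_iUnion.1 hc
    exact G'.mul_mem (hKG κ hκ) (hYG y)
  have hcov : ∀ a ∈ G', ∃ c ∈ C, ∃ γ ∈ Γ ⊓ G', a = c * γ := by
    intro a ha
    obtain ⟨y, hyt, κ, hκ, γ, hγ, e⟩ := ht a
    have h1 : y * γ ∈ G' := by
      have : y * γ = κ⁻¹ * a := by rw [e]; group
      rw [this]
      exact G'.mul_mem (G'.inv_mem (hKG κ hκ)) ha
    obtain ⟨γ', hγ', e'⟩ := hY y ⟨γ, hγ, h1⟩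
    have hc : κ * Y y ∈ C := Set.mem_iUnion.2 ⟨y, Set.mem_iUnion.2 ⟨hyt, κ, hκ, rfl⟩⟩
    refine ⟨κ * Y y, hc, γ'⁻¹ * γ, ⟨Γ.mul_mem (Γ.inv_mem hγ') hγ, ?_⟩, ?_⟩
    · have : γ'⁻¹ * γ = (κ * Y y)⁻¹ * a := by rw [e, e']; group
      rw [this]
      exact G'.mul_mem (G'.inv_mem (hCG _ hc)) ha
    · rw [e, e']; group
  -- finite generation
  set D : Set G := (K ∪ {g}) ∪ (fun x => x⁻¹) '' (K ∪ {g}) with hD
  have hDc : IsCompact D := by
    have : IsCompact (K ∪ {g}) := hK.union isCompact_singleton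
    exact this.union (this.image continuous_inv)
  have hDG : ∀ d ∈ D, d ∈ G' := by
    rintro d (hd | ⟨d, hd, rfl⟩)
    · exact Subgroup.subset_closure hd
    · exact G'.inv_mem (Subgroup.subset_closure hd)
  set L : Set G := (fun q : (G × G) × G => q.1.1⁻¹ * q.2 * q.1.2) '' ((C ×ˢ C) ×ˢ D) with hL
  have hLc : IsCompact L := ((hCc.prod hCc).prod hDc).image (by fun_prop)
  set S : Set G := (Γ : Set G) ∩ (L ∪ C) with hS
  have hSfin : S.Finite := finite_inter Γ (hLc.union hCc)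
  have hSG : ∀ s ∈ S, s ∈ Γ ⊓ G' := by
    rintro s ⟨hs, ⟨⟨⟨c, c'⟩, d⟩, ⟨⟨hc, hc'⟩, hd⟩, rfl⟩ | hs'⟩
    · exact ⟨hs, G'.mul_mem (G'.mul_mem (G'.inv_mem (hCG c hc)) (hDG d hd)) (hCG c' hc')⟩
    · exact ⟨hs, hCG _ hs'⟩
  have hgen : Subgroup.closure S = Γ ⊓ G' := by
    apply le_antisymm
    · rw [Subgroup.closure_le]
      exact hSG
    · -- every element of `G'` is in `C Δ`
      have hstep : ∀ d ∈ D, ∀ c ∈ C, ∃ c' ∈ C, ∃ s ∈ S, d * c = c' * s := by
        intro d hd c hc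
        obtain ⟨c', hc', γ, hγ, e⟩ := hcov (d * c) (G'.mul_mem (hDG d hd) (hCG c hc))
        refine ⟨c', hc', γ, ⟨hγ.1, Or.inl ⟨((c', c), d), ⟨⟨hc', hc⟩, hd⟩, ?_⟩⟩, e⟩
        have : γ = c'⁻¹ * (d * c) := by rw [e]; group
        rw [this]
        simp only [mul_assoc]
      obtain ⟨c0, hc0, -⟩ := hcov 1 G'.one_mem
      have hall : ∀ a ∈ G', ∀ c ∈ C, ∃ c' ∈ C, ∃ s ∈ Subgroup.closure S, a * c = c' * s := by
        intro a ha
        induction ha using Subgroup.closure_induction'' with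
        | mem x hx =>
          intro c hc
          obtain ⟨c', hc', s, hs, e⟩ := hstep x (Or.inl hx) c hc
          exact ⟨c', hc', s, Subgroup.subset_closure hs, e⟩
        | inv_mem x hx =>
          intro c hc
          obtain ⟨c', hc', s, hs, e⟩ := hstep x⁻¹ (Or.inr ⟨x, hx, rfl⟩) c hc
          exact ⟨c', hc', s, Subgroup.subset_closure hs, e⟩
        | one =>
          intro c hc
          exact ⟨c, hc, 1, Subgroup.one_mem _, by simp⟩
        | mul x y _ _ hx hy =>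
          intro c hc
          obtain ⟨c', hc', s, hs, e⟩ := hy c hc
          obtain ⟨c'', hc'', s', hs', e'⟩ := hx c' hc'
          refine ⟨c'', hc'', s' * s, Subgroup.mul_mem _ hs' hs, ?_⟩
          rw [mul_assoc, e, ← mul_assoc, e', mul_assoc]
      rintro γ ⟨hγ, hγG⟩
      obtain ⟨c, hc, s, hs, e⟩ := hall (γ * c0⁻¹) (G'.mul_mem hγG (G'.inv_mem (hCG c0 hc0))) c0 hc0
      rw [inv_mul_cancel_right] at e
      have hsΓ : s ∈ Γ := by
        have : Subgroup.closure S ≤ Γ := by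
          rw [Subgroup.closure_le]
          exact fun s hs => (hSG s hs).1
        exact this hs
      have hcS : c ∈ S := by
        refine ⟨?_, Or.inr hc⟩
        have : c = γ * s⁻¹ := by rw [e]; group
        rw [this]
        exact Γ.mul_mem hγ (Γ.inv_mem hsΓ)
      rw [e]
      exact Subgroup.mul_mem _ (Subgroup.subset_closure hcS) hs
  refine ⟨G', Subtype.val ⁻¹' C, Subtype.val ⁻¹' S, hgG, hopen, ?_⟩
  refine ⟨?_, ?_, ?_, ?_, ?_, ?_, ?_⟩
  · exact hclosed.isClosedEmbedding_subtypeVal.isCompact_preimage hCc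
  · exact hSfin.preimage Subtype.val_injective.injOn
  · apply Subgroup.map_injective G'.subtype_injective
    rw [MonoidHom.map_closure, Subgroup.subgroupOf_map_subtype, ← hgen]
    congr 1
    ext s
    constructor
    · rintro ⟨s, hs, rfl⟩
      exact hs
    · intro hs
      exact ⟨⟨s, (hSG s hs).2⟩, hs, rfl⟩
  · rintro ⟨a, ha⟩
    obtain ⟨c, hc, γ, hγ, e⟩ := hcov a ha
    exact ⟨⟨c, hCG c hc⟩, hc, ⟨γ, hγ.2⟩, hγ.1, Subtype.ext e⟩
  · obtain ⟨V, hV, h1⟩ := hnss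
    refine ⟨Subtype.val ⁻¹' V, ?_, fun H hH => ?_⟩
    · exact continuous_subtype_val.continuousAt.preimage_mem_nhds hV
    · have h2 := h1 (H.map G'.subtype) (by
        rintro _ ⟨h, hh, rfl⟩
        exact hH hh)
      exact (Subgroup.map_eq_bot_iff_of_injective H G'.subtype_injective).1 h2
  · have hd : IsDiscrete (Γ : Set G) := isDiscrete_iff_discreteTopology.mpr ‹_›
    obtain ⟨V, hV, hVΓ⟩ : ∃ (V : Set G), V ∈ 𝓝 (1 : G) ∧ V ∩ (Γ : Set G) = {1} :=
      nhds_inter_eq_singleton_of_mem_discrete hd Γ.one_mem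
    refine ⟨Subtype.val ⁻¹' V, continuous_subtype_val.continuousAt.preimage_mem_nhds hV, ?_⟩
    intro γ hγ hγV
    have : (γ : G) ∈ V ∩ (Γ : Set G) := ⟨hγV, hγ⟩
    rw [hVΓ, Set.mem_singleton_iff] at this
    exact Subtype.ext this
  · apply Subgroup.lowerCentralSeries_eq_bot_iff_upperCentralSeries_eq_top.1
    have h2 := Subgroup.map_lowerCentralSeries (⊤ : Subgroup G') G'.subtype k
    have h3 : ((⊤ : Subgroup G').map G'.subtype).lowerCentralSeries k
        ≤ (⊤ : Subgroup G).lowerCentralSeries k := Subgroup.lowerCentralSeries_mono k le_top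
    rw [hk, ← h2] at h3
    rw [eq_bot_iff]
    intro x hx
    have := h3 (Subgroup.mem_map_of_mem G'.subtype hx)
    rw [Subgroup.mem_bot] at this
    rw [Subgroup.mem_bot]
    exact Subtype.ext this

lemma AllQ.imp {P Q : ℕ → Prop} (h : ∀ m, P m → Q m) : ∀ (hs : List ℕ) (n : ℕ),
    AllQ P hs n → AllQ Q hs n
  | [], n, hn => h n hn
  | a :: l, n, hn => ⟨AllQ.imp h l n hn.1, AllQ.imp h l (n + a) hn.2⟩

lemma OffQ.imp {P Q : ℕ → Prop} (h : ∀ m, P m → Q m) : ∀ (hs : List ℕ) (n : ℕ),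
    OffQ P hs n → OffQ Q hs n
  | [], _, _ => trivial
  | a :: l, n, hn => ⟨AllQ.imp h l n hn.1, OffQ.imp h l (n + a) hn.2⟩

lemma lc_completion [LocallyCompactSpace G]
    (hnss : ∃ V ∈ 𝓝 (1 : G), ∀ H : Subgroup G, (H : Set G) ⊆ V → H = ⊥)
    (Γ : Subgroup G) [DiscreteTopology Γ] [CompactSpace (G ⧸ Γ)] {k : ℕ}
    (hk : (⊤ : Subgroup G).lowerCentralSeries k = ⊥) (g : G) {U : Set G} (hU : U ∈ 𝓝 (1 : G)) :
    ∃ V ∈ 𝓝 (1 : G), ∀ (hs : List ℕ) (n T : ℕ), hs.length = k →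
      OffQ (fun m => ∃ v ∈ V, ∃ γ ∈ Γ, g ^ (m + T) = v * g ^ m * γ) hs n →
      ∃ u ∈ U, ∃ γ ∈ Γ, g ^ (n + hs.sum + T) = u * g ^ (n + hs.sum) * γ := by
  obtain ⟨G', C, S, hgG, hopen, hsetup⟩ := exists_setup hnss Γ hk g
  have hU' : (Subtype.val ⁻¹' U : Set G') ∈ 𝓝 (1 : G') :=
    continuous_subtype_val.continuousAt.preimage_mem_nhds hU
  obtain ⟨V, hV, h1⟩ := hsetup.completion hU'
  refine ⟨Subtype.val '' V, ?_, fun hs n T hlen hoff => ?_⟩
  · exact hopen.isOpenMap_subtype_val.image_mem_nhds hV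
  · obtain ⟨u, hu, γ, hγ, e⟩ := h1 ⟨g, hgG⟩ hs n T hlen (by
      refine OffQ.imp ?_ hs n hoff
      rintro m ⟨_, ⟨v, hv, rfl⟩, γ, hγ, e⟩
      have hγG : γ ∈ G' := by
        have : γ = ((v : G) * g ^ m)⁻¹ * g ^ (m + T) := by rw [e]; group
        rw [this]
        exact G'.mul_mem (G'.inv_mem (G'.mul_mem v.2 (G'.pow_mem hgG m))) (G'.pow_mem hgG _)
      exact ⟨v, hv, ⟨γ, hγG⟩, hγ, Subtype.ext e⟩)
    exact ⟨u, hu, γ, hγ, congrArg Subtype.val e⟩

/-- Topological completion of cubes in a nilsystem. -/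
theorem system_completion [LocallyCompactSpace G]
    (hnss : ∃ V ∈ 𝓝 (1 : G), ∀ H : Subgroup G, (H : Set G) ⊆ V → H = ⊥)
    (Γ : Subgroup G) [DiscreteTopology Γ] [CompactSpace (G ⧸ Γ)] {k : ℕ}
    (hk : (⊤ : Subgroup G).lowerCentralSeries k = ⊥) (g : G) (x : G ⧸ Γ)
    {U : Set G} (hU : U ∈ 𝓝 (1 : G)) :
    ∃ V ∈ 𝓝 (1 : G), ∀ (hs : List ℕ) (n T : ℕ), hs.length = k →
      OffQ (fun m => ∃ v ∈ V, g ^ (m + T) • x = v • (g ^ m • x)) hs n →
      ∃ u ∈ U, g ^ (n + hs.sum + T) • x = u • (g ^ (n + hs.sum) • x) := by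
  obtain ⟨a, rfl⟩ := QuotientGroup.mk_surjective x
  have hcont : Continuous (fun v : G => a * v * a⁻¹) := by fun_prop
  have hcont' : Continuous (fun v : G => a⁻¹ * v * a) := by fun_prop
  have hU' : (fun v : G => a * v * a⁻¹) ⁻¹' U ∈ 𝓝 (1 : G) := by
    apply hcont.continuousAt.preimage_mem_nhds
    simpa using hU
  obtain ⟨V, hV, h1⟩ := lc_completion hnss Γ hk (a⁻¹ * g * a) hU'
  have hpow : ∀ m : ℕ, (a⁻¹ * g * a) ^ m = a⁻¹ * g ^ m * a := by
    intro m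
    induction m with
    | zero => simp
    | succ m ih => rw [pow_succ, ih, pow_succ]; group
  refine ⟨(fun v : G => a⁻¹ * v * a) ⁻¹' V, ?_, fun hs n T hlen hoff => ?_⟩
  · apply hcont'.continuousAt.preimage_mem_nhds
    simpa using hV
  · obtain ⟨u, hu, γ, hγ, e⟩ := h1 hs n T hlen (by
      refine OffQ.imp ?_ hs n hoff
      rintro m ⟨v, hv, e⟩
      have e' : (QuotientGroup.mk (g ^ (m + T) * a) : G ⧸ Γ) = QuotientGroup.mk (v * (g ^ m * a)) := e
      rw [eq_comm, QuotientGroup.eq] at e'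
      refine ⟨a⁻¹ * v * a, hv, _, e', ?_⟩
      rw [hpow, hpow]
      group)
    refine ⟨a * u * a⁻¹, hu, ?_⟩
    change (QuotientGroup.mk (g ^ (n + hs.sum + T) * a) : G ⧸ Γ)
      = QuotientGroup.mk (a * u * a⁻¹ * (g ^ (n + hs.sum) * a))
    rw [eq_comm, QuotientGroup.eq]
    rw [hpow, hpow] at e
    have : (a * u * a⁻¹ * (g ^ (n + hs.sum) * a))⁻¹ * (g ^ (n + hs.sum + T) * a) = γ := by
      have e2 : g ^ (n + hs.sum + T) * a = a * (a⁻¹ * g ^ (n + hs.sum + T) * a) := by group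
      rw [e2, e]
      group
    rw [this]
    exact hγ

end lc

end Pool.Agent.Lib.MP_1b26ca_an
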