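import Mathlib
import Pool.Agent.Lib.MP_1b26ca_an.LieRed
import Pool.Agent.Lib.MP_1b26ca_an.Defs

/-!
# The obstruction to interpolation
-/

set_option autoImplicit false
set_option linter.unusedSectionVars false

namespace Pool.Agent.Lib.MP_1b26ca_an

open Subgroup Topology Filter
open scoped Manifold ContDiff

/-- The combinatorial obstruction. -/
def Conf (k : ℕ) (A B : Set ℕ) : Prop :=
  ∀ (r : ℕ) (c : ℕ → Fin r), ∃ (T n : ℕ) (hs : List ℕ), hs.length = k ∧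
    OffQ (fun m => c m = c (m + T)) hs n ∧ n + hs.sum ∈ A ∧ n + hs.sum + T ∈ B

section lc

variable {G : Type} [Group G] [TopologicalSpace G] [IsTopologicalGroup G] [T2Space G]

lemma unif_cont (Γ : Subgroup G) [CompactSpace (G ⧸ Γ)] {F : G ⧸ Γ → ℂ} (hF : Continuous F)
    {ε : ℝ} (hε : 0 < ε) :
    ∃ U ∈ 𝓝 (1 : G), ∀ u ∈ U, ∀ y : G ⧸ Γ, ‖F (u • y) - F y‖ < ε := by
  have hc : Continuous (fun p : G × (G ⧸ Γ) => ‖F (p.1 • p.2) - F p.2‖) := by fun_prop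
  have hopen : IsOpen {p : G × (G ⧸ Γ) | ‖F (p.1 • p.2) - F p.2‖ < ε} :=
    isOpen_lt hc continuous_const
  have hsub : ({1} : Set G) ×ˢ (Set.univ : Set (G ⧸ Γ)) ⊆
      {p : G × (G ⧸ Γ) | ‖F (p.1 • p.2) - F p.2‖ < ε} := by
    rintro ⟨u, y⟩ ⟨hu, _⟩
    rw [Set.mem_singleton_iff] at hu
    dsimp only at hu
    subst hu
    simpa using hε
  obtain ⟨u, v, hu, _, hu', hv', huv⟩ :=
    generalized_tube_lemma isCompact_singleton isCompact_univ hopen hsub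
  exact ⟨u, hu.mem_nhds (hu' rfl), fun a ha y => huv (Set.mk_mem_prod ha (hv' trivial))⟩

lemma exists_coloring (Γ : Subgroup G) [CompactSpace (G ⧸ Γ)] {V : Set G} (hV : V ∈ 𝓝 (1 : G)) :
    ∃ (r : ℕ) (c : G ⧸ Γ → Fin r), ∀ y z, c y = c z → ∃ v ∈ V, y = v • z := by
  classical
  obtain ⟨W, hW, hWV⟩ : ∃ W ∈ 𝓝 (1 : G), ∀ a ∈ W, ∀ b ∈ W, a * b⁻¹ ∈ V := by
    have hc : Continuous (fun p : G × G => p.1 * p.2⁻¹) := by fun_prop
    have h2 : (fun p : G × G => p.1 * p.2⁻¹) ⁻¹' V ∈ 𝓝 ((1 : G), (1 : G)) := by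
      apply hc.continuousAt.preimage_mem_nhds
      simpa using hV
    rw [nhds_prod_eq] at h2
    obtain ⟨A, hA, B, hB, hAB⟩ := Filter.mem_prod_iff.1 h2
    exact ⟨A ∩ B, Filter.inter_mem hA hB, fun a ha b hb => hAB (Set.mk_mem_prod ha.1 hb.2)⟩
  have hop : IsOpenMap (QuotientGroup.mk : G → G ⧸ Γ) := QuotientGroup.isOpenMap_coe
  obtain ⟨t, _, ht⟩ := (isCompact_univ (X := G ⧸ Γ)).elim_nhds_subcover
    (fun z => (fun w : G => w • z) '' W) (by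
      intro z _
      obtain ⟨a, rfl⟩ := QuotientGroup.mk_surjective z
      have h1 : (fun b => b * a) '' W ∈ 𝓝 a := by
        have := (isOpenMap_mul_right a).image_mem_nhds hW
        rwa [one_mul] at this
      have h2 := hop.image_mem_nhds h1
      rw [Set.image_image] at h2
      exact h2)
  have hch : ∀ y : G ⧸ Γ, ∃ z : t, ∃ w ∈ W, w • (z : G ⧸ Γ) = y := by
    intro y
    obtain ⟨z, hz⟩ := Set.mem_iUnion.1 (ht (Set.mem_univ y))
    obtain ⟨hzt, w, hw, e⟩ := Set.mem_iUnion.1 hz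
    exact ⟨⟨z, hzt⟩, w, hw, e⟩
  choose z w hw e using hch
  refine ⟨t.card, fun y => t.equivFin (z y), fun y y' h => ?_⟩
  have hz : z y = z y' := t.equivFin.injective h
  refine ⟨w y * (w y')⁻¹, hWV _ (hw y) _ (hw y'), ?_⟩
  have h3 : (w y')⁻¹ • y' = (z y' : G ⧸ Γ) := by
    rw [inv_smul_eq_iff]; exact (e y').symm
  rw [mul_smul, h3, ← hz]
  exact (e y).symm

end lc

/-- The obstruction: the indicator function of `B` cannot be interpolated. -/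
theorem not_interp {k : ℕ} {E A B : Set ℕ} (hA : A ⊆ E) (hB : B ⊆ E) (hAB : Disjoint A B)
    (h0 : 0 ∉ E) (hconf : Conf k A B) : ¬ IsInterpolationSet k {m : ℕ+ | (m : ℕ) ∈ E} := by
  classical
  intro hint
  obtain ⟨ψ, hψ, hψE⟩ := hint (fun m => if ((m : ℕ+) : ℕ) ∈ B then 1 else 0)
    ⟨1, fun m => by split_ifs <;> simp⟩
  obtain ⟨φ, ⟨E', _, _, _, G, _, _, _, _, _, _, hk, Γ, _, _, g, x, F, hF, hφ⟩, hφψ⟩ :=
    hψ (1 / 8) (by norm_num)
  have htop : IsTopologicalGroup G := topologicalGroup_of_lieGroup 𝓘(ℝ, E') ∞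
  have hloc : LocallyCompactSpace G := Manifold.locallyCompact_of_finiteDimensional 𝓘(ℝ, E')
  obtain ⟨U, hU, hU1⟩ := unif_cont Γ hF (ε := 1 / 2) (by norm_num)
  obtain ⟨V, hV, hV1⟩ := system_completion (lie_nss E' G) Γ hk g x hU
  obtain ⟨r, c, hc⟩ := exists_coloring Γ hV
  obtain ⟨T, n, hs, hlen, hoff, hnA, hnB⟩ := hconf r (fun m => c (g ^ m • x))
  obtain ⟨u, hu, e⟩ := hV1 hs n T hlen (by
    refine OffQ.imp ?_ hs n hoff
    intro m hm
    exact hc _ _ hm.symm)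
  have h1 := hU1 u hu (g ^ (n + hs.sum) • x)
  rw [← e] at h1
  set a := n + hs.sum with ha
  have hapos : 0 < a := Nat.pos_of_ne_zero fun h => h0 (h ▸ hA hnA)
  have hbpos : 0 < a + T := by omega
  have haB : a ∉ B := fun h => Set.disjoint_left.1 hAB hnA h
  have e1 := hψE ⟨⟨a, hapos⟩, hA hnA⟩
  have e2 := hψE ⟨⟨a + T, hbpos⟩, hB hnB⟩
  simp only [PNat.mk_coe, haB, hnB, if_true, if_false] at e1 e2
  have h2 := hφψ ⟨a, hapos⟩
  have h3 := hφψ ⟨a + T, hbpos⟩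
  rw [e1, hφ] at h2
  rw [e2, hφ] at h3
  simp only [PNat.mk_coe] at h2 h3
  have h4 : ‖(1 : ℂ)‖ ≤ ‖1 - F (g ^ (a + T) • x)‖ + ‖F (g ^ (a + T) • x) - F (g ^ a • x)‖
      + ‖0 - F (g ^ a • x)‖ := by
    have : (1 : ℂ) = (1 - F (g ^ (a + T) • x)) + (F (g ^ (a + T) • x) - F (g ^ a • x))
      - (0 - F (g ^ a • x)) := by ring
    calc ‖(1 : ℂ)‖ = ‖(1 - F (g ^ (a + T) • x)) + (F (g ^ (a + T) • x) - F (g ^ a • x))
      - (0 - F (g ^ a • x))‖ := by rw [← this]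
      _ ≤ ‖(1 - F (g ^ (a + T) • x)) + (F (g ^ (a + T) • x) - F (g ^ a • x))‖
        + ‖0 - F (g ^ a • x)‖ := norm_sub_le _ _
      _ ≤ _ := by gcongr; exact norm_add_le _ _
  rw [norm_one] at h4
  linarith

end Pool.Agent.Lib.MP_1b26ca_an
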