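import Mathlib
import Pool.Agent.Lib.MP_1b26ca_an.Neg

/-!
# The combinatorial construction
-/

set_option autoImplicit false

namespace Pool.Agent.Lib.MP_1b26ca_an

open Topology Filter

/-- Finite van der Waerden theorem. -/
lemma vdw (r N : ℕ) : ∃ W : ℕ, ∀ c : ℕ → Fin r, ∃ i t : ℕ, i ≤ W ∧ t ≤ W ∧ 1 ≤ t ∧
    ∀ s s', s ≤ N → s' ≤ N → c (i + t * s) = c (i + t * s') := by
  classical
  obtain ⟨ι, _inst, hι⟩ :=
    Combinatorics.Line.exists_mono_in_high_dimension (Finset.range (N + 1)) (Fin r)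
  refine ⟨Fintype.card ι * (N + 1), fun C => ?_⟩
  specialize hι fun v => C <| ∑ i, (v i : ℕ)
  obtain ⟨l, c, hl⟩ := hι
  set s : Finset ι := {i | l.idxFun i = none} with hs
  set b : ℕ := ∑ i ∈ sᶜ, ((l.idxFun i).map (fun m => (m : ℕ))).getD 0 with hb
  have key : ∀ x : Finset.range (N + 1), C (b + s.card * x) = c := by
    intro x
    rw [← hl x]
    congr 1
    rw [← Finset.sum_add_sum_compl s, add_comm]
    congr 1
    · rw [← smul_eq_mul, ← Finset.sum_const]
      apply Finset.sum_congr rfl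
      intro i hi
      rw [hs, Finset.mem_filter] at hi
      rw [l.apply_none _ _ hi.right]
    · apply Finset.sum_congr rfl
      intro i hi
      rw [hs, Finset.compl_filter, Finset.mem_filter] at hi
      obtain ⟨y, hy⟩ := Option.ne_none_iff_exists.mp hi.right
      simp [← hy, Option.map_some, Option.getD]
  refine ⟨b, s.card, ?_, ?_, ?_, ?_⟩
  · calc b ≤ ∑ i ∈ sᶜ, (N + 1) := by
          refine Finset.sum_le_sum fun i _ => ?_
          cases h : l.idxFun i with
          | none => simp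
          | some y =>
            exact (Finset.mem_range.1 y.2).le
      _ = sᶜ.card * (N + 1) := by rw [Finset.sum_const, smul_eq_mul]
      _ ≤ Fintype.card ι * (N + 1) := by
          gcongr
          exact Finset.card_le_univ _
  · calc s.card ≤ Fintype.card ι := Finset.card_le_univ _
      _ ≤ Fintype.card ι * (N + 1) := by nlinarith
  · refine Finset.card_pos.mpr ⟨l.proper.choose, ?_⟩
    rw [hs, Finset.mem_filter]
    exact ⟨Finset.mem_univ _, l.proper.choose_spec⟩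
  · intro x y hx hy
    have h1 := key ⟨x, Finset.mem_range.2 (by omega)⟩
    have h2 := key ⟨y, Finset.mem_range.2 (by omega)⟩
    simp only at h1 h2
    rw [h1, h2]

lemma allQ_map {Q : ℕ → Prop} (i t : ℕ) : ∀ (hs : List ℕ) (n : ℕ),
    AllQ (fun s => Q (i + t * s)) hs n → AllQ Q (hs.map (fun h => t * h)) (i + t * n)
  | [], _, h => h
  | a :: l, n, h => by
    refine ⟨allQ_map i t l n h.1, ?_⟩
    have := allQ_map i t l (n + a) h.2
    rw [mul_add, ← add_assoc] at this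
    exact this

lemma offQ_map {Q : ℕ → Prop} (i t : ℕ) : ∀ (hs : List ℕ) (n : ℕ),
    OffQ (fun s => Q (i + t * s)) hs n → OffQ Q (hs.map (fun h => t * h)) (i + t * n)
  | [], _, _ => trivial
  | a :: l, n, h => by
    refine ⟨allQ_map i t l n h.1, ?_⟩
    have := offQ_map i t l (n + a) h.2
    rw [mul_add, ← add_assoc] at this
    exact this

lemma allQ_of_le {Q : ℕ → Prop} : ∀ (hs : List ℕ) (n N : ℕ), n + hs.sum ≤ N →
    (∀ s ≤ N, Q s) → AllQ Q hs n
  | [], n, N, hN, h => h n (by simpa using hN)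
  | a :: l, n, N, hN, h => by
    rw [List.sum_cons] at hN
    exact ⟨allQ_of_le l n N (by omega) h, allQ_of_le l (n + a) N (by omega) h⟩

lemma sum_map_mul (t : ℕ) (hs : List ℕ) : (hs.map (fun h => t * h)).sum = t * hs.sum := by
  induction hs with
  | nil => simp
  | cons a l ih => simp [ih, mul_add]

/-- approximate interpolation by `α h ^ k` modulo `1` -/
def IntP (k : ℕ) (δ : ℝ) (E : Set ℕ) : Prop :=
  ∀ φ : ℕ → ℝ, ∃ α : ℝ, ∀ h ∈ E, ∃ j : ℤ, |α * (h : ℝ) ^ k - φ h - j| ≤ δ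

/-- The combinatorial obstruction, with bounds. -/
def ConfN (k : ℕ) (A B : Set ℕ) : Prop :=
  ∀ r : ℕ, ∃ N : ℕ, ∀ c : ℕ → Fin r, ∃ (T n : ℕ) (hs : List ℕ), hs.length = k ∧
    OffQ (fun m => c m = c (m + T)) hs n ∧ n + hs.sum ∈ A ∧ n + hs.sum + T ∈ B ∧
    n + hs.sum + T ≤ N

lemma ConfN.conf {k : ℕ} {A B : Set ℕ} (h : ConfN k A B) : Conf k A B := by
  intro r c
  obtain ⟨N, hN⟩ := h r
  obtain ⟨T, n, hs, h1, h2, h3, h4, -⟩ := hN c
  exact ⟨T, n, hs, h1, h2, h3, h4⟩

/-- The block lemma. -/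
lemma block {k : ℕ} {δ ε : ℝ} (hε : 0 < ε) {E : Set ℕ} (hE : IntP k δ E)
    (t : ℕ) (ht : 1 ≤ t) (n : ℕ) :
    ∃ Q : ℕ, 1 ≤ Q ∧ ∀ b : ℕ, Q ≤ b → Q ∣ b → ∀ φ : ℕ → ℝ, ∃ β : ℝ, |β| ≤ 1 / b ∧
      ∀ s ∈ E, s ≤ n → ∃ j : ℤ, |β * ((b + t * s : ℕ) : ℝ) ^ (k + 1) - φ s - j| ≤ δ + ε := by
  obtain ⟨q, hq⟩ := exists_nat_gt (2 * (n : ℝ) ^ k / ε)
  obtain ⟨p, hp⟩ := exists_nat_gt (2 * (t * (n : ℝ) ^ (k + 1)) / ε)
  set q' := q + 1 with hq'
  refine ⟨(k + 1) * t ^ k * q' * (p + 1), ?_, ?_⟩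
  · have : 0 < (k + 1) * t ^ k * q' * (p + 1) := by positivity
    exact this
  · rintro b hb ⟨d, rfl⟩ φ
    obtain ⟨θ, hθ⟩ := hE φ
    set M : ℕ := (k + 1) * t ^ k * q' with hM
    have hMpos : 0 < M := by positivity
    set b : ℕ := M * (p + 1) * d with hb'
    have hbpos : 0 < b := lt_of_lt_of_le (by positivity) hb
    -- the numerator
    set ρ : ℝ := Int.fract θ with hρ
    set r : ℤ := ⌊ρ * q'⌋ with hr
    have hρ0 : 0 ≤ ρ := Int.fract_nonneg θ
    have hρ1 : ρ < 1 := Int.fract_lt_one θ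
    have hq'pos : (0 : ℝ) < q' := by positivity
    have hr0 : 0 ≤ r := Int.floor_nonneg.2 (by positivity)
    have hr1 : (r : ℝ) ≤ ρ * q' := Int.floor_le _
    have hr2 : ρ * q' < r + 1 := Int.lt_floor_add_one _
    have hrq : (r : ℝ) / q' ≤ 1 := by
      rw [div_le_one hq'pos]
      nlinarith
    have hrq0 : (0 : ℝ) ≤ (r : ℝ) / q' := by
      have : (0 : ℝ) ≤ r := by exact_mod_cast hr0
      positivity
    have hbR : (0 : ℝ) < b := by exact_mod_cast hbpos
    have hMR : (0 : ℝ) < M := by exact_mod_cast hMpos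
    have htR : (1 : ℝ) ≤ t := by exact_mod_cast ht
    refine ⟨r / (M * b), ?_, ?_⟩
    · have h0 : (0 : ℝ) ≤ r := by exact_mod_cast hr0
      rw [abs_of_nonneg (by positivity)]
      have h1 : (r : ℝ) ≤ M := by
        have h2 : (r : ℝ) ≤ q' := by
          rwa [div_le_one hq'pos] at hrq
        have h3 : (q' : ℝ) ≤ M := by
          rw [hM]
          push_cast
          have : (1 : ℝ) ≤ (k + 1) * t ^ k := by
            have h4 : (1 : ℝ) ≤ t ^ k := one_le_pow₀ htR
            have h5 : (1 : ℝ) ≤ k + 1 := by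
              have : (0 : ℝ) ≤ k := Nat.cast_nonneg k
              linarith
            nlinarith
          nlinarith
        linarith
      rw [div_le_div_iff₀ (by positivity) hbR]
      nlinarith
    · intro s hs hsn
      obtain ⟨j, hj⟩ := hθ s hs
      -- expansion
      obtain ⟨Y, hY⟩ := Polynomial.powAddExpansion (t * s : ℕ) b (k + 1)
      have hY' : ((b + t * s : ℕ) : ℝ) ^ (k + 1)
          = ((t : ℝ) * s) ^ (k + 1) + (k + 1) * ((t : ℝ) * s) ^ k * b + Y * (b : ℝ) ^ 2 := by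
        have := congrArg (fun z : ℕ => (z : ℝ)) hY
        rw [add_comm b]
        push_cast at this ⊢
        rw [this]
      -- integrality
      refine ⟨j - ⌊θ⌋ * (s : ℤ) ^ k + r * ((p + 1) * d : ℕ) * Y, ?_⟩
      have e1 : (r : ℝ) / (M * b) * (Y * (b : ℝ) ^ 2) = r * ((p + 1) * d : ℕ) * Y := by
        have : (b : ℝ) = M * ((p + 1) * d : ℕ) := by
          rw [hb']; push_cast; ring
        rw [this]
        have hne : ((((p + 1) * d : ℕ) : ℝ)) ≠ 0 := by
          intro h0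
          rw [h0, mul_zero] at this
          linarith
        field_simp
      have e2 : (r : ℝ) / (M * b) * ((k + 1) * ((t : ℝ) * s) ^ k * b) = r / q' * (s : ℝ) ^ k := by
        rw [hM]
        push_cast
        rw [mul_pow]
        field_simp
      have hfr : θ = ⌊θ⌋ + ρ := (Int.floor_add_fract θ).symm
      have e3 : (r : ℝ) / (M * b) * ((b + t * s : ℕ) : ℝ) ^ (k + 1) - φ s
          - ((j - ⌊θ⌋ * (s : ℤ) ^ k + r * ((p + 1) * d : ℕ) * Y : ℤ) : ℝ)
          = (θ * (s : ℝ) ^ k - φ s - j) + (-((ρ - r / q') * (s : ℝ) ^ k)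
            + (r : ℝ) / (M * b) * ((t : ℝ) * s) ^ (k + 1)) := by
        rw [hY']
        rw [mul_add, mul_add, e1, e2]
        push_cast
        have : θ * (s : ℝ) ^ k = ⌊θ⌋ * (s : ℝ) ^ k + ρ * (s : ℝ) ^ k := by
          conv_lhs => rw [hfr]
          ring
        rw [this]
        ring
      rw [e3]
      have hsn' : (s : ℝ) ≤ n := by exact_mod_cast hsn
      have b1 : |(ρ - r / q') * (s : ℝ) ^ k| ≤ ε / 2 := by
        have h1 : 0 ≤ ρ - r / q' := by
          rw [sub_nonneg, div_le_iff₀ hq'pos]; exact hr1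
        have h2 : ρ - r / q' ≤ 1 / q' := by
          rw [sub_le_iff_le_add, ← add_div, le_div_iff₀ hq'pos]
          linarith
        rw [abs_of_nonneg (by positivity)]
        have h3 : (s : ℝ) ^ k ≤ (n : ℝ) ^ k := by gcongr
        calc (ρ - r / q') * (s : ℝ) ^ k ≤ 1 / q' * (n : ℝ) ^ k := by gcongr
          _ = (n : ℝ) ^ k / q' := by ring
          _ ≤ ε / 2 := by
            rw [div_lt_iff₀ hε] at hq
            rw [div_le_iff₀ hq'pos, hq']
            push_cast
            nlinarith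
      have b2 : |(r : ℝ) / (M * b) * ((t : ℝ) * s) ^ (k + 1)| ≤ ε / 2 := by
        have h0 : (0 : ℝ) ≤ r := by exact_mod_cast hr0
        rw [abs_of_nonneg (by positivity)]
        have e4 : (r : ℝ) / (M * b) * ((t : ℝ) * s) ^ (k + 1)
            = (r / q') * (t * (s : ℝ) ^ (k + 1)) / ((k + 1) * b) := by
          rw [hM]
          push_cast
          rw [mul_pow, pow_succ (t : ℝ) k]
          field_simp
        rw [e4]
        have h3 : (s : ℝ) ^ (k + 1) ≤ (n : ℝ) ^ (k + 1) := by gcongr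
        have hb1 : ((p : ℝ) + 1) ≤ b := by
          have h5 : p + 1 ≤ b := by
            refine le_trans ?_ hb
            nlinarith
          exact_mod_cast h5
        have hk1 : (1 : ℝ) ≤ k + 1 := by
          have : (0 : ℝ) ≤ k := Nat.cast_nonneg k
          linarith
        calc (r / q') * (t * (s : ℝ) ^ (k + 1)) / ((k + 1) * b)
            ≤ 1 * (t * (n : ℝ) ^ (k + 1)) / (1 * (p + 1)) := by gcongr
          _ = (t * (n : ℝ) ^ (k + 1)) / (p + 1) := by ring
          _ ≤ ε / 2 := by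
            rw [div_lt_iff₀ hε] at hp
            rw [div_le_iff₀ (by positivity)]
            nlinarith
      calc |(θ * (s : ℝ) ^ k - φ s - j) + (-((ρ - r / q') * (s : ℝ) ^ k)
            + (r : ℝ) / (M * b) * ((t : ℝ) * s) ^ (k + 1))|
          ≤ |θ * (s : ℝ) ^ k - φ s - j| + |(-((ρ - r / q') * (s : ℝ) ^ k)
            + (r : ℝ) / (M * b) * ((t : ℝ) * s) ^ (k + 1))| := abs_add_le _ _
        _ ≤ |θ * (s : ℝ) ^ k - φ s - j| + (|(-((ρ - r / q') * (s : ℝ) ^ k))|
            + |(r : ℝ) / (M * b) * ((t : ℝ) * s) ^ (k + 1)|) := by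
            gcongr; exact abs_add_le _ _
        _ ≤ δ + (ε / 2 + ε / 2) := by rw [abs_neg]; gcongr
        _ = δ + ε := by ring

/-- base case -/
lemma comb_zero (δ : ℝ) (hδ : 0 < δ) : ∃ A B : Set ℕ, Disjoint A B ∧ 0 ∉ A ∪ B ∧
    IntP 1 δ (A ∪ B) ∧ ConfN 0 A B := by
  obtain ⟨M, hM⟩ := exists_nat_gt (1 / δ)
  set M' := M + 2 with hM'
  refine ⟨{1}, {M'}, ?_, ?_, ?_, ?_⟩
  · rw [Set.disjoint_singleton]; omega
  · simp only [Set.singleton_union, Set.mem_insert_iff, Set.mem_singleton_iff]; omega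
  · intro φ
    have hMpos : (0 : ℝ) < M' := by positivity
    refine ⟨φ 1 + Int.fract (φ M' - M' * φ 1) / M', ?_⟩
    intro h hh
    rcases hh with hh | hh
    · rw [Set.mem_singleton_iff] at hh
      subst hh
      refine ⟨0, ?_⟩
      have h1 : (φ 1 + Int.fract (φ M' - M' * φ 1) / M') * ((1 : ℕ) : ℝ) ^ 1 - φ 1 - ((0 : ℤ) : ℝ)
          = Int.fract (φ M' - M' * φ 1) / M' := by push_cast; ring
      rw [h1, abs_of_nonneg (by have := Int.fract_nonneg (φ M' - M' * φ 1); positivity)]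
      rw [div_le_iff₀ hMpos]
      have h2 := (Int.fract_lt_one (φ M' - M' * φ 1)).le
      rw [div_lt_iff₀ hδ] at hM
      have h3 : (1 : ℝ) ≤ δ * M' := by
        rw [hM']
        push_cast
        nlinarith
      linarith
    · rw [Set.mem_singleton_iff] at hh
      subst hh
      refine ⟨-⌊φ M' - M' * φ 1⌋, ?_⟩
      have h1 : (φ 1 + Int.fract (φ M' - M' * φ 1) / M') * ((M' : ℕ) : ℝ) ^ 1 - φ M'
          - ((-⌊φ M' - M' * φ 1⌋ : ℤ) : ℝ) = 0 := by
        have h2 := Int.floor_add_fract (φ M' - M' * φ 1)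
        rw [pow_one, add_mul, div_mul_cancel₀ _ hMpos.ne', Int.cast_neg]
        linarith
      rw [h1, abs_zero]
      exact hδ.le
  · intro r
    refine ⟨M', fun c => ⟨M' - 1, 1, [], rfl, trivial, by simp, ?_, ?_⟩⟩
    · simp only [List.sum_nil, add_zero, Set.mem_singleton_iff]; omega
    · simp only [List.sum_nil, add_zero]; omega

/-- the inductive step -/
lemma comb_succ (k : ℕ) (ih : ∀ δ : ℝ, 0 < δ → ∃ A B : Set ℕ, Disjoint A B ∧ 0 ∉ A ∪ B ∧
    IntP (k + 1) δ (A ∪ B) ∧ ConfN k A B) (δ : ℝ) (hδ : 0 < δ) :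
    ∃ A B : Set ℕ, Disjoint A B ∧ 0 ∉ A ∪ B ∧
    IntP (k + 2) δ (A ∪ B) ∧ ConfN (k + 1) A B := by
  obtain ⟨A, B, hAB, h0, hInt, hConf⟩ := ih (δ / 2) (by positivity)
  set E := A ∪ B with hE
  set ε := δ / 4 with hε
  have hεpos : 0 < ε := by positivity
  let i : ℕ → ℕ := fun n => (Nat.unpair (Nat.unpair n).1).1
  let t : ℕ → ℕ := fun n => (Nat.unpair (Nat.unpair n).1).2 + 1
  have ht : ∀ n, 1 ≤ t n := fun n => Nat.le_add_left 1 _
  choose Q hQ1 hQ using fun n => block hεpos hInt (t n) (ht n) n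
  -- the recursive choice
  have hR : ∀ n x : ℕ, ∃ y : ℕ, i (n + 1) ≤ y ∧ x + t n * n < y ∧ Q (n + 1) ≤ y ∧
      Q (n + 1) ∣ y ∧ ((x + t n * n : ℕ) : ℝ) ^ (k + 2) * 2 ^ (n + 1) ≤ ε * y ∧
      2 ^ (n + 1) ≤ y := by
    intro n x
    obtain ⟨z, hz⟩ := exists_nat_gt (((x + t n * n : ℕ) : ℝ) ^ (k + 2) * 2 ^ (n + 1) / ε)
    set L := i (n + 1) + (x + t n * n + 1) + 1 + z + 2 ^ (n + 1) with hL
    have hLQ : L ≤ Q (n + 1) * L := Nat.le_mul_of_pos_left L (hQ1 (n + 1))
    have h2pos : 0 < 2 ^ (n + 1) := by positivity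
    refine ⟨Q (n + 1) * L, by omega, by omega, ?_, ⟨L, rfl⟩, ?_, by omega⟩
    · exact Nat.le_mul_of_pos_right _ (by omega)
    · rw [div_lt_iff₀ hεpos] at hz
      have : (z : ℝ) ≤ (Q (n + 1) * L : ℕ) := by
        exact_mod_cast (show z ≤ Q (n + 1) * L by omega)
      nlinarith
  choose f hf using hR
  let b : ℕ → ℕ := fun n => Nat.rec 0 (fun n x => f n x) n
  have hb : ∀ n, i (n + 1) ≤ b (n + 1) ∧ b n + t n * n < b (n + 1) ∧ Q (n + 1) ≤ b (n + 1) ∧
      Q (n + 1) ∣ b (n + 1) ∧ ((b n + t n * n : ℕ) : ℝ) ^ (k + 2) * 2 ^ (n + 1) ≤ ε * b (n + 1) ∧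
      2 ^ (n + 1) ≤ b (n + 1) := fun n => hf n (b n)
  have hbmono : StrictMono b := strictMono_nat_of_lt_succ fun n => by
    have := (hb n).2.1; omega
  have hlt : ∀ n n' s s', n < n' → s ≤ n → b n + t n * s < b n' + t n' * s' := by
    intro n n' s s' hn hs
    have h1 : t n * s ≤ t n * n := Nat.mul_le_mul_left _ hs
    have h2 : b (n + 1) ≤ b n' := hbmono.monotone hn
    have := (hb n).2.1
    omega
  have hsep : ∀ n n' s s', s ≤ n → s' ≤ n' → b n + t n * s = b n' + t n' * s' → s = s' := by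
    intro n n' s s' hs hs' h
    rcases lt_trichotomy n n' with hn | hn | hn
    · exact absurd h (hlt n n' s s' hn hs).ne
    · subst hn
      have : t n * s = t n * s' := by omega
      exact Nat.eq_of_mul_eq_mul_left (ht n) this
    · exact absurd h.symm (hlt n' n s' s hn hs').ne
  set A' : Set ℕ := {h | ∃ n, ∃ s ∈ A, s ≤ n ∧ h = b n + t n * s} with hA'
  set B' : Set ℕ := {h | ∃ n, ∃ s ∈ B, s ≤ n ∧ h = b n + t n * s} with hB'
  refine ⟨A', B', ?_, ?_, ?_, ?_⟩
  · rw [Set.disjoint_left]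
    rintro h ⟨n, s, hs, hsn, rfl⟩ ⟨n', s', hs', hsn', e⟩
    have := hsep n n' s s' hsn hsn' e
    subst this
    exact Set.disjoint_left.1 hAB hs hs'
  · rintro (⟨n, s, hs, hsn, e⟩ | ⟨n, s, hs, hsn, e⟩)
    · have h1 : t n * s = 0 := by omega
      rcases Nat.mul_eq_zero.1 h1 with h2 | h2
      · have := ht n; omega
      · exact h0 (Or.inl (h2 ▸ hs))
    · have h1 : t n * s = 0 := by omega
      rcases Nat.mul_eq_zero.1 h1 with h2 | h2
      · have := ht n; omega
      · exact h0 (Or.inr (h2 ▸ hs))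
  · -- interpolation
    intro φ
    have hch : ∀ (n : ℕ) (a : ℝ), ∃ β : ℝ, |β| ≤ 1 / b (n + 1) ∧ ∀ s ∈ E, s ≤ n + 1 → ∃ j : ℤ,
        |β * ((b (n + 1) + t (n + 1) * s : ℕ) : ℝ) ^ (k + 2) - (φ (b (n + 1) + t (n + 1) * s)
          - a * ((b (n + 1) + t (n + 1) * s : ℕ) : ℝ) ^ (k + 2)) - j| ≤ δ / 2 + ε := by
      intro n a
      exact hQ (n + 1) (b (n + 1)) (hb n).2.2.1 (hb n).2.2.2.1
        (fun s => φ (b (n + 1) + t (n + 1) * s)
          - a * ((b (n + 1) + t (n + 1) * s : ℕ) : ℝ) ^ (k + 2))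
    choose β hβ1 hβ2 using hch
    let α : ℕ → ℝ := fun n => Nat.rec 0 (fun n a => a + β n a) n
    have hα : ∀ n, α (n + 1) = α n + β n (α n) := fun n => rfl
    have hbpos : ∀ n, (0 : ℝ) < b (n + 1) := by
      intro n
      have h1 : 0 < b (n + 1) := lt_of_lt_of_le (by positivity) (hb n).2.2.2.2.2
      exact_mod_cast h1
    have hstep : ∀ n, |α (n + 1) - α n| ≤ 1 / b (n + 1) := by
      intro n
      rw [hα, add_sub_cancel_left]
      exact hβ1 n _
    have he : ∀ n m, n ≤ m → ((b n + t n * n : ℕ) : ℝ) ≤ ((b m + t m * m : ℕ) : ℝ) := by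
      intro n m hnm
      rcases hnm.lt_or_eq with h | h
      · exact_mod_cast (hlt n m n m h le_rfl).le
      · rw [h]
    have hkey : ∀ n m, n ≤ m → |α m - α n| * ((b n + t n * n : ℕ) : ℝ) ^ (k + 2)
        ≤ ε * (1 / 2 ^ n - 1 / 2 ^ m) := by
      intro n m hnm
      induction m, hnm using Nat.le_induction with
      | base => simp
      | succ m hnm ih =>
        have h1 : |α (m + 1) - α n| ≤ |α (m + 1) - α m| + |α m - α n| := abs_sub_le _ _ _
        have h2 : |α (m + 1) - α m| * ((b n + t n * n : ℕ) : ℝ) ^ (k + 2)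
            ≤ ε * (1 / 2 ^ (m + 1)) := by
          calc |α (m + 1) - α m| * ((b n + t n * n : ℕ) : ℝ) ^ (k + 2)
              ≤ 1 / b (m + 1) * ((b m + t m * m : ℕ) : ℝ) ^ (k + 2) := by
                have h3 := hstep m
                have h4 := he n m hnm
                have h5 : (0 : ℝ) ≤ ((b n + t n * n : ℕ) : ℝ) := Nat.cast_nonneg _
                have h6 := hbpos m
                gcongr
            _ = ((b m + t m * m : ℕ) : ℝ) ^ (k + 2) / b (m + 1) := by ring
            _ ≤ ε * (1 / 2 ^ (m + 1)) := by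
                have h3 := (hb m).2.2.2.2.1
                rw [div_le_iff₀ (hbpos m), mul_one_div, div_mul_eq_mul_div,
                  le_div_iff₀ (by positivity)]
                exact h3
        have h3 : (1 : ℝ) / 2 ^ m = 2 * (1 / 2 ^ (m + 1)) := by
          rw [pow_succ]; field_simp
        calc |α (m + 1) - α n| * ((b n + t n * n : ℕ) : ℝ) ^ (k + 2)
            ≤ (|α (m + 1) - α m| + |α m - α n|) * ((b n + t n * n : ℕ) : ℝ) ^ (k + 2) := by
              gcongr
          _ = |α (m + 1) - α m| * ((b n + t n * n : ℕ) : ℝ) ^ (k + 2)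
            + |α m - α n| * ((b n + t n * n : ℕ) : ℝ) ^ (k + 2) := by ring
          _ ≤ ε * (1 / 2 ^ (m + 1)) + ε * (1 / 2 ^ n - 1 / 2 ^ m) := by gcongr
          _ = _ := by rw [h3]; ring
    have hcauchy : CauchySeq α := by
      refine cauchySeq_of_le_geometric (1 / 2) 1 (by norm_num) fun n => ?_
      rw [dist_comm, Real.dist_eq]
      refine (hstep n).trans ?_
      rw [one_mul, one_div_pow]
      have h1 : (2 : ℝ) ^ n ≤ b (n + 1) := by
        have h2 := (hb n).2.2.2.2.2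
        have h3 : 2 ^ n ≤ b (n + 1) := le_trans (Nat.pow_le_pow_right (by norm_num) (Nat.le_succ n)) h2
        exact_mod_cast h3
      exact one_div_le_one_div_of_le (by positivity) h1
    obtain ⟨a, ha⟩ := cauchySeq_tendsto_of_complete hcauchy
    have hlim : ∀ n, |a - α n| * ((b n + t n * n : ℕ) : ℝ) ^ (k + 2) ≤ ε := by
      intro n
      have h1 : Tendsto (fun m => |α m - α n| * ((b n + t n * n : ℕ) : ℝ) ^ (k + 2)) atTop
          (𝓝 (|a - α n| * ((b n + t n * n : ℕ) : ℝ) ^ (k + 2))) :=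
        ((ha.sub_const _).abs).mul_const _
      refine le_of_tendsto h1 ?_
      filter_upwards [eventually_ge_atTop n] with m hm
      refine (hkey n m hm).trans ?_
      have h2 : (1 : ℝ) / 2 ^ n ≤ 1 := by
        rw [div_le_one (by positivity)]; exact one_le_pow₀ (by norm_num)
      have h3 : (0 : ℝ) ≤ 1 / 2 ^ m := by positivity
      nlinarith
    refine ⟨a, ?_⟩
    intro h hh
    obtain ⟨n, s, hs, hsn, rfl⟩ : ∃ n, ∃ s ∈ E, s ≤ n ∧ h = b n + t n * s := by
      rcases hh with ⟨n, s, hs, hsn, e⟩ | ⟨n, s, hs, hsn, e⟩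
      · exact ⟨n, s, Or.inl hs, hsn, e⟩
      · exact ⟨n, s, Or.inr hs, hsn, e⟩
    have hspos : s ≠ 0 := fun h => h0 (h ▸ hs)
    obtain ⟨n, rfl⟩ : ∃ m, n = m + 1 := ⟨n - 1, by omega⟩
    obtain ⟨j, hj⟩ := hβ2 n (α n) s hs hsn
    refine ⟨j, ?_⟩
    set H : ℝ := ((b (n + 1) + t (n + 1) * s : ℕ) : ℝ) with hH
    have e1 : a * H ^ (k + 2) - φ (b (n + 1) + t (n + 1) * s) - j
        = (β n (α n) * H ^ (k + 2) - (φ (b (n + 1) + t (n + 1) * s) - α n * H ^ (k + 2)) - j)
          + (a - α (n + 1)) * H ^ (k + 2) := by rw [hα]; ring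
    rw [e1]
    have h1 : |(a - α (n + 1)) * H ^ (k + 2)| ≤ ε := by
      have hHpos : 0 ≤ H := Nat.cast_nonneg _
      rw [abs_mul, abs_of_nonneg (pow_nonneg hHpos (k + 2))]
      refine le_trans ?_ (hlim (n + 1))
      have h2 : H ≤ ((b (n + 1) + t (n + 1) * (n + 1) : ℕ) : ℝ) := by
        rw [hH]
        have : b (n + 1) + t (n + 1) * s ≤ b (n + 1) + t (n + 1) * (n + 1) := by
          have := Nat.mul_le_mul_left (t (n + 1)) hsn
          omega
        exact_mod_cast this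
      gcongr
    calc _ ≤ _ := abs_add_le _ _
      _ ≤ (δ / 2 + ε) + ε := add_le_add hj h1
      _ = δ := by rw [hε]; ring
  · -- configurations
    intro r
    obtain ⟨N, hN⟩ := hConf r
    obtain ⟨W, hW⟩ := vdw r N
    set nmax := (Finset.range (W + 1) ×ˢ Finset.range (W + 1)).sup
      (fun p : ℕ × ℕ => Nat.pair (Nat.pair p.1 (p.2 - 1)) N) with hnmax
    refine ⟨b (nmax + 1), fun c => ?_⟩
    obtain ⟨i0, t0, hi0, ht0, ht1, hmono⟩ := hW c
    set n := Nat.pair (Nat.pair i0 (t0 - 1)) N with hn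
    have hnN : N ≤ n := Nat.right_le_pair _ _
    have hnn : n ≤ nmax :=
      Finset.le_sup (f := fun p : ℕ × ℕ => Nat.pair (Nat.pair p.1 (p.2 - 1)) N)
        (b := (i0, t0)) (Finset.mem_product.2 ⟨Finset.mem_range.2 (by omega),
          Finset.mem_range.2 (by omega)⟩)
    have hin : i n = i0 := by
      change (Nat.unpair (Nat.unpair n).1).1 = i0
      rw [hn, Nat.unpair_pair]; dsimp only; rw [Nat.unpair_pair]
    have htn : t n = t0 := by
      change (Nat.unpair (Nat.unpair n).1).2 + 1 = t0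
      rw [hn, Nat.unpair_pair]; dsimp only; rw [Nat.unpair_pair]; dsimp only; omega
    -- apply the previous level
    obtain ⟨T, n', hs, hlen, hoff, hA1, hB1, hle⟩ := hN (fun s => c (b n + t n * s))
    have hAE : n' + hs.sum ≠ 0 := fun h => h0 (Or.inl (h ▸ hA1))
    have hn0 : n ≠ 0 := by omega
    obtain ⟨n₁, hn₁⟩ : ∃ m, n = m + 1 := ⟨n - 1, by omega⟩
    have hib : i n ≤ b n := by
      rw [hn₁]; exact (hb n₁).1
    rw [htn] at hoff
    have hsum : ∀ x : ℕ, i0 + t0 * n' + ((b n - i0) :: hs.map (fun h => t0 * h)).sum + x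
        = b n + t0 * (n' + hs.sum) + x := by
      intro x
      rw [List.sum_cons, sum_map_mul]
      have : i0 ≤ b n := hin ▸ hib
      rw [mul_add]
      omega
    refine ⟨t0 * T, i0 + t0 * n', (b n - i0) :: hs.map (fun h => t0 * h), by simp [hlen],
      ⟨?_, ?_⟩, ?_, ?_, ?_⟩
    · -- lower face
      apply allQ_map
      apply allQ_of_le hs n' (N - T) (by omega)
      intro s hs'
      rw [add_assoc, ← mul_add]
      exact hmono _ _ (by omega) (by omega)
    · -- upper face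
      have e1 : i0 + t0 * n' + (b n - i0) = b n + t0 * n' := by
        have : i0 ≤ b n := hin ▸ hib
        omega
      rw [e1]
      apply offQ_map
      refine OffQ.imp ?_ hs n' hoff
      intro m hm
      rw [add_assoc, ← mul_add]
      exact hm
    · have := hsum 0
      rw [add_zero, add_zero] at this
      rw [this]
      exact ⟨n, n' + hs.sum, hA1, by omega, by rw [htn]⟩
    · rw [hsum]
      refine ⟨n, n' + hs.sum + T, hB1, by omega, ?_⟩
      rw [htn, mul_add t0 (n' + hs.sum) T, add_assoc]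
    · rw [hsum, add_assoc, ← mul_add]
      have h1 : t0 * (n' + hs.sum + T) ≤ t n * n := by
        rw [htn]; exact Nat.mul_le_mul_left _ (by omega)
      have h2 := (hb n).2.1
      have h3 : b (n + 1) ≤ b (nmax + 1) :=
        hbmono.monotone (show n + 1 ≤ nmax + 1 by omega)
      omega

/-- The combinatorial construction. -/
theorem comb (k : ℕ) : ∀ δ : ℝ, 0 < δ → ∃ A B : Set ℕ, Disjoint A B ∧ 0 ∉ A ∪ B ∧
    IntP (k + 1) δ (A ∪ B) ∧ ConfN k A B := by
  induction k with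
  | zero => exact comb_zero
  | succ k ih => exact comb_succ k ih

end Pool.Agent.Lib.MP_1b26ca_an
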