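import Mathlib
import Pool.Agent.Lib.MP_1b26ca_an.Defs

/-!
# The nilpotent Lie group `ℝ ⋉ (polynomials of degree < K)`
-/

set_option autoImplicit false
set_option linter.unusedSectionVars false

namespace Pool.Agent.Lib.MP_1b26ca_an

open Topology Filter
open scoped Manifold ContDiff commutatorElement

noncomputable section

variable {K : ℕ}

/-- translation of the polynomial `∑ j, q j X ^ j` by `s` -/
def Ash (s : ℝ) (q : Fin K → ℝ) : Fin K → ℝ :=
  fun i => ∑ j : Fin K, ((j : ℕ).choose i : ℝ) * s ^ ((j : ℕ) - i) * q j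

/-- the polynomial with given coefficients -/
def toPoly (q : Fin K → ℝ) : Polynomial ℝ :=
  ∑ j : Fin K, Polynomial.C (q j) * Polynomial.X ^ (j : ℕ)

lemma toPoly_coeff (q : Fin K → ℝ) (i : Fin K) : (toPoly q).coeff i = q i := by
  unfold toPoly
  rw [Polynomial.finsetSum_coeff]
  simp only [Polynomial.coeff_C_mul, Polynomial.coeff_X_pow]
  rw [Finset.sum_eq_single i]
  · simp
  · intro j _ hj
    have : (i : ℕ) ≠ j := fun h => hj (Fin.ext h.symm)
    simp [this]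
  · simp

lemma toPoly_inj {q q' : Fin K → ℝ} (h : toPoly q = toPoly q') : q = q' := by
  funext i
  rw [← toPoly_coeff q i, h, toPoly_coeff]

lemma toPoly_add (q q' : Fin K → ℝ) : toPoly (q + q') = toPoly q + toPoly q' := by
  unfold toPoly
  rw [← Finset.sum_add_distrib]
  refine Finset.sum_congr rfl fun j _ => ?_
  rw [Pi.add_apply, Polynomial.C_add, add_mul]

lemma toPoly_Ash (s : ℝ) (q : Fin K → ℝ) :
    toPoly (Ash s q) = (toPoly q).comp (Polynomial.X + Polynomial.C s) := by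
  unfold toPoly Ash
  rw [Polynomial.sum_comp]
  have h1 : ∀ j : Fin K, (Polynomial.C (q j) * Polynomial.X ^ (j : ℕ)).comp
      (Polynomial.X + Polynomial.C s)
      = ∑ i : Fin K, Polynomial.C (((j : ℕ).choose i : ℝ) * s ^ ((j : ℕ) - i) * q j)
        * Polynomial.X ^ (i : ℕ) := by
    intro j
    rw [Polynomial.mul_comp, Polynomial.C_comp, Polynomial.X_pow_comp, add_pow, Finset.mul_sum]
    rw [Fin.sum_univ_eq_sum_range (fun i => Polynomial.C (((j : ℕ).choose i : ℝ)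
      * s ^ ((j : ℕ) - i) * q j) * (Polynomial.X : Polynomial ℝ) ^ i) K]
    symm
    rw [← Finset.sum_subset (Finset.range_subset_range.2 (show (j : ℕ) + 1 ≤ K from j.2))]
    · refine Finset.sum_congr rfl fun i _ => ?_
      simp only [Polynomial.C_mul, Polynomial.C_pow, map_natCast]
      ring
    · intro i _ hi
      rw [Finset.mem_range, not_lt] at hi
      rw [Nat.choose_eq_zero_of_lt (by omega)]
      simp
  rw [Finset.sum_congr rfl fun j _ => h1 j, Finset.sum_comm]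
  refine Finset.sum_congr rfl fun i _ => ?_
  rw [map_sum, Finset.sum_mul]

lemma Ash_Ash (s t : ℝ) (q : Fin K → ℝ) : Ash s (Ash t q) = Ash (s + t) q := by
  apply toPoly_inj
  rw [toPoly_Ash, toPoly_Ash, toPoly_Ash, Polynomial.comp_assoc]
  congr 1
  simp only [Polynomial.add_comp, Polynomial.X_comp, Polynomial.C_comp, Polynomial.C_add]
  ring

lemma Ash_zero (q : Fin K → ℝ) : Ash 0 q = q := by
  apply toPoly_inj
  rw [toPoly_Ash, Polynomial.C_0, add_zero, Polynomial.comp_X]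

lemma Ash_add (s : ℝ) (q q' : Fin K → ℝ) : Ash s (q + q') = Ash s q + Ash s q' := by
  funext i
  simp only [Ash, Pi.add_apply, ← Finset.sum_add_distrib, mul_add]

lemma Ash_neg (s : ℝ) (q : Fin K → ℝ) : Ash s (-q) = - Ash s q := by
  funext i
  simp only [Ash, Pi.neg_apply, mul_neg, Finset.sum_neg_distrib]

lemma Ash_vzero (s : ℝ) : Ash s (0 : Fin K → ℝ) = 0 := by
  funext i
  simp [Ash]

lemma Ash_sub_deg (s : ℝ) (q : Fin K → ℝ) (m : ℕ) (hq : ∀ j : Fin K, m ≤ (j : ℕ) → q j = 0)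
    (i : Fin K) (hi : m ≤ (i : ℕ) + 1) : Ash s q i = q i := by
  unfold Ash
  rw [Finset.sum_eq_single i]
  · simp
  · intro j _ hj
    rcases lt_trichotomy (j : ℕ) i with h | h | h
    · rw [Nat.choose_eq_zero_of_lt h]; simp
    · exact absurd (Fin.ext h) hj
    · rw [hq j (by omega), mul_zero]
  · simp

/-- evaluation -/
def evp (q : Fin K → ℝ) (x : ℝ) : ℝ := ∑ j : Fin K, q j * x ^ (j : ℕ)

lemma evp_eq (q : Fin K → ℝ) (x : ℝ) : evp q x = (toPoly q).eval x := by
  unfold evp toPoly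
  rw [Polynomial.eval_finsetSum]
  simp

lemma evp_Ash (s : ℝ) (q : Fin K → ℝ) (x : ℝ) : evp (Ash s q) x = evp q (x + s) := by
  rw [evp_eq, evp_eq, toPoly_Ash, Polynomial.eval_comp]
  simp

lemma evp_add (q q' : Fin K → ℝ) (x : ℝ) : evp (q + q') x = evp q x + evp q' x := by
  simp only [evp, Pi.add_apply, add_mul, Finset.sum_add_distrib]

/-- being an integer -/
def IsZ (x : ℝ) : Prop := x ∈ (Int.castRingHom ℝ).range

lemma isZ_iff {x : ℝ} : IsZ x ↔ ∃ n : ℤ, (n : ℝ) = x := by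
  unfold IsZ
  rw [RingHom.mem_range]
  rfl

lemma isZ_int (n : ℤ) : IsZ (n : ℝ) := isZ_iff.2 ⟨n, rfl⟩

lemma isZ_nat (n : ℕ) : IsZ (n : ℝ) := isZ_iff.2 ⟨n, by simp⟩

lemma IsZ.add {x y : ℝ} (hx : IsZ x) (hy : IsZ y) : IsZ (x + y) := Subring.add_mem _ hx hy
lemma IsZ.mul {x y : ℝ} (hx : IsZ x) (hy : IsZ y) : IsZ (x * y) := Subring.mul_mem _ hx hy
lemma IsZ.neg {x : ℝ} (hx : IsZ x) : IsZ (-x) := Subring.neg_mem _ hx
lemma IsZ.pow {x : ℝ} (hx : IsZ x) (n : ℕ) : IsZ (x ^ n) := Subring.pow_mem _ hx n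
lemma isZ_zero : IsZ 0 := Subring.zero_mem _
lemma isZ_sum {ι : Type*} (s : Finset ι) {f : ι → ℝ} (h : ∀ i ∈ s, IsZ (f i)) :
    IsZ (∑ i ∈ s, f i) := Subring.sum_mem _ h

lemma isZ_Ash {s : ℝ} (hs : IsZ s) {q : Fin K → ℝ} (hq : ∀ i, IsZ (q i)) (i : Fin K) :
    IsZ (Ash s q i) := by
  unfold Ash
  exact isZ_sum _ fun j _ => ((isZ_nat _).mul (hs.pow _)).mul (hq j)

lemma isZ_evp {s : ℝ} (hs : IsZ s) {q : Fin K → ℝ} (hq : ∀ i, IsZ (q i)) : IsZ (evp q s) := by
  unfold evp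
  exact isZ_sum _ fun j _ => (hq j).mul (hs.pow _)

/-- The group. -/
def NG (ι : Type) (K : ℕ) : Type := ℝ × (ι → Fin K → ℝ)

variable {ι : Type} [Fintype ι]

instance : NormedAddCommGroup (NG ι K) := inferInstanceAs (NormedAddCommGroup (ℝ × (ι → Fin K → ℝ)))
instance : NormedSpace ℝ (NG ι K) := inferInstanceAs (NormedSpace ℝ (ℝ × (ι → Fin K → ℝ)))
instance : FiniteDimensional ℝ (NG ι K) :=
  inferInstanceAs (FiniteDimensional ℝ (ℝ × (ι → Fin K → ℝ)))
instance : SecondCountableTopology (NG ι K) :=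
  inferInstanceAs (SecondCountableTopology (ℝ × (ι → Fin K → ℝ)))

instance : Group (NG ι K) where
  mul a b := (a.1 + b.1, fun e => a.2 e + Ash a.1 (b.2 e))
  one := (0, 0)
  inv a := (-a.1, fun e => - Ash (-a.1) (a.2 e))
  mul_assoc a b c := by
    refine Prod.ext (add_assoc _ _ _) (funext fun e => ?_)
    change a.2 e + Ash a.1 (b.2 e) + Ash (a.1 + b.1) (c.2 e)
      = a.2 e + Ash a.1 (b.2 e + Ash b.1 (c.2 e))
    rw [Ash_add, Ash_Ash, add_assoc]
  one_mul a := by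
    refine Prod.ext (zero_add _) (funext fun e => ?_)
    change 0 + Ash 0 (a.2 e) = a.2 e
    rw [Ash_zero, zero_add]
  mul_one a := by
    refine Prod.ext (add_zero _) (funext fun e => ?_)
    change a.2 e + Ash a.1 0 = a.2 e
    rw [Ash_vzero, add_zero]
  inv_mul_cancel a := by
    refine Prod.ext (neg_add_cancel _) (funext fun e => ?_)
    change - Ash (-a.1) (a.2 e) + Ash (-a.1) (a.2 e) = 0
    rw [neg_add_cancel]

lemma NG.mul_fst (a b : NG ι K) : (a * b).1 = a.1 + b.1 := rfl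
lemma NG.mul_snd (a b : NG ι K) (e : ι) : (a * b).2 e = a.2 e + Ash a.1 (b.2 e) := rfl
lemma NG.one_fst : (1 : NG ι K).1 = 0 := rfl
lemma NG.one_snd : (1 : NG ι K).2 = 0 := rfl
lemma NG.inv_fst (a : NG ι K) : (a⁻¹).1 = -a.1 := rfl
lemma NG.inv_snd (a : NG ι K) (e : ι) : (a⁻¹).2 e = - Ash (-a.1) (a.2 e) := rfl

lemma contDiff_Ash_aux :
    ContDiff ℝ ∞ (fun p : (ℝ × (ι → Fin K → ℝ)) × (ℝ × (ι → Fin K → ℝ)) =>
      ((p.1.1 + p.2.1, fun e => p.1.2 e + Ash p.1.1 (p.2.2 e)) : ℝ × (ι → Fin K → ℝ))) := by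
  unfold Ash
  refine ContDiff.prodMk (by fun_prop) ?_
  rw [contDiff_pi]
  intro e
  rw [contDiff_pi]
  intro i
  simp only [Pi.add_apply]
  refine ContDiff.add (by fun_prop) ?_
  refine ContDiff.sum fun j _ => ?_
  fun_prop

lemma contDiff_inv_aux :
    ContDiff ℝ ∞ (fun a : ℝ × (ι → Fin K → ℝ) =>
      ((-a.1, fun e => - Ash (-a.1) (a.2 e)) : ℝ × (ι → Fin K → ℝ))) := by
  unfold Ash
  refine ContDiff.prodMk (by fun_prop) ?_
  rw [contDiff_pi]
  intro e
  rw [contDiff_pi]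
  intro i
  simp only [Pi.neg_apply]
  refine ContDiff.neg ?_
  refine ContDiff.sum fun j _ => ?_
  fun_prop

instance : LieGroup 𝓘(ℝ, NG ι K) ∞ (NG ι K) where
  contMDiff_mul := by
    rw [← modelWithCornersSelf_prod, chartedSpaceSelf_prod]
    exact (contDiff_Ash_aux (ι := ι) (K := K)).contMDiff
  contMDiff_inv := (contDiff_inv_aux (ι := ι) (K := K)).contMDiff

instance : IsTopologicalGroup (NG ι K) := topologicalGroup_of_lieGroup 𝓘(ℝ, NG ι K) ∞

/-! ### Nilpotency -/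

/-- elements over `0` with polynomial part of degree `< m` -/
def HG (ι : Type) [Fintype ι] (K m : ℕ) : Subgroup (NG ι K) where
  carrier := {a | a.1 = 0 ∧ ∀ e, ∀ j : Fin K, m ≤ (j : ℕ) → a.2 e j = 0}
  one_mem' := ⟨rfl, fun e j _ => rfl⟩
  mul_mem' := by
    rintro a b ⟨ha, ha'⟩ ⟨hb, hb'⟩
    refine ⟨by rw [NG.mul_fst, ha, hb, add_zero], fun e j hj => ?_⟩
    rw [NG.mul_snd, ha, Ash_zero, Pi.add_apply, ha' e j hj, hb' e j hj, add_zero]
  inv_mem' := by
    rintro a ⟨ha, ha'⟩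
    refine ⟨by rw [NG.inv_fst, ha, neg_zero], fun e j hj => ?_⟩
    rw [NG.inv_snd, ha, neg_zero, Ash_zero, Pi.neg_apply, ha' e j hj, neg_zero]

lemma NG.comm_eq (a b : NG ι K) : ⁅a, b⁆ = ((0, fun e => (Ash a.1 (b.2 e) - b.2 e)
    - (Ash b.1 (a.2 e) - a.2 e)) : ℝ × (ι → Fin K → ℝ)) := by
  have h1 : ⁅a, b⁆ = (a * b) * (b * a)⁻¹ := by rw [commutatorElement_def]; group
  rw [h1]
  refine Prod.ext ?_ (funext fun e => ?_)
  · change (a.1 + b.1) + -(b.1 + a.1) = 0
    ring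
  · change (a.2 e + Ash a.1 (b.2 e)) + Ash (a.1 + b.1)
      (- Ash (-(b.1 + a.1)) (b.2 e + Ash b.1 (a.2 e))) = _
    rw [Ash_neg, Ash_Ash]
    have : a.1 + b.1 + -(b.1 + a.1) = 0 := by ring
    rw [this, Ash_zero]
    dsimp only
    abel

lemma NG.comm_mem {m : ℕ} {a : NG ι K} (ha : a.1 = 0)
    (ha' : ∀ e, ∀ j : Fin K, m + 1 ≤ (j : ℕ) → a.2 e j = 0) (b : NG ι K) :
    ⁅a, b⁆ ∈ HG ι K m := by
  rw [NG.comm_eq]
  refine ⟨rfl, fun e j hj => ?_⟩
  change (Ash a.1 (b.2 e) j - b.2 e j) - (Ash b.1 (a.2 e) j - a.2 e j) = 0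
  rw [ha, Ash_zero, Ash_sub_deg b.1 (a.2 e) (m + 1) (ha' e) j (by omega)]
  ring

lemma NG.comm_mem' (a b : NG ι K) : ⁅a, b⁆ ∈ HG ι K (K - 1) := by
  rw [NG.comm_eq]
  refine ⟨rfl, fun e j hj => ?_⟩
  change (Ash a.1 (b.2 e) j - b.2 e j) - (Ash b.1 (a.2 e) j - a.2 e j) = 0
  rw [Ash_sub_deg b.1 (a.2 e) K (fun j hj => absurd j.2 (by omega)) j (by omega),
    Ash_sub_deg a.1 (b.2 e) K (fun j hj => absurd j.2 (by omega)) j (by omega)]
  ring

lemma NG.lcs_le (i : ℕ) (hi : i + 1 ≤ K) :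
    (⊤ : Subgroup (NG ι K)).lowerCentralSeries (i + 1) ≤ HG ι K (K - (i + 1)) := by
  induction i with
  | zero =>
    rw [Subgroup.lowerCentralSeries_succ, Subgroup.lowerCentralSeries_zero,
      Subgroup.commutator_le]
    intro a _ b _
    exact NG.comm_mem' a b
  | succ i ih =>
    rw [Subgroup.lowerCentralSeries_succ, Subgroup.commutator_le]
    intro a ha b _
    obtain ⟨h1, h2⟩ := ih (by omega) ha
    refine NG.comm_mem h1 (fun e j hj => h2 e j (by omega)) b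

lemma NG.lcs_eq_bot (hK : 1 ≤ K) :
    (⊤ : Subgroup (NG ι K)).lowerCentralSeries K = ⊥ := by
  obtain ⟨k, rfl⟩ : ∃ k, K = k + 1 := ⟨K - 1, by omega⟩
  rw [eq_bot_iff]
  refine (NG.lcs_le k le_rfl).trans ?_
  rintro a ⟨h1, h2⟩
  rw [Subgroup.mem_bot]
  refine Prod.ext h1 (funext fun e => funext fun j => h2 e j ?_)
  omega

/-! ### The lattice -/

/-- the lattice of integer points -/
def LG (ι : Type) [Fintype ι] (K : ℕ) : Subgroup (NG ι K) where
  carrier := {a | IsZ a.1 ∧ ∀ e, ∀ j : Fin K, IsZ (a.2 e j)}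
  one_mem' := ⟨isZ_zero, fun e j => isZ_zero⟩
  mul_mem' := by
    rintro a b ⟨ha, ha'⟩ ⟨hb, hb'⟩
    refine ⟨?_, fun e j => ?_⟩
    · rw [NG.mul_fst]; exact ha.add hb
    · rw [NG.mul_snd, Pi.add_apply]
      exact (ha' e j).add (isZ_Ash ha (hb' e) j)
  inv_mem' := by
    rintro a ⟨ha, ha'⟩
    refine ⟨?_, fun e j => ?_⟩
    · rw [NG.inv_fst]; exact ha.neg
    · rw [NG.inv_snd, Pi.neg_apply]
      exact (isZ_Ash ha.neg (ha' e) j).neg

lemma mem_LG {a : NG ι K} : a ∈ LG ι K ↔ IsZ a.1 ∧ ∀ e, ∀ j : Fin K, IsZ (a.2 e j) := Iff.rfl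

lemma IsZ.eq_zero {x : ℝ} (hx : IsZ x) (h : |x| < 1) : x = 0 := by
  obtain ⟨n, rfl⟩ := isZ_iff.1 hx
  have h1 : |n| < 1 := by exact_mod_cast h
  rw [Int.abs_lt_one_iff] at h1
  rw [h1]; simp

instance : DiscreteTopology (LG ι K) := by
  have hopen : IsOpen {a : NG ι K | |a.1| < 1 ∧ ∀ e, ∀ j : Fin K, |a.2 e j| < 1} := by
    have h1 : {a : NG ι K | |a.1| < 1 ∧ ∀ e, ∀ j : Fin K, |a.2 e j| < 1}
        = {a : NG ι K | |a.1| < 1} ∩ ⋂ e, ⋂ j : Fin K, {a : NG ι K | |a.2 e j| < 1} := by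
      ext a
      simp only [Set.mem_ofPred_eq, Set.mem_inter_iff, Set.mem_iInter]
    rw [h1]
    refine IsOpen.inter ?_ (isOpen_iInter_of_finite fun e => isOpen_iInter_of_finite fun j => ?_)
    · have : Continuous (fun a : ℝ × (ι → Fin K → ℝ) => |a.1|) := by fun_prop
      exact isOpen_lt this continuous_const
    · have : Continuous (fun a : ℝ × (ι → Fin K → ℝ) => |a.2 e j|) := by fun_prop
      exact isOpen_lt this continuous_const
  apply discreteTopology_of_isOpen_singleton_one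
  have h2 := hopen.preimage (continuous_subtype_val (p := fun a => a ∈ LG ι K))
  convert h2 using 1
  ext a
  simp only [Set.mem_singleton_iff, Set.mem_preimage, Set.mem_ofPred_eq]
  constructor
  · rintro rfl
    refine ⟨?_, fun e j => ?_⟩
    · change |(0 : ℝ)| < 1
      simp
    · change |(0 : ℝ)| < 1
      simp
  · rintro ⟨h3, h4⟩
    apply Subtype.ext
    refine Prod.ext (a.2.1.eq_zero h3) (funext fun e => funext fun j => ?_)
    exact (a.2.2 e j).eq_zero (h4 e j)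

lemma continuous_Ash_aux : Continuous (fun p : ℝ × (ι → Fin K → ℝ) =>
    ((p.1, fun e => Ash p.1 (p.2 e)) : ℝ × (ι → Fin K → ℝ))) := by
  unfold Ash
  fun_prop

instance : CompactSpace (NG ι K ⧸ LG ι K) := by
  have hK : IsCompact (Set.Icc (0 : ℝ × (ι → Fin K → ℝ)) 1) := isCompact_Icc
  have h1 : IsCompact ((fun p : ℝ × (ι → Fin K → ℝ) =>
    (QuotientGroup.mk ((p.1, fun e => Ash p.1 (p.2 e)) : NG ι K) : NG ι K ⧸ LG ι K)) ''
      (Set.Icc (0 : ℝ × (ι → Fin K → ℝ)) 1)) := by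
    apply hK.image
    exact (continuous_quotient_mk'.comp continuous_Ash_aux)
  rw [← isCompact_univ_iff]
  convert h1 using 1
  symm
  rw [Set.eq_univ_iff_forall]
  intro x
  obtain ⟨a, rfl⟩ := QuotientGroup.mk_surjective x
  obtain ⟨s, p⟩ := a
  -- coordinates
  set s0 := Int.fract s with hs0
  set c : ι → Fin K → ℝ := fun e => Ash (-s0) (p e) with hc
  refine ⟨(s0, fun e j => Int.fract (c e j)), ⟨⟨Int.fract_nonneg _, fun e j => Int.fract_nonneg _⟩,
    ⟨(Int.fract_lt_one _).le, fun e j => (Int.fract_lt_one _).le⟩⟩, ?_⟩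
  rw [QuotientGroup.eq]
  dsimp only
  refine mem_LG.2 ⟨?_, fun e j => ?_⟩
  · change IsZ (-s0 + s)
    have : -s0 + s = ⌊s⌋ := by rw [hs0]; have := Int.floor_add_fract s; linarith
    rw [this]
    exact isZ_int _
  · change IsZ ((- Ash (-s0) (Ash s0 (fun j => Int.fract (c e j))) + Ash (-s0) (p e)) j)
    rw [Ash_Ash, neg_add_cancel, Ash_zero]
    change IsZ (- Int.fract (c e j) + c e j)
    have : - Int.fract (c e j) + c e j = ⌊c e j⌋ := by
      have := Int.floor_add_fract (c e j); linarith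
    rw [this]
    exact isZ_int _

/-! ### Continuous functions -/

/-- a bump function -/
def bump (x : ℝ) : ℝ := max 0 (1 - 4 * |x|)

lemma bump_zero : bump 0 = 1 := by simp [bump]

lemma bump_eq_zero {x : ℝ} (h : 1 / 4 ≤ |x|) : bump x = 0 := by
  unfold bump
  apply max_eq_left
  linarith

lemma continuous_bump : Continuous bump := by
  unfold bump; fun_prop

/-- the function on the group -/
def Ffun (f : (ι → ℝ) → ℂ) (a : NG ι K) : ℂ :=
  (bump (a.1 - round a.1) : ℂ) * f (fun e => evp (a.2 e) (-(a.1 - round a.1)))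

lemma Ffun_inv {f : (ι → ℝ) → ℂ} (hf : ∀ x : ι → ℝ, ∀ z : ι → ℤ, f (fun e => x e + z e) = f x)
    (a b : NG ι K) (hb : b ∈ LG ι K) : Ffun f (a * b) = Ffun f a := by
  obtain ⟨h1, h2⟩ := mem_LG.1 hb
  obtain ⟨n, hn⟩ := isZ_iff.1 h1
  unfold Ffun
  have e1 : (a * b).1 - round (a * b).1 = a.1 - round a.1 := by
    rw [NG.mul_fst, ← hn, round_add_intCast]
    push_cast
    ring
  rw [e1]
  congr 1
  have h3 : ∀ e, ∃ z : ℤ, (z : ℝ) = evp (b.2 e) (-(a.1 - round a.1) + a.1) := by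
    intro e
    apply isZ_iff.1
    apply isZ_evp _ (h2 e)
    have : -(a.1 - round a.1) + a.1 = round a.1 := by ring
    rw [this]
    exact isZ_int _
  choose z hz using h3
  rw [← hf (fun e => evp (a.2 e) (-(a.1 - round a.1))) z]
  congr 1
  funext e
  rw [NG.mul_snd, evp_add, evp_Ash, hz]

lemma continuous_evp_aux (r : ℝ) : Continuous (fun a : ℝ × (ι → Fin K → ℝ) =>
    (fun e => evp (a.2 e) (-(a.1 - r)) : ι → ℝ)) := by
  unfold evp
  fun_prop

lemma continuous_Ffun {f : (ι → ℝ) → ℂ} (hf : Continuous f) :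
    Continuous (Ffun f : NG ι K → ℂ) := by
  rw [continuous_iff_continuousAt]
  intro a
  -- near `a`, either the round is constant or the bump vanishes
  have hloc : ∀ r : ℤ, Continuous (fun b : ℝ × (ι → Fin K → ℝ) =>
      (bump (b.1 - r) : ℂ) * f (fun e => evp (b.2 e) (-(b.1 - r)))) := by
    intro r
    have h1 := hf.comp (continuous_evp_aux (ι := ι) (K := K) (r : ℝ))
    have h2 : Continuous (fun b : ℝ × (ι → Fin K → ℝ) => (bump (b.1 - r) : ℂ)) := by
      have := continuous_bump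
      fun_prop
    exact h2.mul h1
  have hfst : Continuous (fun b : NG ι K => b.1) := continuous_fst
  by_cases h : |a.1 - round a.1| < 1 / 2
  · have hev : ∀ᶠ b : NG ι K in 𝓝 a, round b.1 = round a.1 := by
      have hopen : IsOpen {b : NG ι K | |b.1 - round a.1| < 1 / 2} :=
        isOpen_lt (by fun_prop) continuous_const
      filter_upwards [hopen.mem_nhds h] with b hb
      have hb' : |b.1 - round a.1| < 1 / 2 := hb
      rw [abs_lt] at hb'
      rw [round_eq, Int.floor_eq_iff]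
      constructor <;> linarith
    refine ((hloc (round a.1)).continuousAt (x := a)).congr ?_
    filter_upwards [hev] with b hb
    unfold Ffun
    rw [hb]
  · -- the bump vanishes nearby
    rw [not_lt] at h
    have hev : ∀ᶠ b : NG ι K in 𝓝 a, Ffun f b = 0 := by
      have hopen : IsOpen {b : NG ι K | |b.1 - a.1| < 1 / 4} :=
        isOpen_lt (by fun_prop) continuous_const
      filter_upwards [hopen.mem_nhds (by simp : |a.1 - a.1| < 1 / 4)] with b hb
      have hb' : |b.1 - a.1| < 1 / 4 := hb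
      have h2 : 1 / 4 ≤ |b.1 - round b.1| := by
        have h3 : |a.1 - round a.1| ≤ |a.1 - round b.1| := round_le a.1 (round b.1)
        have h4 : |a.1 - round b.1| ≤ |a.1 - b.1| + |b.1 - round b.1| := abs_sub_le _ _ _
        rw [abs_sub_comm] at hb'
        linarith
      unfold Ffun
      rw [bump_eq_zero h2]
      simp
    refine (continuousAt_const (y := (0 : ℂ))).congr ?_
    filter_upwards [hev] with b hb
    exact hb.symm

/-! ### Powers -/

/-- the translation element -/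
def gel (K : ℕ) (α : ι → ℝ) (n : ℕ) : NG ι K :=
  ((n : ℝ), fun e i => α e * ((K.choose i : ℝ) * (n : ℝ) ^ (K - (i : ℕ))))

lemma toPoly_gel (α : ℝ) (n : ℕ) :
    toPoly (fun i : Fin K => α * ((K.choose i : ℝ) * (n : ℝ) ^ (K - (i : ℕ))))
      = Polynomial.C α * ((Polynomial.X + Polynomial.C (n : ℝ)) ^ K - Polynomial.X ^ K) := by
  unfold toPoly
  rw [add_pow, Finset.sum_range_succ]
  rw [Fin.sum_univ_eq_sum_range (fun i => Polynomial.C (α * ((K.choose i : ℝ)
    * (n : ℝ) ^ (K - i))) * (Polynomial.X : Polynomial ℝ) ^ i) K]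
  rw [Nat.sub_self, pow_zero, mul_one, Nat.choose_self, Nat.cast_one, mul_one,
    add_sub_cancel_right, Finset.mul_sum]
  refine Finset.sum_congr rfl fun i _ => ?_
  simp only [Polynomial.C_mul, Polynomial.C_pow, map_natCast]
  ring

lemma gel_mul (α : ι → ℝ) (n : ℕ) : gel K α 1 * gel K α n = gel K α (n + 1) := by
  refine Prod.ext ?_ (funext fun e => ?_)
  · change ((1 : ℕ) : ℝ) + (n : ℝ) = ((n + 1 : ℕ) : ℝ)
    push_cast; ring
  · apply toPoly_inj
    change toPoly ((fun i : Fin K => α e * ((K.choose i : ℝ) * ((1 : ℕ) : ℝ) ^ (K - (i : ℕ))))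
      + Ash ((1 : ℕ) : ℝ) (fun i : Fin K => α e * ((K.choose i : ℝ) * (n : ℝ) ^ (K - (i : ℕ)))))
      = toPoly (fun i : Fin K => α e * ((K.choose i : ℝ) * ((n + 1 : ℕ) : ℝ) ^ (K - (i : ℕ))))
    rw [toPoly_add, toPoly_Ash, toPoly_gel, toPoly_gel, toPoly_gel]
    simp only [Polynomial.mul_comp, Polynomial.C_comp, Polynomial.sub_comp, Polynomial.pow_comp,
      Polynomial.add_comp, Polynomial.X_comp]
    push_cast
    simp only [Polynomial.C_add, Polynomial.C_1]
    ring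

lemma gel_pow (α : ι → ℝ) (n : ℕ) : (gel K α 1) ^ n = gel K α n := by
  induction n with
  | zero =>
    rw [pow_zero]
    refine Prod.ext ?_ (funext fun e => ?_)
    · change (0 : ℝ) = ((0 : ℕ) : ℝ)
      simp
    · apply toPoly_inj
      change toPoly (0 : Fin K → ℝ) = toPoly (fun i : Fin K =>
        α e * ((K.choose i : ℝ) * ((0 : ℕ) : ℝ) ^ (K - (i : ℕ))))
      rw [toPoly_gel]
      simp [toPoly]
  | succ n ih =>
    rw [pow_succ', ih, gel_mul]

lemma Ffun_gel (hK : 1 ≤ K) (f : (ι → ℝ) → ℂ) (α : ι → ℝ) (n : ℕ) :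
    Ffun f (gel K α n) = f (fun e => α e * (n : ℝ) ^ K) := by
  unfold Ffun
  have h1 : (gel K α n).1 = ((n : ℤ) : ℝ) := by
    change (n : ℝ) = ((n : ℤ) : ℝ); simp
  rw [h1, round_intCast, sub_self, bump_zero, neg_zero]
  push_cast
  rw [one_mul]
  congr 1
  funext e
  unfold evp
  rw [Finset.sum_eq_single (⟨0, hK⟩ : Fin K)]
  · change α e * ((K.choose 0 : ℝ) * (n : ℝ) ^ (K - 0)) * 0 ^ 0 = _
    simp
  · intro j _ hj
    have : (j : ℕ) ≠ 0 := fun h => hj (Fin.ext h)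
    rw [zero_pow this, mul_zero]
  · simp

/-- Continuous functions of `α n ^ K mod 1` are basic nilsequences. -/
theorem basic_nilseq (hK : 1 ≤ K) (α : ι → ℝ) {f : (ι → ℝ) → ℂ} (hfc : Continuous f)
    (hf : ∀ x : ι → ℝ, ∀ z : ι → ℤ, f (fun e => x e + z e) = f x) :
    IsBasicNilseq K (fun n : ℕ+ => f (fun e => α e * ((n : ℕ) : ℝ) ^ K)) := by
  refine ⟨NG ι K, inferInstance, inferInstance, inferInstance, NG ι K, inferInstance,
    inferInstance, inferInstance, inferInstance, inferInstance, inferInstance,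
    NG.lcs_eq_bot hK, LG ι K, inferInstance, inferInstance, gel K α 1,
    QuotientGroup.mk 1, Quotient.lift (Ffun f) ?_, ?_, ?_⟩
  · intro a b hab
    have hab' : a⁻¹ * b ∈ LG ι K := QuotientGroup.leftRel_apply.1 hab
    have := Ffun_inv hf a (a⁻¹ * b) hab'
    rw [mul_inv_cancel_left] at this
    exact this.symm
  · exact Continuous.quotient_lift (continuous_Ffun hfc) _
  · intro n
    change _ = Quotient.lift (Ffun f) _ (QuotientGroup.mk (gel K α 1 ^ (n : ℕ) * 1))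
    rw [mul_one, gel_pow]
    exact (Ffun_gel hK f α n).symm

end

end Pool.Agent.Lib.MP_1b26ca_an
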