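import Mathlib
import Pool.Agent.Lib.MP_1b26ca_an.NilG
import Pool.Agent.Lib.MP_1b26ca_an.Comb

/-!
# Interpolation by nilsequences
-/

set_option autoImplicit false

namespace Pool.Agent.Lib.MP_1b26ca_an

open Topology Filter

/-- distance to the nearest integer -/
lemma abs_sub_round_lip (s t : ℝ) (j : ℤ) :
    |s - round s| ≤ |s - t - j| + |t - round t| := by
  have h1 : |s - round s| ≤ |s - ((round t + j : ℤ) : ℝ)| := round_le s _
  have h2 : s - ((round t + j : ℤ) : ℝ) = (s - t - j) + (t - round t) := by push_cast; ring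
  rw [h2] at h1
  exact h1.trans (abs_add_le _ _)

/-- a triangle wave -/
noncomputable def tri (t : ℝ) : ℝ := 4 * |t - round t| - 1

lemma tri_abs_le (t : ℝ) : |tri t| ≤ 1 := by
  unfold tri
  have h1 := abs_sub_round t
  have h2 := abs_nonneg (t - round t)
  rw [abs_le]; constructor <;> linarith

lemma tri_lip (s t : ℝ) (j : ℤ) : |tri s - tri t| ≤ 4 * |s - t - j| := by
  unfold tri
  have h1 := abs_sub_round_lip s t j
  have h2 := abs_sub_round_lip t s (-j)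
  have h3 : t - s - ((-j : ℤ) : ℝ) = -(s - t - j) := by push_cast; ring
  rw [h3, abs_neg] at h2
  rw [abs_le]; constructor <;> linarith

lemma tri_periodic (t : ℝ) (z : ℤ) : tri (t + z) = tri t := by
  have h := tri_lip (t + z) t z
  have h1 : t + z - t - (z : ℝ) = 0 := by ring
  rw [h1, abs_zero, mul_zero] at h
  exact sub_eq_zero.1 (abs_eq_zero.1 (le_antisymm h (abs_nonneg _)))

lemma continuous_tri : Continuous tri := by
  rw [Metric.continuous_iff]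
  intro t ε hε
  refine ⟨ε / 8, by positivity, fun s hs => ?_⟩
  rw [Real.dist_eq] at hs ⊢
  have := tri_lip s t 0
  rw [Int.cast_zero, sub_zero] at this
  linarith

lemma tri_of_mem {t : ℝ} (h0 : 0 ≤ t) (h1 : t ≤ 1 / 2) : tri t = 4 * t - 1 := by
  unfold tri
  rcases h1.lt_or_eq with h | h
  · have : round t = 0 := by
      rw [round_eq_zero_iff]
      constructor <;> linarith
    rw [this]
    simp [abs_of_nonneg h0]
  · subst h
    have h2 : round ((1 : ℝ) / 2) = 1 := by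
      rw [round_eq]; norm_num
    rw [h2]
    norm_num [abs_of_nonpos]

lemma exists_real {K : ℕ} {E : Set ℕ} (hE : IntP K (1 / 8) E) (f : ℕ → ℝ)
    (hf : ∀ h ∈ E, |f h| ≤ 1) :
    ∃ α : ℕ → ℝ, ∀ h ∈ E, ∀ J : ℕ,
      |f h - ∑ j ∈ Finset.range J, (1 / 2 : ℝ) ^ j * tri (α j * (h : ℝ) ^ K)| ≤ (1 / 2) ^ J := by
  have hstep : ∀ g : ℕ → ℝ, ∃ a : ℝ, (∀ h ∈ E, |g h| ≤ 1) →
      ∀ h ∈ E, |g h - tri (a * (h : ℝ) ^ K)| ≤ 1 / 2 := by
    intro g
    obtain ⟨a, ha⟩ := hE (fun h => (g h + 1) / 4)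
    refine ⟨a, fun hg h hh => ?_⟩
    obtain ⟨j, hj⟩ := ha h hh
    have h1 := abs_le.1 (hg h hh)
    have h2 : tri ((g h + 1) / 4) = g h := by
      rw [tri_of_mem (by linarith) (by linarith)]; ring
    have h3 := tri_lip (a * (h : ℝ) ^ K) ((g h + 1) / 4) j
    rw [h2, abs_sub_comm] at h3
    linarith
  choose a ha using hstep
  let F : ℕ → ℕ → ℝ := fun j => Nat.rec f (fun _ g => fun h => 2 * (g h - tri (a g * (h : ℝ) ^ K))) j
  have hF0 : F 0 = f := rfl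
  have hFs : ∀ j h, F (j + 1) h = 2 * (F j h - tri (a (F j) * (h : ℝ) ^ K)) := fun j h => rfl
  have hFb : ∀ j, ∀ h ∈ E, |F j h| ≤ 1 := by
    intro j
    induction j with
    | zero => exact hf
    | succ j ih =>
      intro h hh
      rw [hFs, abs_mul, abs_two]
      have := ha (F j) ih h hh
      linarith
  have hsum : ∀ J h, f h = ∑ j ∈ Finset.range J, (1 / 2 : ℝ) ^ j * tri (a (F j) * (h : ℝ) ^ K)
      + (1 / 2) ^ J * F J h := by
    intro J h
    induction J with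
    | zero => simp [hF0]
    | succ J ih =>
      rw [Finset.sum_range_succ, hFs, ih, pow_succ]
      ring
  refine ⟨fun j => a (F j), fun h hh J => ?_⟩
  conv_lhs => rw [hsum J h]
  rw [add_sub_cancel_left, abs_mul, abs_of_pos (by positivity : (0 : ℝ) < (1 / 2) ^ J)]
  exact mul_le_of_le_one_right (by positivity) (hFb J h hh)

/-- the sum of the series -/
noncomputable def ser (K : ℕ) (α : ℕ → ℝ) (n : ℕ) : ℝ :=
  ∑' j : ℕ, (1 / 2 : ℝ) ^ j * tri (α j * (n : ℝ) ^ K)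

lemma term_bound (K : ℕ) (α : ℕ → ℝ) (n j : ℕ) :
    ‖(1 / 2 : ℝ) ^ j * tri (α j * (n : ℝ) ^ K)‖ ≤ 1 * (1 / 2) ^ j := by
  rw [norm_mul, Real.norm_eq_abs, Real.norm_eq_abs, abs_of_pos (by positivity : (0 : ℝ) < (1 / 2) ^ j),
    one_mul]
  exact mul_le_of_le_one_right (by positivity) (tri_abs_le _)

lemma hasSum_ser (K : ℕ) (α : ℕ → ℝ) (n : ℕ) :
    HasSum (fun j : ℕ => (1 / 2 : ℝ) ^ j * tri (α j * (n : ℝ) ^ K)) (ser K α n) := by
  apply Summable.hasSum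
  refine Summable.of_norm_bounded (g := fun j : ℕ => 1 * (1 / 2 : ℝ) ^ j) ?_
    (fun j => term_bound K α n j)
  exact (summable_geometric_of_lt_one (by norm_num) (by norm_num)).mul_left 1

lemma ser_bound (K : ℕ) (α : ℕ → ℝ) (n J : ℕ) :
    |(∑ j ∈ Finset.range J, (1 / 2 : ℝ) ^ j * tri (α j * (n : ℝ) ^ K)) - ser K α n|
      ≤ 2 * (1 / 2) ^ J := by
  have := norm_sub_le_of_geometric_bound_of_hasSum (by norm_num : (1 / 2 : ℝ) < 1)
    (fun j => term_bound K α n j) (hasSum_ser K α n) J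
  rw [Real.norm_eq_abs] at this
  refine this.trans (le_of_eq ?_)
  ring

lemma ser_eq {K : ℕ} {α : ℕ → ℝ} {n : ℕ} {y : ℝ}
    (h : ∀ J : ℕ, |y - ∑ j ∈ Finset.range J, (1 / 2 : ℝ) ^ j * tri (α j * (n : ℝ) ^ K)|
      ≤ (1 / 2) ^ J) : ser K α n = y := by
  have h1 := (hasSum_ser K α n).tendsto_sum_nat
  have h2 : Tendsto (fun J : ℕ => ∑ j ∈ Finset.range J, (1 / 2 : ℝ) ^ j * tri (α j * (n : ℝ) ^ K))
      atTop (𝓝 y) := by
    rw [tendsto_iff_norm_sub_tendsto_zero]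
    refine squeeze_zero (fun J => norm_nonneg _) (fun J => ?_)
      (tendsto_pow_atTop_nhds_zero_of_lt_one (by norm_num : (0 : ℝ) ≤ 1 / 2) (by norm_num))
    rw [Real.norm_eq_abs, abs_sub_comm]
    exact h J
  exact tendsto_nhds_unique h1 h2

/-- The partial sums are basic nilsequences. -/
lemma basic_sums {K : ℕ} (hK : 1 ≤ K) (c : ℝ) (α α' : ℕ → ℝ) (J : ℕ) :
    IsBasicNilseq K (fun n : ℕ+ => (c : ℂ) *
      (((∑ j ∈ Finset.range J, (1 / 2 : ℝ) ^ j * tri (α j * ((n : ℕ) : ℝ) ^ K) : ℝ) : ℂ)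
      + ((∑ j ∈ Finset.range J, (1 / 2 : ℝ) ^ j * tri (α' j * ((n : ℕ) : ℝ) ^ K) : ℝ) : ℂ)
        * Complex.I)) := by
  let β : Fin J ⊕ Fin J → ℝ := Sum.elim (fun j => α j) (fun j => α' j)
  let f : (Fin J ⊕ Fin J → ℝ) → ℂ := fun x => (c : ℂ) *
      (((∑ j : Fin J, (1 / 2 : ℝ) ^ (j : ℕ) * tri (x (Sum.inl j)) : ℝ) : ℂ)
      + ((∑ j : Fin J, (1 / 2 : ℝ) ^ (j : ℕ) * tri (x (Sum.inr j)) : ℝ) : ℂ) * Complex.I)
  have hfc : Continuous f := by
    have := continuous_tri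
    fun_prop
  have hf : ∀ x : Fin J ⊕ Fin J → ℝ, ∀ z : Fin J ⊕ Fin J → ℤ,
      f (fun e => x e + z e) = f x := by
    intro x z
    simp only [f, tri_periodic]
  have := basic_nilseq hK β hfc hf
  convert this using 2 with n
  simp only [f, β, Sum.elim_inl, Sum.elim_inr]
  rw [Fin.sum_univ_eq_sum_range (fun j => (1 / 2 : ℝ) ^ j * tri (α j * ((n : ℕ) : ℝ) ^ K)) J,
    Fin.sum_univ_eq_sum_range (fun j => (1 / 2 : ℝ) ^ j * tri (α' j * ((n : ℕ) : ℝ) ^ K)) J]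

theorem interp {K : ℕ} (hK : 1 ≤ K) {E : Set ℕ} (hE : IntP K (1 / 8) E) :
    IsInterpolationSet K {m : ℕ+ | (m : ℕ) ∈ E} := by
  classical
  intro f hf
  obtain ⟨C, hC⟩ := hf
  set C' := max C 1 with hC'
  have hC'pos : 0 < C' := lt_of_lt_of_le one_pos (le_max_right _ _)
  -- extend by zero
  let g : ℕ → ℂ := fun h => if hh : ∃ m : {m : ℕ+ | (m : ℕ) ∈ E}, ((m : ℕ+) : ℕ) = h
    then f hh.choose else 0
  have hg : ∀ m : {m : ℕ+ | (m : ℕ) ∈ E}, g ((m : ℕ+) : ℕ) = f m := by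
    intro m
    have hh : ∃ m' : {m : ℕ+ | (m : ℕ) ∈ E}, ((m' : ℕ+) : ℕ) = ((m : ℕ+) : ℕ) := ⟨m, rfl⟩
    simp only [g]
    rw [dif_pos hh]
    congr 1
    exact Subtype.ext (PNat.coe_injective hh.choose_spec)
  have hgb : ∀ h, ‖g h‖ ≤ C' := by
    intro h
    simp only [g]
    split_ifs with hh
    · exact (hC _).trans (le_max_left _ _)
    · simpa using hC'pos.le
  obtain ⟨α, hα⟩ := exists_real hE (fun h => (g h).re / C') (fun h _ => by
    rw [abs_div, abs_of_pos hC'pos, div_le_one hC'pos]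
    exact (Complex.abs_re_le_norm _).trans (hgb h))
  obtain ⟨α', hα'⟩ := exists_real hE (fun h => (g h).im / C') (fun h _ => by
    rw [abs_div, abs_of_pos hC'pos, div_le_one hC'pos]
    exact (Complex.abs_im_le_norm _).trans (hgb h))
  refine ⟨fun n => (C' : ℂ) * ((ser K α n : ℂ) + (ser K α' n : ℂ) * Complex.I), ?_, ?_⟩
  · intro ε hε
    obtain ⟨J, hJ⟩ := exists_pow_lt_of_lt_one (show 0 < ε / (4 * C') by positivity)
      (by norm_num : (1 / 2 : ℝ) < 1)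
    refine ⟨_, basic_sums hK C' α α' J, fun n => ?_⟩
    have h1 := ser_bound K α n J
    have h2 := ser_bound K α' n J
    set x := ser K α n
    set y := ser K α' n
    set x' := ∑ j ∈ Finset.range J, (1 / 2 : ℝ) ^ j * tri (α j * ((n : ℕ) : ℝ) ^ K)
    set y' := ∑ j ∈ Finset.range J, (1 / 2 : ℝ) ^ j * tri (α' j * ((n : ℕ) : ℝ) ^ K)
    have e : (C' : ℂ) * ((x : ℂ) + (y : ℂ) * Complex.I) - (C' : ℂ) * ((x' : ℂ) + (y' : ℂ) * Complex.I)
        = (C' : ℂ) * (((x - x' : ℝ) : ℂ) + ((y - y' : ℝ) : ℂ) * Complex.I) := by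
      push_cast; ring
    rw [e, norm_mul, Complex.norm_real, Real.norm_eq_abs, abs_of_pos hC'pos]
    have h3 : ‖((x - x' : ℝ) : ℂ) + ((y - y' : ℝ) : ℂ) * Complex.I‖ ≤ 4 * (1 / 2) ^ J := by
      calc _ ≤ ‖((x - x' : ℝ) : ℂ)‖ + ‖((y - y' : ℝ) : ℂ) * Complex.I‖ := norm_add_le _ _
        _ = |x' - x| + |y' - y| := by
          rw [norm_mul, Complex.norm_I, mul_one, Complex.norm_real, Complex.norm_real,
            Real.norm_eq_abs, Real.norm_eq_abs, abs_sub_comm x x', abs_sub_comm y y']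
        _ ≤ _ := by linarith
    calc C' * ‖((x - x' : ℝ) : ℂ) + ((y - y' : ℝ) : ℂ) * Complex.I‖ ≤ C' * (4 * (1 / 2) ^ J) := by
          gcongr
      _ ≤ ε := by
        rw [lt_div_iff₀ (by positivity)] at hJ
        nlinarith
  · intro m
    have hm : ((m : ℕ+) : ℕ) ∈ E := m.2
    have h1 : ser K α ((m : ℕ+) : ℕ) = (g ((m : ℕ+) : ℕ)).re / C' := ser_eq (hα _ hm)
    have h2 : ser K α' ((m : ℕ+) : ℕ) = (g ((m : ℕ+) : ℕ)).im / C' := ser_eq (hα' _ hm)
    dsimp only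
    rw [h1, h2, hg m]
    apply Complex.ext
    · simp
      field_simp
    · simp
      field_simp

end Pool.Agent.Lib.MP_1b26ca_an
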